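import Mathlib

set_option linter.unusedSectionVars false

namespace Pool.Agent.LibSmallGraph

/-- non-edges of the base graph -/
def nonEdges : List (Fin 13 × Fin 13) :=
  [(0, 4), (0, 8), (0, 9), (0, 11), (1, 5), (1, 11), (3, 4), (3, 7), (3, 10), (4, 6), (5, 9),
    (6, 9), (10, 12)]

/-- adjacency of the base graph on 13 points -/
def B0 (a b : Fin 13) : Bool := a != b && !(nonEdges.contains (a, b)) && !(nonEdges.contains (b, a))

lemma B0_symm : ∀ a b, B0 a b = B0 b a := by decide

lemma B0_irrefl : ∀ a, B0 a a = false := by decide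

lemma B0_deg : ∀ a, 8 ≤ (Finset.univ.filter (fun b => B0 a b = true)).card := by decide

lemma B0_common : ∀ a b, B0 a b = true →
    3 ≤ (Finset.univ.filter (fun c => B0 a c = true ∧ B0 b c = true)).card := by decide

lemma B0_conn : ∀ a b, ∃ c, B0 a c = true ∧ B0 c b = true := by decide

/-- number of neighbours -/
def inv1 (a : Fin 13) : ℕ := ∑ b, if B0 a b then 1 else 0

/-- second invariant -/
def inv2 (a : Fin 13) : ℕ := ∑ b, if B0 a b then inv1 b ^ 2 else 0

lemma inv2_inj : ∀ a b, inv2 a = inv2 b → a = b := by decide +kernel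

/-- The base graph has no non-trivial automorphism. -/
lemma B0_rigid (θ : Fin 13 → Fin 13) (hinj : Function.Injective θ)
    (h : ∀ a b, B0 a b = B0 (θ a) (θ b)) : ∀ a, θ a = a := by
  have hbij : Function.Bijective θ := Finite.injective_iff_bijective.1 hinj
  let e : Fin 13 ≃ Fin 13 := Equiv.ofBijective θ hbij
  have h1 : ∀ a, inv1 (θ a) = inv1 a := by
    intro a
    unfold inv1
    rw [← Equiv.sum_comp e]
    refine Finset.sum_congr rfl (fun b _ => ?_)
    change (if B0 (θ a) (θ b) then 1 else 0) = _
    rw [← h a b]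
  have h2 : ∀ a, inv2 (θ a) = inv2 a := by
    intro a
    unfold inv2
    rw [← Equiv.sum_comp e]
    refine Finset.sum_congr rfl (fun b _ => ?_)
    change (if B0 (θ a) (θ b) then inv1 (θ b) ^ 2 else 0) = _
    rw [← h a b, h1]
  intro a
  exact inv2_inj _ _ (h2 a)

end Pool.Agent.LibSmallGraph
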