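import Mathlib

set_option linter.unusedSectionVars false

namespace Pool.Agent.LibSmallGraph

open Set

variable {G : Type} [Group G]

/-- The graph on `G ⊕ G ⧸ H` attached to `S` and `T`. -/
def keyGraph (H : Subgroup G) (S T : Set G) (hS : ∀ s ∈ S, s⁻¹ ∈ S) (h1 : (1 : G) ∉ S) :
    SimpleGraph (G ⊕ (G ⧸ H)) where
  Adj x y := match x, y with
    | .inl g, .inl g' => g⁻¹ * g' ∈ S
    | .inl g, .inr q => ∃ t ∈ T, ((g * t⁻¹ : G) : G ⧸ H) = q
    | .inr q, .inl g => ∃ t ∈ T, ((g * t⁻¹ : G) : G ⧸ H) = q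
    | .inr q, .inr q' => q ≠ q'
  symm := ⟨fun x y h => by
    rcases x with g | q <;> rcases y with g' | q' <;> simp only at h ⊢
    · have := hS _ h
      rwa [mul_inv_rev, inv_inv] at this
    · exact h
    · exact h
    · exact h.symm⟩
  loopless := ⟨fun x h => by
    rcases x with g | q <;> simp only at h
    · rw [inv_mul_cancel] at h
      exact h1 h
    · exact h rfl⟩

/-- The rigidity condition. -/
structure Rigid (H : Subgroup G) (S T : Set G) : Prop where
  symm : ∀ s ∈ S, s⁻¹ ∈ S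
  one : (1 : G) ∉ S
  mulT : ∀ h ∈ H, ∀ t ∈ T, h * t ∈ T
  oneT : (1 : G) ∈ T
  gen : Subgroup.closure T = ⊤
  rigid : ∀ σ : T → T, Function.Bijective σ →
    (∀ u w : T, (u : G)⁻¹ * w ∈ S ↔ (σ u : G)⁻¹ * (σ w) ∈ S) → ∃ h ∈ H, ∀ u : T, (σ u : G) = h * u

section
variable {H : Subgroup G} {S T : Set G} {hS : ∀ s ∈ S, s⁻¹ ∈ S} {h1 : (1 : G) ∉ S}

lemma key_ll (g g' : G) : (keyGraph H S T hS h1).Adj (.inl g) (.inl g') ↔ g⁻¹ * g' ∈ S := Iff.rfl
lemma key_lr (g : G) (q : G ⧸ H) : (keyGraph H S T hS h1).Adj (.inl g) (.inr q) ↔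
    ∃ t ∈ T, ((g * t⁻¹ : G) : G ⧸ H) = q := Iff.rfl
lemma key_rr (q q' : G ⧸ H) : (keyGraph H S T hS h1).Adj (.inr q) (.inr q') ↔ q ≠ q' := Iff.rfl

/-- adjacency of `g` and the coset of `x`. -/
lemma key_lr' (hR : ∀ h ∈ H, ∀ t ∈ T, h * t ∈ T) (g x : G) :
    (keyGraph H S T hS h1).Adj (.inl g) (.inr (x : G ⧸ H)) ↔ x⁻¹ * g ∈ T := by
  rw [key_lr]
  constructor
  · rintro ⟨t, ht, h⟩
    have h2 : x⁻¹ * (g * t⁻¹) ∈ H := QuotientGroup.eq.1 h.symm
    have := hR _ h2 t ht
    simpa [mul_assoc] using this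
  · intro h
    exact ⟨_, h, by simp⟩

/-- the core of the argument: automorphisms preserving the two parts are left multiplications. -/
lemma key_main [Finite G] (hR : Rigid H S T) (a : G → G) (b : G ⧸ H → G ⧸ H)
    (ha : Function.Injective a)
    (hS' : ∀ g g', g⁻¹ * g' ∈ S ↔ (a g)⁻¹ * a g' ∈ S)
    (hT' : ∀ g x x' : G, b (x : G ⧸ H) = x' → (x⁻¹ * g ∈ T ↔ x'⁻¹ * a g ∈ T)) :
    ∃ g : G, (∀ x, a x = g * x) ∧ ∀ x : G, b (x : G ⧸ H) = ((g * x : G) : G ⧸ H) := by
  have h1 : ∀ x : G, ∃ g : G, (∀ t ∈ T, a (x * t) = g * (x * t)) ∧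
      b (x : G ⧸ H) = ((g * x : G) : G ⧸ H) := by
    intro x
    obtain ⟨x', hx'⟩ := QuotientGroup.mk_surjective (b (x : G ⧸ H))
    have hx'' : b (x : G ⧸ H) = (x' : G ⧸ H) := hx'.symm
    have hmem : ∀ t : T, x'⁻¹ * a (x * t) ∈ T := by
      intro t
      rw [← hT' _ _ _ hx'']
      simp
    let σ : T → T := fun t => ⟨x'⁻¹ * a (x * t), hmem t⟩
    have hinj : Function.Injective σ := by
      intro t w h
      have h2 : x'⁻¹ * a (x * t) = x'⁻¹ * a (x * w) := congrArg Subtype.val h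
      exact Subtype.ext (mul_left_cancel (ha (mul_left_cancel h2)))
    obtain ⟨h, hh, hσ⟩ := hR.rigid σ (Finite.injective_iff_bijective.1 hinj) (by
      intro u w
      have := hS' (x * u) (x * w)
      have e1 : (x * (u : G))⁻¹ * (x * w) = (u : G)⁻¹ * w := by group
      have e2 : (x'⁻¹ * a (x * u))⁻¹ * (x'⁻¹ * a (x * w)) = (a (x * u))⁻¹ * a (x * w) := by group
      rw [e1] at this
      rw [this]
      change _ ↔ (x'⁻¹ * a (x * u))⁻¹ * (x'⁻¹ * a (x * w)) ∈ S
      rw [e2])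
    refine ⟨x' * h * x⁻¹, ?_, ?_⟩
    · intro t ht
      have h2 : x'⁻¹ * a (x * t) = h * t := hσ ⟨t, ht⟩
      have h3 : a (x * t) = x' * (h * t) := by rw [← h2]; group
      rw [h3]; group
    · rw [hx'', QuotientGroup.eq]
      have : x'⁻¹ * (x' * h * x⁻¹ * x) = h := by group
      rw [this]
      exact hh
  choose g hg1 hg2 using h1
  have h2 : ∀ x, ∀ t ∈ T, g (x * t) = g x := by
    intro x t ht
    have e1 := hg1 x t ht
    have e2 := hg1 (x * t) 1 hR.oneT
    rw [mul_one, e1] at e2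
    exact (mul_right_cancel e2).symm
  have h3 : ∀ y x, g (x * y) = g x := by
    intro y
    have hy : y ∈ Subgroup.closure T := by rw [hR.gen]; trivial
    induction hy using Subgroup.closure_induction with
    | mem t ht => exact fun x => h2 x t ht
    | one => intro x; rw [mul_one]
    | mul u v _ _ hu hv => intro x; rw [← mul_assoc, hv, hu]
    | inv u _ hu =>
      intro x
      have := hu (x * u⁻¹)
      rw [inv_mul_cancel_right] at this
      exact this.symm
  have h4 : ∀ x, g x = g 1 := fun x => by rw [← h3 x 1, one_mul]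
  refine ⟨g 1, ?_, ?_⟩
  · intro x
    have := hg1 x 1 hR.oneT
    rw [mul_one, h4 x] at this
    exact this
  · intro x
    rw [hg2 x, h4 x]

end

/-- Left multiplication as an automorphism of the graph. -/
def keyAut (H : Subgroup G) (S T : Set G) (hS : ∀ s ∈ S, s⁻¹ ∈ S) (h1 : (1 : G) ∉ S)
    (g : G) : keyGraph H S T hS h1 ≃g keyGraph H S T hS h1 where
  toEquiv := Equiv.sumCongr (Equiv.mulLeft g) (MulAction.toPerm g)
  map_rel_iff' := by
    intro x y
    have key : ∀ (u : G) (q : G ⧸ H),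
        (∃ t ∈ T, ((g * u * t⁻¹ : G) : G ⧸ H) = g • q) ↔ ∃ t ∈ T, ((u * t⁻¹ : G) : G ⧸ H) = q := by
      intro u q
      refine exists_congr (fun t => and_congr_right (fun _ => ?_))
      rw [mul_assoc]
      change g • ((u * t⁻¹ : G) : G ⧸ H) = g • q ↔ _
      rw [smul_left_cancel_iff]
    rcases x with u | q <;> rcases y with u' | q'
    · change (g * u)⁻¹ * (g * u') ∈ S ↔ u⁻¹ * u' ∈ S
      rw [show (g * u)⁻¹ * (g * u') = u⁻¹ * u' by group]
    · exact key u q'
    · exact key u' q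
    · change g • q ≠ g • q' ↔ q ≠ q'
      rw [ne_eq, smul_left_cancel_iff]

section
variable {H : Subgroup G} {S T : Set G} {hS : ∀ s ∈ S, s⁻¹ ∈ S} {h1 : (1 : G) ∉ S}

lemma key_deg_l [Finite G] (g : G) : ((keyGraph H S T hS h1).neighborSet (.inl g)).ncard ≤
    S.ncard + ((fun t : G => ((t⁻¹ : G) : G ⧸ H)) '' T).ncard := by
  have hsub : (keyGraph H S T hS h1).neighborSet (.inl g) ⊆
      ((fun s : G => (Sum.inl (g * s) : G ⊕ (G ⧸ H))) '' S) ∪
      ((fun c : G ⧸ H => (Sum.inr (g • c) : G ⊕ (G ⧸ H))) ''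
        ((fun t : G => ((t⁻¹ : G) : G ⧸ H)) '' T)) := by
    intro y hy
    rcases y with u | q
    · left
      have hy' : g⁻¹ * u ∈ S := hy
      exact ⟨g⁻¹ * u, hy', by simp⟩
    · right
      have hy' : ∃ t ∈ T, ((g * t⁻¹ : G) : G ⧸ H) = q := hy
      obtain ⟨t, ht, h⟩ := hy'
      exact ⟨_, ⟨t, ht, rfl⟩, congrArg Sum.inr h⟩
  exact (ncard_le_ncard hsub (toFinite _)).trans ((ncard_union_le _ _).trans
    (add_le_add (ncard_image_le (toFinite _)) (ncard_image_le (toFinite _))))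

lemma key_deg_r [Finite G] (hR : ∀ h ∈ H, ∀ t ∈ T, h * t ∈ T) (q : G ⧸ H) :
    T.ncard + (Nat.card (G ⧸ H) - 1) ≤ ((keyGraph H S T hS h1).neighborSet (.inr q)).ncard := by
  obtain ⟨x, rfl⟩ := QuotientGroup.mk_surjective q
  have hsub : ((fun t : G => (Sum.inl (x * t) : G ⊕ (G ⧸ H))) '' T) ∪
      (Sum.inr '' ({(x : G ⧸ H)}ᶜ : Set (G ⧸ H))) ⊆
      (keyGraph H S T hS h1).neighborSet (.inr (x : G ⧸ H)) := by
    rintro y (⟨t, ht, rfl⟩ | ⟨q, hq, rfl⟩)
    · change (keyGraph H S T hS h1).Adj (.inr (x : G ⧸ H)) (.inl (x * t))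
      rw [SimpleGraph.adj_comm, key_lr' hR]
      simpa using ht
    · exact fun h => hq h.symm
  have hc : (((fun t : G => (Sum.inl (x * t) : G ⊕ (G ⧸ H))) '' T) ∪
      (Sum.inr '' ({(x : G ⧸ H)}ᶜ : Set (G ⧸ H)))).ncard = T.ncard + (Nat.card (G ⧸ H) - 1) := by
    rw [ncard_union_eq _ (toFinite _) (toFinite _), ncard_image_of_injective _
      (fun u w h => mul_left_cancel (Sum.inl_injective h)),
      ncard_image_of_injective _ Sum.inr_injective, ncard_compl, ncard_singleton]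
    rw [Set.disjoint_left]
    rintro y ⟨t, _, rfl⟩ ⟨q, _, h⟩
    cases h
  rw [← hc]
  exact ncard_le_ncard hsub (toFinite _)

lemma key_types [Finite G] (hR : ∀ h ∈ H, ∀ t ∈ T, h * t ∈ T)
    (hdeg : S.ncard + ((fun t : G => ((t⁻¹ : G) : G ⧸ H)) '' T).ncard <
      T.ncard + (Nat.card (G ⧸ H) - 1))
    (φ : keyGraph H S T hS h1 ≃g keyGraph H S T hS h1) (g : G) :
    ∃ g', φ (.inl g) = .inl g' := by
  have h2 : ((keyGraph H S T hS h1).neighborSet (φ (.inl g))).ncard =
      ((keyGraph H S T hS h1).neighborSet (.inl g)).ncard := by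
    rw [← ncard_image_of_injective ((keyGraph H S T hS h1).neighborSet (.inl g)) φ.injective]
    congr 1
    ext y
    constructor
    · intro h
      refine ⟨φ.symm y, ?_, φ.apply_symm_apply y⟩
      change (keyGraph H S T hS h1).Adj _ _
      rw [← φ.map_adj_iff, φ.apply_symm_apply]
      exact h
    · rintro ⟨x, hx, rfl⟩
      exact φ.map_adj_iff.2 hx
  rcases h3 : φ (.inl g) with u | q
  · exact ⟨u, rfl⟩
  · exfalso
    rw [h3] at h2
    have := key_deg_r (hS := hS) (h1 := h1) hR q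
    have h4 := key_deg_l (H := H) (S := S) (T := T) (hS := hS) (h1 := h1) g
    omega

/-- Every automorphism is a left multiplication. -/
theorem key_aut [Finite G] (hR : Rigid H S T)
    (hdeg : S.ncard + ((fun t : G => ((t⁻¹ : G) : G ⧸ H)) '' T).ncard <
      T.ncard + (Nat.card (G ⧸ H) - 1))
    (φ : keyGraph H S T hR.symm hR.one ≃g keyGraph H S T hR.symm hR.one) :
    ∃ g : G, φ = keyAut H S T hR.symm hR.one g := by
  have hl := key_types hR.mulT hdeg φ
  have hl' := key_types hR.mulT hdeg φ.symm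
  have hr : ∀ q, ∃ q', φ (.inr q) = .inr q' := by
    intro q
    rcases h3 : φ (.inr q) with u | q'
    · obtain ⟨u', hu'⟩ := hl' u
      rw [← h3, φ.symm_apply_apply] at hu'
      cases hu'
    · exact ⟨q', rfl⟩
  choose a ha using hl
  choose b hb using hr
  obtain ⟨g, hg1, hg2⟩ := key_main hR a b
    (by
      intro x y h
      have : φ (.inl x) = φ (.inl y) := by rw [ha, ha, h]
      exact Sum.inl_injective (φ.injective this))
    (by
      intro x y
      rw [← key_ll (H := H) (T := T) (hS := hR.symm) (h1 := hR.one), ← φ.map_adj_iff, ha, ha, key_ll])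
    (by
      intro x y y' h
      rw [← key_lr' (S := S) (hS := hR.symm) (h1 := hR.one) hR.mulT,
        ← key_lr' (S := S) (hS := hR.symm) (h1 := hR.one) hR.mulT, ← φ.map_adj_iff, ha, hb, h])
  refine ⟨g, ?_⟩
  ext x
  rcases x with u | q
  · rw [ha, hg1]
    rfl
  · obtain ⟨x, rfl⟩ := QuotientGroup.mk_surjective q
    rw [hb, hg2]
    rfl

/-- The automorphism group of the graph is isomorphic to `G`. -/
theorem key_iso [Finite G] (hR : Rigid H S T)
    (hdeg : S.ncard + ((fun t : G => ((t⁻¹ : G) : G ⧸ H)) '' T).ncard <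
      T.ncard + (Nat.card (G ⧸ H) - 1)) :
    Nonempty ((keyGraph H S T hR.symm hR.one ≃g keyGraph H S T hR.symm hR.one) ≃* G) := by
  let L : G →* (keyGraph H S T hR.symm hR.one ≃g keyGraph H S T hR.symm hR.one) :=
    { toFun := keyAut H S T hR.symm hR.one
      map_one' := by
        ext x
        rcases x with u | q
        · change Sum.inl (1 * u) = Sum.inl u
          rw [one_mul]
        · change Sum.inr ((1 : G) • q) = Sum.inr q
          rw [one_smul]
      map_mul' := by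
        intro g g'
        ext x
        rcases x with u | q
        · change Sum.inl (g * g' * u) = Sum.inl (g * (g' * u))
          rw [mul_assoc]
        · change Sum.inr ((g * g') • q) = Sum.inr (g • g' • q)
          rw [mul_smul] }
  refine ⟨(MulEquiv.ofBijective L ⟨?_, ?_⟩).symm⟩
  · intro g g' h
    have h2 : (L g) (.inl 1) = (L g') (.inl 1) := by rw [h]
    have h3 : (Sum.inl (g * 1) : G ⊕ (G ⧸ H)) = Sum.inl (g' * 1) := h2
    simpa using Sum.inl_injective h3
  · intro φ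
    obtain ⟨g, hg⟩ := key_aut hR hdeg φ
    exact ⟨g, hg.symm⟩

end

end Pool.Agent.LibSmallGraph
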