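import Mathlib
import Pool.Agent.LibSmallGraph.Key
import Pool.Agent.LibSmallGraph.Base

set_option linter.unusedSectionVars false

namespace Pool.Agent.LibSmallGraph

open Set

variable {G : Type} [Group G]

/-- the union of the layers -/
def layers (k : G) (F : ℕ → G) (r : ℕ) : Set G :=
  {u | ∃ h ∈ Subgroup.zpowers k, ∃ m, m < 13 + r ∧ u = h * F m}

structure Pre (k : G) (F : ℕ → G) (r : ℕ) (S : Set G) (lam : G) : Prop where
  symm : ∀ s ∈ S, s⁻¹ ∈ S
  one : (1 : G) ∉ S
  kne : k ≠ 1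
  dist : ∀ m < 13 + r, ∀ m' < 13 + r, ∀ h ∈ Subgroup.zpowers k, F m = h * F m' → m = m' ∧ h = 1
  intra : ∀ a b : Fin 13, (F a)⁻¹ * F b ∈ S ↔ B0 a b = true
  inter : ∀ a b : Fin 13, ∀ h ∈ Subgroup.zpowers k, h ≠ 1 → (F a)⁻¹ * h * F b ∈ S →
    (F a)⁻¹ * h * F b = lam ∨ (F a)⁻¹ * h * F b = lam⁻¹
  lamS : (F 0)⁻¹ * k * F 12 ∈ S
  link : ∀ h ∈ Subgroup.zpowers k, h ≠ 1 → (F 0)⁻¹ * h * F 12 ∈ S → h = k
  path : ∀ m, 12 ≤ m → m + 1 < 13 + r → (F m)⁻¹ * F (m + 1) ∈ S
  tail : ∀ m m', 12 ≤ m → m < m' → m' < 13 + r → ∀ h ∈ Subgroup.zpowers k,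
    (F m)⁻¹ * h * F m' ∈ S → m' = m + 1 ∧ h = 1
  deg : ∀ m, 13 ≤ m → m < 13 + r → {w | w ∈ layers k F r ∧ (F m)⁻¹ * w ∈ S}.ncard ≤ 7

section
variable [Finite G] {k : G} {F : ℕ → G} {r : ℕ} {S : Set G} {lam : G}

/-- neighbours of `u` in `T` -/
def Dn (S T : Set G) (u : T) : Set T := {w : T | (u : G)⁻¹ * w ∈ S}

lemma Dn_image {T : Set G} (σ : T → T) (hσ : Function.Bijective σ)
    (hadj : ∀ u w : T, (u : G)⁻¹ * w ∈ S ↔ (σ u : G)⁻¹ * (σ w) ∈ S) (u : T) :
    Dn S T (σ u) = σ '' Dn S T u := by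
  ext w
  constructor
  · intro hw
    obtain ⟨w', rfl⟩ := hσ.2 w
    exact ⟨w', (hadj u w').2 hw, rfl⟩
  · rintro ⟨w', hw', rfl⟩
    exact (hadj u w').1 hw'

lemma mem_layers {g : G} (hg : g ∈ Subgroup.zpowers k) {m : ℕ} (hm : m < 13 + r) :
    g * F m ∈ layers k F r := ⟨g, hg, m, hm, rfl⟩

lemma deg_core (hP : Pre k F r S lam) {g : G} (hg : g ∈ Subgroup.zpowers k) (a : Fin 13)
    (u : layers k F r) (hu : (u : G) = g * F a) : 8 ≤ (Dn S (layers k F r) u).ncard := by
  classical
  refine (B0_deg a).trans ?_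
  rw [← ncard_coe_finset]
  refine ncard_le_ncard_of_injOn
    (fun b : Fin 13 => (⟨g * F b, mem_layers hg (by omega)⟩ : layers k F r)) ?_ ?_ (toFinite _)
  · intro b hb
    have hb' : B0 a b = true := by simpa using hb
    change (u : G)⁻¹ * (g * F b) ∈ S
    rw [hu, show (g * F a)⁻¹ * (g * F b) = (F a)⁻¹ * F b by group]
    exact (hP.intra a b).2 hb'
  · intro b _ c _ h
    have h2 : g * F b = g * F c := congrArg Subtype.val h
    have h3 : F b = 1 * F c := by rw [one_mul]; exact mul_left_cancel h2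
    exact Fin.ext (hP.dist _ (by omega) _ (by omega) 1 (Subgroup.one_mem _) h3).1

lemma deg_tail (hP : Pre k F r S lam) {g : G} {m : ℕ} (hg : g ∈ Subgroup.zpowers k)
    (h13 : 13 ≤ m) (hm : m < 13 + r)
    (u : layers k F r) (hu : (u : G) = g * F m) : (Dn S (layers k F r) u).ncard ≤ 7 := by
  refine le_trans ?_ (hP.deg m h13 hm)
  refine ncard_le_ncard_of_injOn (fun w : layers k F r => g⁻¹ * (w : G)) ?_ ?_ (toFinite _)
  · intro w hw
    have hw' : (u : G)⁻¹ * w ∈ S := hw
    refine ⟨?_, ?_⟩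
    · obtain ⟨h, hh, m', hm', he⟩ := w.2
      refine ⟨g⁻¹ * h, Subgroup.mul_mem _ (Subgroup.inv_mem _ hg) hh, m', hm', ?_⟩
      rw [he]; group
    · rw [hu] at hw'
      rw [show (F m)⁻¹ * (g⁻¹ * (w : G)) = (g * F m)⁻¹ * w by group]
      exact hw'
  · intro w _ w' _ h
    exact Subtype.ext (mul_left_cancel h)

/-- core vertices -/
def IsCore (k : G) (F : ℕ → G) (u : G) : Prop :=
  ∃ g ∈ Subgroup.zpowers k, ∃ a : Fin 13, u = g * F a

lemma isCore_iff (hP : Pre k F r S lam) (u : layers k F r) :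
    IsCore k F (u : G) ↔ 8 ≤ (Dn S (layers k F r) u).ncard := by
  constructor
  · rintro ⟨g, hg, a, hu⟩
    exact deg_core hP hg a u hu
  · intro h
    obtain ⟨g, hg, m, hm, hu⟩ := u.2
    by_cases h13 : 13 ≤ m
    · have := deg_tail hP hg h13 hm u hu
      omega
    · exact ⟨g, hg, ⟨m, by omega⟩, hu⟩

/-- common core neighbours -/
def Cm (S T : Set G) (u w : T) : Set T :=
  {x : T | 8 ≤ (Dn S T x).ncard ∧ (u : G)⁻¹ * x ∈ S ∧ (w : G)⁻¹ * x ∈ S}

lemma intra_iff (hP : Pre k F r S lam) {g g' : G} (hg : g ∈ Subgroup.zpowers k)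
    (hg' : g' ∈ Subgroup.zpowers k) (a b : Fin 13) (u w : layers k F r)
    (hu : (u : G) = g * F a) (hw : (w : G) = g' * F b) :
    ((u : G)⁻¹ * w ∈ S ∧ 3 ≤ (Cm S (layers k F r) u w).ncard) ↔ g = g' ∧ B0 a b = true := by
  classical
  constructor
  · rintro ⟨hadj, h3⟩
    by_cases hgg : g = g'
    · subst hgg
      refine ⟨rfl, ?_⟩
      rw [hu, hw, show (g * F a)⁻¹ * (g * F b) = (F a)⁻¹ * F b by group] at hadj
      exact (hP.intra a b).1 hadj
    · exfalso
      -- inter-adjacency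
      have inter : ∀ (x y : G) (c d : Fin 13), x ∈ Subgroup.zpowers k → y ∈ Subgroup.zpowers k →
          x ≠ y → (x * F c)⁻¹ * (y * F d) ∈ S →
          (x * F c)⁻¹ * (y * F d) = lam ∨ (x * F c)⁻¹ * (y * F d) = lam⁻¹ := by
        intro x y c d hx hy hxy h
        have e : (x * F c)⁻¹ * (y * F d) = (F c)⁻¹ * (x⁻¹ * y) * F d := by group
        rw [e] at h ⊢
        refine hP.inter c d _ (Subgroup.mul_mem _ (Subgroup.inv_mem _ hx) hy) ?_ h
        intro h1
        exact hxy (inv_mul_eq_one.1 h1)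
      have hlam : ∃ μ : G, (u : G)⁻¹ * w = μ ∧ (μ = lam ∨ μ = lam⁻¹) := by
        refine ⟨_, rfl, ?_⟩
        rw [hu, hw] at hadj ⊢
        exact inter g g' a b hg hg' hgg hadj
      obtain ⟨μ, hμ, hμ'⟩ := hlam
      have hlam2 : ∀ y : G, (y = lam ∨ y = lam⁻¹) → y = μ ∨ y = μ⁻¹ := by
        intro y hy
        rcases hμ' with rfl | rfl
        · exact hy
        · rw [inv_inv]; exact hy.symm
      have hwu : (w : G) = u * μ := by rw [← hμ]; group
      have hsub : Subtype.val '' (Cm S (layers k F r) u w) ⊆ {(u : G) * μ⁻¹, (w : G) * μ} := by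
        rintro _ ⟨x, ⟨hx8, hux, hwx⟩, rfl⟩
        obtain ⟨g'', hg'', c, hx⟩ := (isCore_iff hP x).2 hx8
        by_cases hc : g = g''
        · -- then `x` is in another copy than `w`
          have hne : g' ≠ g'' := fun h => hgg (hc.trans h.symm)
          have h1 : (w : G)⁻¹ * x = lam ∨ (w : G)⁻¹ * x = lam⁻¹ := by
            rw [hw, hx] at hwx ⊢
            exact inter g' g'' b c hg' hg'' hne hwx
          right
          rcases hlam2 _ h1 with h2 | h2
          · change (x : G) = w * μ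
            rw [← h2]; group
          · exfalso
            have hxu : (x : G) = u := by
              have : (x : G) = w * μ⁻¹ := by rw [← h2]; group
              rw [this, hwu]; group
            rw [hxu, inv_mul_cancel] at hux
            exact hP.one hux
        · have h1 : (u : G)⁻¹ * x = lam ∨ (u : G)⁻¹ * x = lam⁻¹ := by
            rw [hu, hx] at hux ⊢
            exact inter g g'' a c hg hg'' hc hux
          left
          rcases hlam2 _ h1 with h2 | h2
          · exfalso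
            have hxw : (x : G) = w := by
              have : (x : G) = u * μ := by rw [← h2]; group
              rw [this, hwu]
            rw [hxw, inv_mul_cancel] at hwx
            exact hP.one hwx
          · change (x : G) = u * μ⁻¹
            rw [← h2]; group
      have h4 : (Cm S (layers k F r) u w).ncard ≤ 2 := by
        rw [← ncard_image_of_injective _ Subtype.val_injective]
        exact (ncard_le_ncard hsub (toFinite _)).trans
          ((ncard_insert_le _ _).trans (by rw [ncard_singleton]))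
      omega
  · rintro ⟨rfl, hab⟩
    refine ⟨?_, ?_⟩
    · rw [hu, hw, show (g * F a)⁻¹ * (g * F b) = (F a)⁻¹ * F b by group]
      exact (hP.intra a b).2 hab
    · refine (B0_common a b hab).trans ?_
      rw [← ncard_coe_finset]
      refine ncard_le_ncard_of_injOn
        (fun b : Fin 13 => (⟨g * F b, mem_layers hg (by omega)⟩ : layers k F r)) ?_ ?_ (toFinite _)
      · intro c hc
        have hc' : B0 a c = true ∧ B0 b c = true := by simpa using hc
        refine ⟨deg_core hP hg c _ rfl, ?_, ?_⟩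
        · change (u : G)⁻¹ * (g * F c) ∈ S
          rw [hu, show (g * F a)⁻¹ * (g * F c) = (F a)⁻¹ * F c by group]
          exact (hP.intra a c).2 hc'.1
        · change (w : G)⁻¹ * (g * F c) ∈ S
          rw [hw, show (g * F b)⁻¹ * (g * F c) = (F b)⁻¹ * F c by group]
          exact (hP.intra b c).2 hc'.2
      · intro b _ c _ h
        have h2 : g * F b = g * F c := congrArg Subtype.val h
        have h3 : F b = 1 * F c := by rw [one_mul]; exact mul_left_cancel h2
        exact Fin.ext (hP.dist _ (by omega) _ (by omega) 1 (Subgroup.one_mem _) h3).1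

lemma Cm_image {T : Set G} (σ : T → T) (hσ : Function.Bijective σ)
    (hadj : ∀ u w : T, (u : G)⁻¹ * w ∈ S ↔ (σ u : G)⁻¹ * (σ w) ∈ S) (u w : T) :
    (Cm S T (σ u) (σ w)).ncard = (Cm S T u w).ncard := by
  rw [← ncard_image_of_injective (Cm S T u w) hσ.1]
  congr 1
  have hD : ∀ x, (Dn S T (σ x)).ncard = (Dn S T x).ncard := fun x => by
    rw [Dn_image σ hσ hadj, ncard_image_of_injective _ hσ.1]
  ext x
  constructor
  · rintro ⟨h1, h2, h3⟩
    obtain ⟨x', rfl⟩ := hσ.2 x
    exact ⟨x', ⟨by rw [← hD]; exact h1, (hadj _ _).2 h2, (hadj _ _).2 h3⟩, rfl⟩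
  · rintro ⟨x', ⟨h1, h2, h3⟩, rfl⟩
    exact ⟨by rw [hD]; exact h1, (hadj _ _).1 h2, (hadj _ _).1 h3⟩

theorem rigid_of_pre (hP : Pre k F r S lam) (σ : layers k F r → layers k F r)
    (hσ : Function.Bijective σ)
    (hadj : ∀ u w : layers k F r, (u : G)⁻¹ * w ∈ S ↔ (σ u : G)⁻¹ * (σ w) ∈ S) :
    ∃ h ∈ Subgroup.zpowers k, ∀ u : layers k F r, (σ u : G) = h * u := by
  classical
  have hD : ∀ x, (Dn S (layers k F r) (σ x)).ncard = (Dn S (layers k F r) x).ncard := fun x => by
    rw [Dn_image σ hσ hadj, ncard_image_of_injective _ hσ.1]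
  have hcore : ∀ x : layers k F r, IsCore k F (σ x : G) ↔ IsCore k F (x : G) := fun x => by
    rw [isCore_iff hP, isCore_iff hP, hD]
  let pt : (g : G) → g ∈ Subgroup.zpowers k → (m : ℕ) → m < 13 + r → layers k F r :=
    fun g hg m hm => ⟨g * F m, mem_layers hg hm⟩
  -- action on one copy
  have h1 : ∀ g, ∀ hg : g ∈ Subgroup.zpowers k, ∃ g' ∈ Subgroup.zpowers k, ∀ a : Fin 13,
      (σ (pt g hg a (by omega)) : G) = g' * F a := by
    intro g hg
    have h2 : ∀ a : Fin 13, ∃ g' ∈ Subgroup.zpowers k, ∃ b : Fin 13,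
        (σ (pt g hg a (by omega)) : G) = g' * F b := by
      intro a
      exact (hcore _).2 ⟨g, hg, a, rfl⟩
    choose ρ hρ θ hθ using h2
    have h3 : ∀ a b, B0 a b = true → ρ a = ρ b ∧ B0 (θ a) (θ b) = true := by
      intro a b hab
      have h4 := (intra_iff hP hg hg a b (pt g hg a (by omega)) (pt g hg b (by omega)) rfl rfl).2
        ⟨rfl, hab⟩
      refine (intra_iff hP (hρ a) (hρ b) (θ a) (θ b) _ _ (hθ a) (hθ b)).1 ⟨(hadj _ _).1 h4.1, ?_⟩
      rw [Cm_image σ hσ hadj]
      exact h4.2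
    have h5 : ∀ a b, ρ a = ρ b := by
      intro a b
      obtain ⟨c, hc1, hc2⟩ := B0_conn a b
      exact (h3 a c hc1).1.trans (h3 c b hc2).1
    have h6 : Function.Injective θ := by
      intro a b hab
      have h7 : σ (pt g hg a (by omega)) = σ (pt g hg b (by omega)) := by
        apply Subtype.ext
        rw [hθ a, hθ b, hab, h5 a b]
      have h8 : g * F a = g * F b := congrArg Subtype.val (hσ.1 h7)
      have h9 : F a = 1 * F b := by rw [one_mul]; exact mul_left_cancel h8
      exact Fin.ext (hP.dist _ (by omega) _ (by omega) 1 (Subgroup.one_mem _) h9).1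
    have h10 : ∀ a b, B0 a b = B0 (θ a) (θ b) := by
      intro a b
      rw [Bool.eq_iff_iff, ← hP.intra, ← hP.intra]
      have h11 := hadj (pt g hg a (by omega)) (pt g hg b (by omega))
      rw [hθ a, hθ b, h5 a b] at h11
      have e1 : ((pt g hg a (by omega) : layers k F r) : G)⁻¹ * (pt g hg b (by omega)) =
          (F a)⁻¹ * F b := by
        change (g * F a)⁻¹ * (g * F b) = _
        group
      have e2 : (ρ b * F (θ a))⁻¹ * (ρ b * F (θ b)) = (F (θ a))⁻¹ * F (θ b) := by group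
      rw [e1, e2] at h11
      exact h11
    have h12 := B0_rigid θ h6 h10
    refine ⟨ρ 0, hρ 0, fun a => ?_⟩
    rw [hθ a, h12 a, h5 a 0]
  choose! π hπ1 hπ2 using h1
  -- the link
  have hk : k ∈ Subgroup.zpowers k := Subgroup.mem_zpowers k
  have h2 : ∀ g, g ∈ Subgroup.zpowers k → π (g * k) = π g * k := by
    intro g hg
    have hgk : g * k ∈ Subgroup.zpowers k := Subgroup.mul_mem _ hg hk
    have h3 := hadj (pt g hg ((0 : Fin 13) : ℕ) (by omega)) (pt (g * k) hgk ((12 : Fin 13) : ℕ) (by omega))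
    have e1 := hπ2 g hg 0
    have e2 := hπ2 (g * k) hgk 12
    rw [e1, e2] at h3
    have e3 : ((pt g hg ((0 : Fin 13) : ℕ) (by omega) : layers k F r) : G)⁻¹ *
        (pt (g * k) hgk ((12 : Fin 13) : ℕ) (by omega)) = (F 0)⁻¹ * k * F 12 := by
      change (g * F 0)⁻¹ * (g * k * F 12) = _
      group
    have e4 : (π g * F ((0 : Fin 13) : ℕ))⁻¹ * (π (g * k) * F ((12 : Fin 13) : ℕ)) =
        (F 0)⁻¹ * ((π g)⁻¹ * π (g * k)) * F 12 := by
      change (π g * F 0)⁻¹ * (π (g * k) * F 12) = _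
      group
    rw [e3, e4] at h3
    have h4 := h3.1 hP.lamS
    have h5 := hP.link _ (Subgroup.mul_mem _ (Subgroup.inv_mem _ (hπ1 g hg)) (hπ1 _ hgk)) (by
      intro h6
      have h7 : π g = π (g * k) := inv_mul_eq_one.1 h6
      have h8 : σ (pt g hg ((0 : Fin 13) : ℕ) (by omega)) =
          σ (pt (g * k) hgk ((0 : Fin 13) : ℕ) (by omega)) := by
        apply Subtype.ext
        rw [e1, hπ2 (g * k) hgk 0, h7]
      have h9 : g * F 0 = g * k * F 0 := congrArg Subtype.val (hσ.1 h8)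
      have h10 : g = g * k := mul_right_cancel h9
      exact hP.kne (left_eq_mul.1 h10)) h4
    calc π (g * k) = π g * ((π g)⁻¹ * π (g * k)) := by group
      _ = π g * k := by rw [h5]
  have h3 : ∀ g, g ∈ Subgroup.zpowers k → π g = π 1 * g := by
    intro g hg
    rw [← mem_powers_iff_mem_zpowers] at hg
    obtain ⟨n, rfl⟩ := hg
    induction n with
    | zero => simp
    | succ n ih =>
      have : k ^ n ∈ Subgroup.zpowers k := Subgroup.pow_mem _ hk n
      simp only at ih ⊢
      rw [pow_succ, h2 _ this, ih, mul_assoc]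
  have hone : (1 : G) ∈ Subgroup.zpowers k := Subgroup.one_mem _
  refine ⟨π 1, hπ1 1 hone, ?_⟩
  -- all layers
  have key : ∀ m, ∀ hm : m < 13 + r, ∀ g, ∀ hg : g ∈ Subgroup.zpowers k,
      (σ (pt g hg m hm) : G) = π 1 * g * F m := by
    intro m
    induction m using Nat.strong_induction_on with
    | _ m ih =>
      intro hm g hg
      by_cases h13 : m < 13
      · have := hπ2 g hg ⟨m, h13⟩
        rw [h3 g hg] at this
        exact this
      · obtain ⟨n, rfl⟩ : ∃ n, m = n + 1 := ⟨m - 1, by omega⟩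
        have hn := ih n (by omega) (by omega) g hg
        have h4 := (hadj (pt g hg n (by omega)) (pt g hg (n + 1) hm)).1 (by
          change (g * F n)⁻¹ * (g * F (n + 1)) ∈ S
          rw [show (g * F n)⁻¹ * (g * F (n + 1)) = (F n)⁻¹ * F (n + 1) by group]
          exact hP.path n (by omega) hm)
        rw [hn] at h4
        obtain ⟨g', hg', m', hm', he⟩ := (σ (pt g hg (n + 1) hm)).2
        rw [he] at h4 ⊢
        by_cases hlt : n < m'
        · have h5 := hP.tail n m' (by omega) hlt hm' ((π 1 * g)⁻¹ * g')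
            (Subgroup.mul_mem _ (Subgroup.inv_mem _ (Subgroup.mul_mem _ (hπ1 1 hone) hg)) hg')
            (by
              rw [show (F n)⁻¹ * ((π 1 * g)⁻¹ * g') * F m' = (π 1 * g * F n)⁻¹ * (g' * F m') by
                group]
              exact h4)
          obtain ⟨rfl, h6⟩ := h5
          rw [inv_mul_eq_one.1 h6]
        · exfalso
          have hg2 : (π 1)⁻¹ * g' ∈ Subgroup.zpowers k :=
            Subgroup.mul_mem _ (Subgroup.inv_mem _ (hπ1 1 hone)) hg'
          have h5 := ih m' (by omega) hm' ((π 1)⁻¹ * g') hg2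
          have h6 : σ (pt ((π 1)⁻¹ * g') hg2 m' hm') = σ (pt g hg (n + 1) hm) := by
            apply Subtype.ext
            rw [h5, he]; group
          have h7 : (π 1)⁻¹ * g' * F m' = g * F (n + 1) := congrArg Subtype.val (hσ.1 h6)
          have h8 : F (n + 1) = (g⁻¹ * ((π 1)⁻¹ * g')) * F m' := by
            rw [mul_assoc, h7]; group
          have h9 := (hP.dist (n + 1) hm m' hm' _
            (Subgroup.mul_mem _ (Subgroup.inv_mem _ hg) hg2) h8).1
          omega
  intro u
  obtain ⟨g, hg, m, hm, he⟩ := u.2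
  have h4 := key m hm g hg
  have h5 : pt g hg m hm = u := Subtype.ext he.symm
  rw [h5] at h4
  rw [h4, he]
  group

end

end Pool.Agent.LibSmallGraph
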