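import Mathlib
import Pool.Agent.LibSmallGraph.RigidT

set_option linter.unusedSectionVars false

namespace Pool.Agent.LibSmallGraph

open Set

variable {G : Type} [Group G]

/-- `v c * v (c+1) * ... * v (c+n-1)` -/
def seg (v : ℕ → G) (c : ℕ) : ℕ → G
  | 0 => 1
  | n + 1 => seg v c n * v (c + n)

lemma seg_succ' (v : ℕ → G) (c n : ℕ) : seg v c (n + 1) = v c * seg v (c + 1) n := by
  induction n generalizing c with
  | zero => simp [seg]
  | succ n ih =>
    rw [seg, ih, seg, mul_assoc]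
    congr 3
    omega

lemma seg_add (v : ℕ → G) (c n : ℕ) : seg v 0 (c + n) = seg v 0 c * seg v c n := by
  induction n with
  | zero => simp [seg]
  | succ n ih => rw [← add_assoc, seg, ih, seg, mul_assoc, zero_add]

/-- the points representing the layers -/
def Fs (f v : ℕ → G) (m : ℕ) : G := if m < 13 then f m else f 12 * seg v 0 (m - 12)

lemma Fs_core (f v : ℕ → G) {m : ℕ} (hm : m < 13) : Fs f v m = f m := by
  unfold Fs; rw [if_pos hm]

lemma Fs_tail (f v : ℕ → G) {m : ℕ} (hm : 12 ≤ m) : Fs f v m = f 12 * seg v 0 (m - 12) := by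
  unfold Fs
  split_ifs with h
  · have : m = 12 := by omega
    subst this
    simp [seg]
  · rfl

def lamOf (k : G) (f : ℕ → G) : G := (f 0)⁻¹ * k * f 12

def SB (f : ℕ → G) : Set G := {s | ∃ a b : Fin 13, B0 a b = true ∧ s = (f a)⁻¹ * f b}

def Sset (k : G) (f v : ℕ → G) (r : ℕ) : Set G :=
  {s | s ∈ SB f ∨ (s = lamOf k f ∨ s = (lamOf k f)⁻¹) ∨ ∃ c, c < r ∧ (s = v c ∨ s = (v c)⁻¹)}

/-- subgroup generated by the core and some tail elements -/
def gens (k : G) (f v : ℕ → G) (P : ℕ → Prop) : Subgroup G :=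
  Subgroup.closure {x | x = k ∨ (∃ a : Fin 13, x = f a) ∨ ∃ c, P c ∧ x = v c}

section
variable {k : G} {f v : ℕ → G} {r : ℕ}

lemma gens_mono {P Q : ℕ → Prop} (h : ∀ c, P c → Q c) : gens k f v P ≤ gens k f v Q := by
  apply Subgroup.closure_mono
  rintro x (hx | hx | ⟨c, hc, hx⟩)
  · exact Or.inl hx
  · exact Or.inr (Or.inl hx)
  · exact Or.inr (Or.inr ⟨c, h c hc, hx⟩)

lemma k_mem_gens {P : ℕ → Prop} : k ∈ gens k f v P := Subgroup.subset_closure (Or.inl rfl)

lemma zp_mem_gens {P : ℕ → Prop} {h : G} (hh : h ∈ Subgroup.zpowers k) : h ∈ gens k f v P := by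
  have : Subgroup.zpowers k ≤ gens k f v P := by
    rw [Subgroup.zpowers_le]
    exact k_mem_gens
  exact this hh

lemma f_mem_gens {P : ℕ → Prop} {a : ℕ} (ha : a < 13) : f a ∈ gens k f v P :=
  Subgroup.subset_closure (Or.inr (Or.inl ⟨⟨a, ha⟩, rfl⟩))

lemma v_mem_gens {P : ℕ → Prop} {c : ℕ} (hc : P c) : v c ∈ gens k f v P :=
  Subgroup.subset_closure (Or.inr (Or.inr ⟨c, hc, rfl⟩))

lemma seg_mem_gens {P : ℕ → Prop} {c n : ℕ} (h : ∀ d, c ≤ d → d < c + n → P d) :
    seg v c n ∈ gens k f v P := by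
  induction n with
  | zero => exact Subgroup.one_mem _
  | succ n ih =>
    rw [seg]
    exact Subgroup.mul_mem _ (ih (fun d h1 h2 => h d h1 (by omega)))
      (v_mem_gens (h _ (by omega) (by omega)))

/-- Conditions on the core. -/
structure CoreOK (k : G) (f : ℕ → G) : Prop where
  kne : k ≠ 1
  f0 : f 0 = 1
  c0 : ∀ a < 13, ∀ b < 13, ∀ h ∈ Subgroup.zpowers k, f a = h * f b → a = b ∧ h = 1
  c1 : ∀ a b c d : Fin 13, B0 c d = true → ∀ h ∈ Subgroup.zpowers k,
    (f a)⁻¹ * h * f b = (f c)⁻¹ * f d → h = 1 ∧ B0 a b = true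
  c2 : ∀ a b : Fin 13, (f a)⁻¹ * f b ≠ lamOf k f
  c3 : ∀ h ∈ Subgroup.zpowers k, h ≠ 1 → (f 0)⁻¹ * h * f 12 = (lamOf k f)⁻¹ → h = k

/-- Conditions on the tail. -/
structure TailOK (k : G) (f v : ℕ → G) (r : ℕ) : Prop where
  t1 : ∀ c < r, v c ∉ gens k f v (fun d => d < r ∧ d ≠ c)
  t2 : gens k f v (fun d => d < r) = ⊤
  t3 : ∀ c < r, ∀ h ∈ Subgroup.zpowers k, h ≠ 1 →
    (f 12 * seg v 0 c)⁻¹ * h * (f 12 * seg v 0 c) * v c ≠ (v c)⁻¹
  rung : ∀ c, 1 ≤ c → c ≤ r → {s | s ∈ Sset k f v r ∧ ∃ h ∈ Subgroup.zpowers k,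
    h ≠ 1 ∧ s = (f 12 * seg v 0 c)⁻¹ * h * (f 12 * seg v 0 c)}.ncard ≤ 4

lemma SB_mem {P : ℕ → Prop} {s : G} (hs : s ∈ SB f) : s ∈ gens k f v P := by
  obtain ⟨a, b, _, rfl⟩ := hs
  exact Subgroup.mul_mem _ (Subgroup.inv_mem _ (f_mem_gens a.2)) (f_mem_gens b.2)

lemma lam_mem {P : ℕ → Prop} : lamOf k f ∈ gens k f v P :=
  Subgroup.mul_mem _ (Subgroup.mul_mem _ (Subgroup.inv_mem _ (f_mem_gens (by norm_num)))
    k_mem_gens) (f_mem_gens (by norm_num))

lemma D_mem_cases (hT : TailOK k f v r) {s : G} (hs : s ∈ Sset k f v r)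
    (hD : s ∈ gens k f v (fun _ => False)) : s ∈ SB f ∨ s = lamOf k f ∨ s = (lamOf k f)⁻¹ := by
  rcases hs with hs | hs | ⟨c, hc, hs⟩
  · exact Or.inl hs
  · exact Or.inr hs
  · exfalso
    have h1 : v c ∈ gens k f v (fun _ => False) := by
      rcases hs with rfl | rfl
      · exact hD
      · exact (Subgroup.inv_mem_iff _).1 hD
    exact hT.t1 c hc (gens_mono (fun _ h => h.elim) h1)

lemma word0 (hT : TailOK k f v r) {c n : ℕ} (hn : 1 ≤ n) (hc : c + n ≤ r) {e : G}
    (he : e ∈ gens k f v (fun d => d < c)) (P : G)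
    (hP : P ∈ gens k f v (fun d => d < r ∧ d ≠ c + n - 1)) : e * seg v c n ≠ P := by
  intro h
  obtain ⟨n, rfl⟩ : ∃ m, n = m + 1 := ⟨n - 1, by omega⟩
  have e1 : c + (n + 1) - 1 = c + n := by omega
  rw [e1] at hP
  rw [seg] at h
  have h2 : v (c + n) = (e * seg v c n)⁻¹ * P := by rw [← h]; group
  apply hT.t1 (c + n) (by omega)
  rw [h2]
  refine Subgroup.mul_mem _ (Subgroup.inv_mem _ (Subgroup.mul_mem _ ?_ ?_)) hP
  · exact gens_mono (fun d hd => ⟨by omega, by omega⟩) he
  · exact seg_mem_gens (fun d h1 h2 => ⟨by omega, by omega⟩)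

lemma word1 (hT : TailOK k f v r) {c n : ℕ} (hn : 1 ≤ n) (hc : c + n ≤ r) {e : G}
    (he : e ∈ gens k f v (fun d => d < c)) (hS : e * seg v c n ∈ Sset k f v r) :
    n = 1 ∧ (e * v c = v c ∨ e * v c = (v c)⁻¹) := by
  rcases hS with hs | hs | ⟨j, hj, hs⟩
  · exact absurd rfl (word0 hT hn hc he _ (SB_mem hs))
  · exfalso
    refine word0 hT hn hc he _ ?_ rfl
    rcases hs with hs | hs
    · rw [hs]; exact lam_mem
    · rw [hs]; exact Subgroup.inv_mem _ lam_mem
  · have hj2 : j = c + n - 1 := by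
      by_contra hne
      refine word0 hT hn hc he _ ?_ rfl
      rcases hs with hs | hs
      · rw [hs]; exact v_mem_gens ⟨hj, hne⟩
      · rw [hs]; exact Subgroup.inv_mem _ (v_mem_gens ⟨hj, hne⟩)
    have hn1 : n = 1 := by
      by_contra hne
      obtain ⟨n, rfl⟩ : ∃ m, n = m + 1 := ⟨n - 1, by omega⟩
      have h2 : v c = e⁻¹ * (e * seg v c (n + 1)) * (seg v (c + 1) n)⁻¹ := by
        rw [seg_succ']; group
      apply hT.t1 c (by omega)
      rw [h2]
      refine Subgroup.mul_mem _ (Subgroup.mul_mem _ (Subgroup.inv_mem _ ?_) ?_)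
        (Subgroup.inv_mem _ ?_)
      · exact gens_mono (fun d hd => ⟨by omega, by omega⟩) he
      · rcases hs with hs | hs
        · rw [hs]; exact v_mem_gens ⟨hj, by omega⟩
        · rw [hs]; exact Subgroup.inv_mem _ (v_mem_gens ⟨hj, by omega⟩)
      · exact seg_mem_gens (fun d h1 h2 => ⟨by omega, by omega⟩)
    subst hn1
    have hjc : j = c := by omega
    subst hjc
    have e2 : seg v j 1 = v j := by simp [seg]
    rw [e2] at hs
    exact ⟨rfl, hs⟩

/-- the point `F m` for `m = 12 + c` -/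
lemma Fs12 (f v : ℕ → G) (c : ℕ) : Fs f v (12 + c) = f 12 * seg v 0 c := by
  rw [Fs_tail _ _ (by omega)]
  congr 2
  omega

lemma Fs_mem_gens {P : ℕ → Prop} {m : ℕ} (h : ∀ d, d + 12 < m → P d) :
    Fs f v m ∈ gens k f v P := by
  by_cases hm : m < 13
  · rw [Fs_core _ _ hm]; exact f_mem_gens hm
  · rw [Fs_tail _ _ (by omega)]
    exact Subgroup.mul_mem _ (f_mem_gens (by norm_num))
      (seg_mem_gens (fun d _ h2 => h d (by omega)))

/-- decomposition of words ending in the tail -/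
lemma word_tail {m m' : ℕ} (hm : 12 ≤ m) (hmm : m ≤ m') (h : G) :
    (Fs f v m)⁻¹ * h * Fs f v m' =
      ((Fs f v m)⁻¹ * h * Fs f v m) * seg v (m - 12) (m' - m) := by
  rw [Fs_tail f v hm, Fs_tail f v (hm.trans hmm),
    show m' - 12 = (m - 12) + (m' - m) by omega, seg_add]
  group

lemma word_core {a m' : ℕ} (ha : a < 13) (hm : 12 ≤ m') (h : G) :
    (Fs f v a)⁻¹ * h * Fs f v m' = ((f a)⁻¹ * h * f 12) * seg v 0 (m' - 12) := by
  rw [Fs_core f v ha, Fs_tail f v hm]
  group

lemma Sset_symm {s : G} (hs : s ∈ Sset k f v r) : s⁻¹ ∈ Sset k f v r := by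
  rcases hs with ⟨a, b, hab, rfl⟩ | hs | ⟨c, hc, hs⟩
  · left
    exact ⟨b, a, by rw [B0_symm]; exact hab, by group⟩
  · right; left
    rcases hs with rfl | rfl
    · right; rfl
    · left; rw [inv_inv]
  · right; right
    refine ⟨c, hc, ?_⟩
    rcases hs with rfl | rfl
    · right; rfl
    · left; rw [inv_inv]

lemma one_mem_zp : (1 : G) ∈ Subgroup.zpowers k := Subgroup.one_mem _

theorem pre_of_ok [Finite G] (hC : CoreOK k f) (hT : TailOK k f v r) :
    Pre k (Fs f v) r (Sset k f v r) (lamOf k f) := by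
  have hcD : ∀ (a b : Fin 13) (h : G), h ∈ Subgroup.zpowers k →
      (Fs f v a)⁻¹ * h * Fs f v b ∈ gens k f v (fun _ => False) := by
    intro a b h hh
    exact Subgroup.mul_mem _ (Subgroup.mul_mem _ (Subgroup.inv_mem _
      (Fs_mem_gens (fun d hd => by omega))) (zp_mem_gens hh)) (Fs_mem_gens (fun d hd => by omega))
  have hc2' : ∀ a b : Fin 13, (f a)⁻¹ * f b ≠ (lamOf k f)⁻¹ := by
    intro a b h
    apply hC.c2 b a
    rw [← inv_inv (lamOf k f), ← h]
    group
  have htail : ∀ m m', 12 ≤ m → m < m' → m' < 13 + r → ∀ h ∈ Subgroup.zpowers k,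
      (Fs f v m)⁻¹ * h * Fs f v m' ∈ Sset k f v r → m' = m + 1 ∧ h = 1 := by
    intro m m' h12 hlt hm' h hh hS
    rw [word_tail h12 hlt.le] at hS
    have he : (Fs f v m)⁻¹ * h * Fs f v m ∈ gens k f v (fun d => d < m - 12) :=
      Subgroup.mul_mem _ (Subgroup.mul_mem _ (Subgroup.inv_mem _
        (Fs_mem_gens (fun d hd => by omega))) (zp_mem_gens hh)) (Fs_mem_gens (fun d hd => by omega))
    obtain ⟨h1, h2⟩ := word1 hT (by omega) (by omega) he hS
    refine ⟨by omega, ?_⟩
    rcases h2 with h2 | h2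
    · have h3 : (Fs f v m)⁻¹ * h * Fs f v m = 1 := mul_eq_right.1 h2
      have h4 : h = Fs f v m * ((Fs f v m)⁻¹ * h * Fs f v m) * (Fs f v m)⁻¹ := by group
      rw [h4, h3]; group
    · by_contra hne
      refine hT.t3 (m - 12) (by omega) h hh hne ?_
      rw [← Fs_tail f v h12]
      exact h2
  have hcore : ∀ a m, a < 13 → 13 ≤ m → m < 13 + r → ∀ h ∈ Subgroup.zpowers k,
      (Fs f v a)⁻¹ * h * Fs f v m ∈ Sset k f v r → m = 13 ∧
        ((Fs f v a)⁻¹ * h * Fs f v m = v 0 ∨ (Fs f v a)⁻¹ * h * Fs f v m = (v 0)⁻¹) := by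
    intro a m ha h13 hm h hh hS
    rw [word_core ha (by omega)] at hS ⊢
    have he : (f a)⁻¹ * h * f 12 ∈ gens k f v (fun d => d < 0) :=
      Subgroup.mul_mem _ (Subgroup.mul_mem _ (Subgroup.inv_mem _ (f_mem_gens ha)) (zp_mem_gens hh))
        (f_mem_gens (by norm_num))
    obtain ⟨h1, h2⟩ := word1 hT (by omega) (by omega) he hS
    rw [h1]
    refine ⟨by omega, ?_⟩
    have e2 : seg v 0 1 = v 0 := by simp [seg]
    rw [e2]
    exact h2
  have hone : (1 : G) ∉ Sset k f v r := by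
    rintro (⟨a, b, hab, h⟩ | h | ⟨c, hc, h⟩)
    · have h1 : f a = 1 * f b := by rw [one_mul]; exact inv_mul_eq_one.1 h.symm
      have h2 := (hC.c0 a a.2 b b.2 1 one_mem_zp h1).1
      have h3 : a = b := Fin.ext h2
      subst h3
      rw [B0_irrefl] at hab
      cases hab
    · have h1 : lamOf k f = 1 := by
        rcases h with h | h
        · exact h.symm
        · exact inv_eq_one.1 h.symm
      apply hC.c2 0 0
      rw [h1]; group
    · have h1 : v c = 1 := by
        rcases h with h | h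
        · exact h.symm
        · exact inv_eq_one.1 h.symm
      apply hT.t1 c hc
      rw [h1]
      exact Subgroup.one_mem _
  have hinter : ∀ a b : Fin 13, ∀ h ∈ Subgroup.zpowers k, h ≠ 1 →
      (Fs f v a)⁻¹ * h * Fs f v b ∈ Sset k f v r →
      (Fs f v a)⁻¹ * h * Fs f v b = lamOf k f ∨ (Fs f v a)⁻¹ * h * Fs f v b = (lamOf k f)⁻¹ := by
    intro a b h hh hne hS
    rcases D_mem_cases hT hS (hcD a b h hh) with ⟨c, d, hcd, h1⟩ | h1
    · exfalso
      rw [Fs_core _ _ a.2, Fs_core _ _ b.2] at h1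
      exact hne (hC.c1 a b c d hcd h hh h1).1
    · exact h1
  refine ⟨fun s => Sset_symm, hone, hC.kne, ?_, ?_, hinter, ?_, ?_, ?_, htail, ?_⟩
  · -- dist
    have aux : ∀ m m', m < m' → m' < 13 + r → ∀ h ∈ Subgroup.zpowers k,
        Fs f v m = h * Fs f v m' → m = m' ∧ h = 1 := by
      intro m m' hlt hm' h hh he
      have h1 : (Fs f v m)⁻¹ * h * Fs f v m' = 1 := by
        rw [mul_assoc, ← he]; group
      by_cases h13 : m' < 13
      · rw [Fs_core _ _ h13, Fs_core _ _ (by omega : m < 13)] at he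
        exact hC.c0 m (by omega) m' h13 h hh he
      · exfalso
        by_cases h12 : 12 ≤ m
        · rw [word_tail h12 hlt.le] at h1
          refine word0 hT (by omega) (by omega) ?_ _ (Subgroup.one_mem _) h1
          exact Subgroup.mul_mem _ (Subgroup.mul_mem _ (Subgroup.inv_mem _
            (Fs_mem_gens (fun d hd => by omega))) (zp_mem_gens hh))
            (Fs_mem_gens (fun d hd => by omega))
        · rw [word_core (by omega) (by omega)] at h1
          refine word0 hT (c := 0) (by omega) (by omega) ?_ _ (Subgroup.one_mem _) h1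
          exact Subgroup.mul_mem _ (Subgroup.mul_mem _ (Subgroup.inv_mem _
            (f_mem_gens (by omega))) (zp_mem_gens hh)) (f_mem_gens (by norm_num))
    intro m hm m' hm' h hh he
    rcases lt_trichotomy m m' with hlt | heq | hgt
    · exact aux m m' hlt hm' h hh he
    · subst heq
      exact ⟨rfl, (right_eq_mul.1 he)⟩
    · have h1 : Fs f v m' = h⁻¹ * Fs f v m := by rw [he]; group
      obtain ⟨h2, h3⟩ := aux m' m hgt hm h⁻¹ (Subgroup.inv_mem _ hh) h1
      exact ⟨h2.symm, inv_eq_one.1 h3⟩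
  · -- intra
    intro a b
    rw [Fs_core _ _ a.2, Fs_core _ _ b.2]
    constructor
    · intro hS
      have hD : (f a)⁻¹ * f b ∈ gens k f v (fun _ => False) :=
        Subgroup.mul_mem _ (Subgroup.inv_mem _ (f_mem_gens a.2)) (f_mem_gens b.2)
      rcases D_mem_cases hT hS hD with ⟨c, d, hcd, h1⟩ | h1 | h1
      · have h2 : (f a)⁻¹ * 1 * f b = (f c)⁻¹ * f d := by rw [mul_one]; exact h1
        exact (hC.c1 a b c d hcd 1 one_mem_zp h2).2
      · exact absurd h1 (hC.c2 a b)
      · exact absurd h1 (hc2' a b)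
    · intro hab
      exact Or.inl ⟨a, b, hab, rfl⟩
  · -- lamS
    rw [Fs_core _ _ (by norm_num), Fs_core _ _ (by norm_num)]
    exact Or.inr (Or.inl (Or.inl rfl))
  · -- link
    intro h hh hne hS
    have h1 := hinter 0 12 h hh hne hS
    have e : (Fs f v ((0 : Fin 13) : ℕ))⁻¹ * h * Fs f v ((12 : Fin 13) : ℕ) =
        (f 0)⁻¹ * h * f 12 := by
      change (Fs f v 0)⁻¹ * h * Fs f v 12 = _
      rw [Fs_core _ _ (by norm_num), Fs_core _ _ (by norm_num)]
    rw [e] at h1
    rcases h1 with h1 | h1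
    · unfold lamOf at h1
      exact mul_left_cancel (mul_right_cancel h1)
    · exact hC.c3 h hh hne h1
  · -- path
    intro m h12 hm
    right; right
    refine ⟨m - 12, by omega, Or.inl ?_⟩
    have := word_tail (f := f) (v := v) h12 (Nat.le_succ m) 1
    rw [mul_one] at this
    rw [this, show m + 1 - m = 1 by omega]
    simp [seg]
  · -- degrees
    intro m h13 hm
    have h12 : 12 ≤ m := by omega
    have hsub : (fun w : G => (Fs f v m)⁻¹ * w) ''
        {w | w ∈ layers k (Fs f v) r ∧ (Fs f v m)⁻¹ * w ∈ Sset k f v r} ⊆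
        {v (m - 13), (v (m - 13))⁻¹, v (m - 12)} ∪
        {s | s ∈ Sset k f v r ∧ ∃ h ∈ Subgroup.zpowers k,
          h ≠ 1 ∧ s = (f 12 * seg v 0 (m - 12))⁻¹ * h * (f 12 * seg v 0 (m - 12))} := by
      rintro _ ⟨w, ⟨⟨h, hh, m', hm', rfl⟩, hS⟩, rfl⟩
      simp only
      have hS' : (Fs f v m)⁻¹ * h * Fs f v m' ∈ Sset k f v r := by
        rw [mul_assoc]; exact hS
      have hSi : (Fs f v m')⁻¹ * h⁻¹ * Fs f v m ∈ Sset k f v r := by
        have := Sset_symm hS'
        rw [show ((Fs f v m)⁻¹ * h * Fs f v m')⁻¹ = (Fs f v m')⁻¹ * h⁻¹ * Fs f v m by group] at this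
        exact this
      rcases lt_trichotomy m' m with hlt | heq | hgt
      · left
        by_cases h12' : 12 ≤ m'
        · obtain ⟨h1, h2⟩ := htail m' m h12' hlt hm h⁻¹ (Subgroup.inv_mem _ hh) hSi
          have h3 : h = 1 := inv_eq_one.1 h2
          subst h3
          right; left
          have := word_tail (f := f) (v := v) h12' hlt.le 1
          rw [h1, show m' + 1 - m' = 1 by omega, mul_one] at this
          have e3 : seg v (m' - 12) 1 = v (m' - 12) := by simp [seg]
          rw [e3] at this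
          rw [h1, show m' + 1 - 13 = m' - 12 by omega, one_mul]
          have e4 : (Fs f v (m' + 1))⁻¹ * Fs f v m' = ((Fs f v m')⁻¹ * Fs f v (m' + 1))⁻¹ := by
            group
          rw [e4, this]; group
        · obtain ⟨h1, h2⟩ := hcore m' m (by omega) h13 hm h⁻¹ (Subgroup.inv_mem _ hh) hSi
          subst h1
          have e4 : (Fs f v 13)⁻¹ * (h * Fs f v m') = ((Fs f v m')⁻¹ * h⁻¹ * Fs f v 13)⁻¹ := by
            group
          rw [e4]
          rcases h2 with h2 | h2
          · right; left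
            rw [h2]
          · left
            rw [h2, inv_inv]
      · right
        subst heq
        refine ⟨hS, h, hh, ?_, ?_⟩
        · rintro rfl
          rw [one_mul, inv_mul_cancel] at hS
          exact hone hS
        · rw [← Fs_tail f v h12, mul_assoc]
      · left
        obtain ⟨h1, h2⟩ := htail m m' h12 hgt hm' h hh hS'
        subst h1 h2
        right; right
        have := word_tail (f := f) (v := v) h12 hgt.le 1
        rw [mul_one, show m + 1 - m = 1 by omega] at this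
        rw [one_mul, this]
        change _ = _
        simp [seg]
    have h1 := hT.rung (m - 12) (by omega) (by omega)
    rw [← ncard_image_of_injective _ (mul_right_injective (Fs f v m)⁻¹)]
    refine (ncard_le_ncard hsub (toFinite _)).trans ((ncard_union_le _ _).trans ?_)
    have h2 : ({v (m - 13), (v (m - 13))⁻¹, v (m - 12)} : Set G).ncard ≤ 3 := by
      refine (ncard_insert_le _ _).trans ?_
      have := (ncard_insert_le ((v (m - 13))⁻¹) ({v (m - 12)} : Set G))
      rw [ncard_singleton] at this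
      omega
    omega

end

end Pool.Agent.LibSmallGraph
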