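import Mathlib

set_option linter.unusedSectionVars false

namespace Pool.Agent.LibSmallGraph

open Set

lemma closure_comm {G : Type} [Group G] (s : Set G) (hs : ∀ a ∈ s, ∀ b ∈ s, a * b = b * a) :
    ∀ x ∈ Subgroup.closure s, ∀ y ∈ Subgroup.closure s, x * y = y * x := by
  have h1 : Subgroup.closure s ≤ Subgroup.centralizer s := by
    rw [Subgroup.closure_le]
    intro a ha
    rw [SetLike.mem_coe, Subgroup.mem_centralizer_iff]
    intro b hb
    exact hs b hb a ha
  have h2 : Subgroup.closure s ≤ Subgroup.centralizer (Subgroup.closure s : Set G) := by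
    rw [Subgroup.centralizer_closure]
    exact h1
  intro x hx y hy
  exact (Subgroup.mem_centralizer_iff.1 (h2 hx) y hy).symm

lemma exists_self_centralizing {R : Type} [Group R] [Finite R] {p : ℕ} [Fact p.Prime]
    (hR : IsPGroup p R) : ∃ A : Subgroup R, A.Normal ∧ (∀ x ∈ A, ∀ y ∈ A, x * y = y * x) ∧
      Subgroup.centralizer (A : Set R) ≤ A := by
  classical
  have hne : {A : Subgroup R | A.Normal ∧ ∀ x ∈ A, ∀ y ∈ A, x * y = y * x}.Nonempty := by
    refine ⟨⊥, inferInstance, ?_⟩
    intro x hx y hy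
    rw [Subgroup.mem_bot.1 hx, Subgroup.mem_bot.1 hy]
  obtain ⟨A, hA⟩ := Set.Finite.exists_maximal (toFinite _) hne
  refine ⟨A, hA.prop.1, hA.prop.2, ?_⟩
  by_contra hcon
  have hnil : Group.IsNilpotent R := hR.isNilpotent
  obtain ⟨n, hn⟩ := hnil.nilpotent
  have hex : ∃ i, ∃ x, x ∈ Subgroup.centralizer (A : Set R) ∧
      x ∈ Subgroup.upperCentralSeries R i ∧ x ∉ A := by
    obtain ⟨x, hx, hxA⟩ := SetLike.not_le_iff_exists.1 hcon
    exact ⟨n, x, hx, by rw [hn]; trivial, hxA⟩
  obtain ⟨x, hxC, hxZ, hxA⟩ := Nat.find_spec hex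
  have hAn := hA.prop.1
  have hCn : (Subgroup.centralizer (A : Set R)).Normal := inferInstance
  rcases hi : Nat.find hex with _ | i
  · rw [hi, Subgroup.upperCentralSeries_zero, Subgroup.mem_bot] at hxZ
    exact hxA (hxZ ▸ A.one_mem)
  · rw [hi, Subgroup.mem_upperCentralSeries_succ_iff] at hxZ
    have hcomm : ∀ y, x * y * x⁻¹ * y⁻¹ ∈ A := by
      intro y
      by_contra hnot
      refine Nat.find_min hex (m := i) (by omega) ⟨_, ?_, hxZ y, hnot⟩
      have h1 : y * x⁻¹ * y⁻¹ ∈ Subgroup.centralizer (A : Set R) :=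
        hCn.conj_mem _ (Subgroup.inv_mem _ hxC) y
      have h2 := Subgroup.mul_mem _ hxC h1
      rwa [← mul_assoc, ← mul_assoc] at h2
    have hle : A ≤ Subgroup.closure (insert x (A : Set R)) := fun a ha =>
      Subgroup.subset_closure (mem_insert_of_mem _ ha)
    have hxm : x ∈ Subgroup.closure (insert x (A : Set R)) :=
      Subgroup.subset_closure (mem_insert _ _)
    have hnorm : (Subgroup.closure (insert x (A : Set R))).Normal := by
      refine ⟨fun a ha g => ?_⟩
      induction ha using Subgroup.closure_induction with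
      | mem a ha =>
        rcases ha with rfl | ha
        · have h1 := Subgroup.mul_mem _ (Subgroup.inv_mem _ hxm) (hle (hcomm g))
          have h2 := Subgroup.inv_mem _ h1
          have h3 : (a⁻¹ * (a * g * a⁻¹ * g⁻¹))⁻¹ = g * a * g⁻¹ := by group
          rwa [h3] at h2
        · exact hle (hAn.conj_mem a ha g)
      | one => rw [mul_one, mul_inv_cancel]; exact Subgroup.one_mem _
      | mul a b _ _ ha hb =>
        have := Subgroup.mul_mem _ ha hb
        rwa [show g * a * g⁻¹ * (g * b * g⁻¹) = g * (a * b) * g⁻¹ by group] at this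
      | inv a _ ha =>
        have := Subgroup.inv_mem _ ha
        rwa [show (g * a * g⁻¹)⁻¹ = g * a⁻¹ * g⁻¹ by group] at this
    have hcom : ∀ a ∈ Subgroup.closure (insert x (A : Set R)),
        ∀ b ∈ Subgroup.closure (insert x (A : Set R)), a * b = b * a := by
      apply closure_comm
      rintro a (rfl | ha) b (rfl | hb)
      · rfl
      · exact (Subgroup.mem_centralizer_iff.1 hxC b hb).symm
      · exact Subgroup.mem_centralizer_iff.1 hxC a ha
      · exact hA.prop.2 a ha b hb
    have hmax := hA.le_of_ge (y := Subgroup.closure (insert x (A : Set R))) ⟨hnorm, hcom⟩ hle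
    exact hxA (hmax hxm)

lemma pgroup_bound {R : Type} [Group R] [Finite R] {p : ℕ} [Fact p.Prime]
    (hR : IsPGroup p R) : ∃ A : Subgroup R, (∀ x ∈ A, ∀ y ∈ A, x * y = y * x) ∧
      Nat.card R ≤ Nat.card A * (Nat.card A).factorial := by
  obtain ⟨A, hn, hc, hcen⟩ := exists_self_centralizing hR
  refine ⟨A, hc, ?_⟩
  let φ : R →* MulAut A := MulAut.conjNormal
  have hker : φ.ker ≤ A := by
    intro g hg
    apply hcen
    rw [Subgroup.mem_centralizer_iff]
    intro a ha
    have h1 : φ g ⟨a, ha⟩ = ⟨a, ha⟩ := by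
      rw [MonoidHom.mem_ker.1 hg]; rfl
    have h2 : g * a * g⁻¹ = a := by
      have := congrArg Subtype.val h1
      rwa [MulAut.conjNormal_apply] at this
    calc a * g = g * a * g⁻¹ * g := by rw [h2]
      _ = g * a := by group
  have h1 : Nat.card (R ⧸ φ.ker) ≤ (Nat.card A).factorial := by
    refine (Nat.card_le_card_of_injective _ (QuotientGroup.kerLift_injective φ)).trans ?_
    rw [← Nat.card_perm]
    exact Nat.card_le_card_of_injective (fun e : MulAut A => e.toEquiv)
      (fun a b h => MulEquiv.toEquiv_injective h)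
  rw [Subgroup.card_eq_card_quotient_mul_card_subgroup φ.ker, mul_comm]
  exact Nat.mul_le_mul (Subgroup.card_le_of_le hker) h1

/-- Every large finite group has a large abelian subgroup of prime power order. -/
theorem exists_big_abelian (K : ℕ) : ∃ N : ℕ, ∀ (G : Type) [Group G] [Finite G],
    N ≤ Nat.card G → ∃ q : ℕ, q.Prime ∧ ∃ A : Subgroup G, IsPGroup q A ∧
      (∀ x ∈ A, ∀ y ∈ A, x * y = y * x) ∧ K ≤ Nat.card A := by
  classical
  refine ⟨(K * K.factorial + 1) ^ K + 1, ?_⟩
  intro G _ _ hN
  by_contra hcon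
  push Not at hcon
  have hpr : ∀ q ∈ (Nat.card G).primeFactors, q < K := by
    intro q hq
    have hq1 := Nat.prime_of_mem_primeFactors hq
    have : Fact q.Prime := ⟨hq1⟩
    obtain ⟨x, hx⟩ := exists_prime_orderOf_dvd_card' q (Nat.dvd_of_mem_primeFactors hq)
    have h1 := hcon q hq1 (Subgroup.zpowers x)
      (IsPGroup.of_card (n := 1) (by rw [Nat.card_zpowers, hx, pow_one]))
      (by
        intro a ha b hb
        obtain ⟨i, rfl⟩ := Subgroup.mem_zpowers_iff.1 ha
        obtain ⟨j, rfl⟩ := Subgroup.mem_zpowers_iff.1 hb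
        rw [← zpow_add, ← zpow_add, add_comm])
    rwa [Nat.card_zpowers, hx] at h1
  have hsy : ∀ q ∈ (Nat.card G).primeFactors,
      q ^ (Nat.card G).factorization q ≤ K * K.factorial + 1 := by
    intro q hq
    have hq1 := Nat.prime_of_mem_primeFactors hq
    have : Fact q.Prime := ⟨hq1⟩
    obtain ⟨P⟩ : Nonempty (Sylow q G) := inferInstance
    rw [← P.card_eq_multiplicity]
    obtain ⟨A, hA1, hA2⟩ := pgroup_bound P.isPGroup'
    have h1 := hcon q hq1 (A.map P.toSubgroup.subtype)
      ((P.isPGroup'.to_subgroup A).map _)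
      (by
        rintro _ ⟨a, ha, rfl⟩ _ ⟨b, hb, rfl⟩
        rw [← map_mul, ← map_mul, hA1 a ha b hb])
    rw [Subgroup.card_map_of_injective P.toSubgroup.subtype_injective] at h1
    refine (hA2.trans (Nat.mul_le_mul h1.le (Nat.factorial_le h1.le))).trans (Nat.le_succ _)
  have h2 : Nat.card G ≤ (K * K.factorial + 1) ^ K := by
    have hne : Nat.card G ≠ 0 := Nat.card_pos.ne'
    conv_lhs => rw [← Nat.prod_factorization_pow_eq_self hne]
    rw [Nat.prod_factorization_eq_prod_primeFactors]
    refine (Finset.prod_le_pow_card _ _ _ hsy).trans ?_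
    apply Nat.pow_le_pow_right (by omega)
    have : (Nat.card G).primeFactors ⊆ Finset.range K := fun q hq => Finset.mem_range.2 (hpr q hq)
    exact (Finset.card_le_card this).trans (by rw [Finset.card_range])
  omega

end Pool.Agent.LibSmallGraph
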