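import Mathlib
import Pool.Agent.LibSmallGraph.Assemble

set_option linter.unusedSectionVars false

namespace Pool.Agent.LibSmallGraph

open Set

variable {G : Type} [Group G]

/-- Rigid data with the degree inequality. -/
structure Good (H : Subgroup G) (S T : Set G) : Prop extends Rigid H S T where
  deg : S.ncard + ((fun t : G => ((t⁻¹ : G) : G ⧸ H)) '' T).ncard + 10 <
      T.ncard + (Nat.card (G ⧸ H) - 1)
  big : 26 ≤ T.ncard

section
variable {k : G} {f v : ℕ → G} {r : ℕ}

theorem rigid_of_ok [Finite G] (hC : CoreOK k f) (hT : TailOK k f v r) :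
    Rigid (Subgroup.zpowers k) (Sset k f v r) (layers k (Fs f v) r) := by
  have hP := pre_of_ok hC hT
  refine ⟨hP.symm, hP.one, ?_, ?_, ?_, rigid_of_pre hP⟩
  · rintro h hh _ ⟨g, hg, m, hm, rfl⟩
    exact ⟨h * g, Subgroup.mul_mem _ hh hg, m, hm, by rw [mul_assoc]⟩
  · exact ⟨1, one_mem_zp, 0, by omega, by rw [Fs_core _ _ (by norm_num), hC.f0, one_mul]⟩
  · rw [eq_top_iff, ← hT.t2]
    unfold gens
    rw [Subgroup.closure_le]
    have hF : ∀ m < 13 + r, Fs f v m ∈ Subgroup.closure (layers k (Fs f v) r) := fun m hm =>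
      Subgroup.subset_closure ⟨1, one_mem_zp, m, hm, by rw [one_mul]⟩
    rintro x (rfl | ⟨a, rfl⟩ | ⟨c, hc, rfl⟩)
    · apply Subgroup.subset_closure
      exact ⟨x, Subgroup.mem_zpowers x, 0, by omega, by
        rw [Fs_core _ _ (by norm_num), hC.f0, mul_one]⟩
    · have := hF a (by omega)
      rwa [Fs_core _ _ a.2] at this
    · have h1 : v c = (Fs f v (12 + c))⁻¹ * Fs f v (12 + (c + 1)) := by
        rw [Fs12, Fs12, seg, zero_add]; group
      rw [h1]
      exact Subgroup.mul_mem _ (Subgroup.inv_mem _ (hF _ (by omega))) (hF _ (by omega))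

lemma T_card [Finite G] (hC : CoreOK k f) (hT : TailOK k f v r) :
    2 * (13 + r) ≤ (layers k (Fs f v) r).ncard := by
  have hP := pre_of_ok hC hT
  have h1 : 2 * (13 + r) = (univ : Set (Fin 2 × Fin (13 + r))).ncard := by
    rw [ncard_univ, Nat.card_prod, Nat.card_fin, Nat.card_fin]
  rw [h1]
  have hk : ∀ i : Fin 2, (if i = 0 then (1 : G) else k) ∈ Subgroup.zpowers k := by
    intro i
    split_ifs
    · exact one_mem_zp
    · exact Subgroup.mem_zpowers k
  refine ncard_le_ncard_of_injOn
    (fun p : Fin 2 × Fin (13 + r) => (if p.1 = 0 then (1 : G) else k) * Fs f v p.2) ?_ ?_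
    (toFinite _)
  · rintro ⟨i, m⟩ _
    exact ⟨_, hk i, m, m.2, rfl⟩
  · rintro ⟨i, m⟩ _ ⟨j, m'⟩ _ h
    simp only at h
    have h2 : Fs f v m = ((if i = 0 then (1 : G) else k)⁻¹ * (if j = 0 then (1 : G) else k)) *
        Fs f v m' := by
      rw [mul_assoc, ← h]; group
    obtain ⟨h3, h4⟩ := hP.dist m m.2 m' m'.2 _
      (Subgroup.mul_mem _ (Subgroup.inv_mem _ (hk i)) (hk j)) h2
    have h5 : m = m' := Fin.ext h3
    have h6 : (if i = 0 then (1 : G) else k) = (if j = 0 then (1 : G) else k) :=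
      inv_mul_eq_one.1 h4
    have h7 : i = j := by
      have hne := hP.kne
      fin_cases i <;> fin_cases j <;> simp_all
    rw [h5, h7]

lemma S_card [Finite G] : (Sset k f v r).ncard ≤ 171 + 2 * r := by
  have hsub : Sset k f v r ⊆
      ((fun p : Fin 13 × Fin 13 => (f p.1)⁻¹ * f p.2) '' univ ∪ {lamOf k f, (lamOf k f)⁻¹}) ∪
      ((fun c : Fin r => v c) '' univ ∪ (fun c : Fin r => (v c)⁻¹) '' univ) := by
    rintro s (⟨a, b, _, rfl⟩ | hs | ⟨c, hc, hs | hs⟩)
    · exact Or.inl (Or.inl ⟨(a, b), trivial, rfl⟩)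
    · exact Or.inl (Or.inr hs)
    · exact Or.inr (Or.inl ⟨⟨c, hc⟩, trivial, hs.symm⟩)
    · exact Or.inr (Or.inr ⟨⟨c, hc⟩, trivial, hs.symm⟩)
  refine (ncard_le_ncard hsub (toFinite _)).trans ?_
  refine (ncard_union_le _ _).trans ?_
  have h1 : ((fun p : Fin 13 × Fin 13 => (f p.1)⁻¹ * f p.2) '' univ ∪
      {lamOf k f, (lamOf k f)⁻¹}).ncard ≤ 171 := by
    refine (ncard_union_le _ _).trans ?_
    have h2 : ((fun p : Fin 13 × Fin 13 => (f p.1)⁻¹ * f p.2) '' univ).ncard ≤ 169 := by
      refine (ncard_image_le (toFinite _)).trans ?_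
      rw [ncard_univ, Nat.card_prod, Nat.card_fin]
    have h3 := ncard_insert_le (lamOf k f) {(lamOf k f)⁻¹}
    rw [ncard_singleton] at h3
    omega
  have h4 : ((fun c : Fin r => v c) '' univ ∪ (fun c : Fin r => (v c)⁻¹) '' univ).ncard ≤
      2 * r := by
    refine (ncard_union_le _ _).trans ?_
    have h2 : ((fun c : Fin r => v c) '' univ).ncard ≤ r := by
      refine (ncard_image_le (toFinite _)).trans ?_
      rw [ncard_univ, Nat.card_fin]
    have h3 : ((fun c : Fin r => (v c)⁻¹) '' univ).ncard ≤ r := by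
      refine (ncard_image_le (toFinite _)).trans ?_
      rw [ncard_univ, Nat.card_fin]
    omega
  omega

lemma C_card [Finite G] :
    ((fun t : G => ((t⁻¹ : G) : G ⧸ Subgroup.zpowers k)) '' (layers k (Fs f v) r)).ncard ≤
      13 + r := by
  have hsub : ((fun t : G => ((t⁻¹ : G) : G ⧸ Subgroup.zpowers k)) '' (layers k (Fs f v) r)) ⊆
      (fun m : Fin (13 + r) => (((Fs f v m)⁻¹ : G) : G ⧸ Subgroup.zpowers k)) '' univ := by
    rintro _ ⟨_, ⟨h, hh, m, hm, rfl⟩, rfl⟩
    refine ⟨⟨m, hm⟩, trivial, ?_⟩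
    simp only
    rw [QuotientGroup.eq, inv_inv]
    have : Fs f v m * (h * Fs f v m)⁻¹ = h⁻¹ := by group
    rw [this]
    exact Subgroup.inv_mem _ hh
  refine (ncard_le_ncard hsub (toFinite _)).trans ?_
  refine (ncard_image_le (toFinite _)).trans ?_
  rw [ncard_univ, Nat.card_fin]

lemma r_bound [Finite G] (hT : TailOK k f v r) :
    2 ^ r ≤ Nat.card (G ⧸ Subgroup.zpowers k) := by
  have h1 : ∀ c ≤ r, 2 ^ c * Nat.card (Subgroup.zpowers k) ≤
      Nat.card (gens k f v (fun d => d < c)) := by
    intro c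
    induction c with
    | zero =>
      intro _
      rw [pow_zero, one_mul]
      apply Subgroup.card_le_of_le
      rw [Subgroup.zpowers_le]
      exact k_mem_gens
    | succ c ih =>
      intro hc
      have h2 := ih (by omega)
      have hle : gens k f v (fun d => d < c) ≤ gens k f v (fun d => d < c + 1) :=
        gens_mono (fun d hd => by omega)
      have hne : gens k f v (fun d => d < c) ≠ gens k f v (fun d => d < c + 1) := by
        intro h
        have h3 : v c ∈ gens k f v (fun d => d < c) := by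
          rw [h]; exact v_mem_gens (by omega)
        exact hT.t1 c (by omega) (gens_mono (fun d hd => ⟨by omega, by omega⟩) h3)
      have hdvd := Subgroup.card_dvd_of_le hle
      obtain ⟨m, hm⟩ := hdvd
      have hpos : 0 < Nat.card (gens k f v (fun d => d < c + 1)) := Nat.card_pos
      have hm2 : 2 ≤ m := by
        by_contra hlt
        have : m = 0 ∨ m = 1 := by omega
        rcases this with rfl | rfl
        · omega
        · apply hne
          apply Subgroup.eq_of_le_of_card_ge hle
          rw [hm, mul_one]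
      rw [pow_succ, hm]
      nlinarith
  have h2 := h1 r le_rfl
  rw [hT.t2, Subgroup.card_top, Subgroup.card_eq_card_quotient_mul_card_subgroup
    (Subgroup.zpowers k)] at h2
  exact Nat.le_of_mul_le_mul_right h2 Nat.card_pos

theorem good_of_ok [Finite G] (hC : CoreOK k f) (hT : TailOK k f v r)
    (hbig : 300 ≤ Nat.card (G ⧸ Subgroup.zpowers k)) :
    Good (Subgroup.zpowers k) (Sset k f v r) (layers k (Fs f v) r) := by
  have h1 := T_card hC hT
  have h2 : (Sset k f v r).ncard ≤ 171 + 2 * r := S_card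
  have h3 : ((fun t : G => ((t⁻¹ : G) : G ⧸ Subgroup.zpowers k)) ''
    (layers k (Fs f v) r)).ncard ≤ 13 + r := C_card
  have h4 := r_bound hT
  refine ⟨rigid_of_ok hC hT, ?_, by omega⟩
  have h5 : 170 + r < Nat.card (G ⧸ Subgroup.zpowers k) := by
    by_cases hr : r ≤ 100
    · omega
    · have : 170 + r < 2 ^ r := by
        clear h1 h2 h3 h4
        have : ∀ n, 101 ≤ n → 170 + n < 2 ^ n := by
          intro n hn
          induction n, hn using Nat.le_induction with
          | base => norm_num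
          | succ n hn ih => rw [pow_succ]; omega
        exact this r (by omega)
      omega
  omega

end

end Pool.Agent.LibSmallGraph
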