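import Mathlib
import Pool.Agent.LibSmallGraph.Count

set_option linter.unusedSectionVars false

namespace Pool.Agent.LibSmallGraph

open Set

/-- The data for a central extension by an involution. -/
structure CData (G G₁ Q : Type) [Group G] [Group G₁] [Group Q] where
  π₁ : G →* G₁
  π₂ : G →* Q
  z : G
  s₁ : Function.Surjective π₁
  s₂ : Function.Surjective π₂
  k₁ : ∀ x, π₁ x = 1 ↔ x = 1 ∨ x = z
  zz : z * z = 1
  zc : ∀ x, x * z = z * x
  zn : π₂ z ≠ 1
  H : Subgroup G₁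
  S : Set G₁
  T : Set G₁
  good : Good H S T
  T₀ : Set Q
  one₀ : (1 : Q) ∈ T₀
  z₀ : ∀ t ∈ T₀, t * π₂ z ∉ T₀
  gen₀ : Subgroup.closure T₀ = ⊤

variable {G G₁ Q : Type} [Group G] [Group G₁] [Group Q]

namespace CData

/-- the graph -/
def X (D : CData G G₁ Q) : SimpleGraph ((G₁ ⊕ (G₁ ⧸ D.H)) ⊕ (Q ⊕ Q)) where
  Adj x y := match x, y with
    | .inl u, .inl w => (keyGraph D.H D.S D.T D.good.symm D.good.one).Adj u w
    | .inl (.inl g), .inr (.inl q) => ∃ x : G, D.π₁ x = g ∧ D.π₂ x = q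
    | .inl (.inl g), .inr (.inr q) => ∃ x : G, D.π₁ x = g ∧ D.π₂ x = q
    | .inr (.inl q), .inl (.inl g) => ∃ x : G, D.π₁ x = g ∧ D.π₂ x = q
    | .inr (.inr q), .inl (.inl g) => ∃ x : G, D.π₁ x = g ∧ D.π₂ x = q
    | .inl (.inr _), .inr _ => False
    | .inr _, .inl (.inr _) => False
    | .inr (.inl q), .inr (.inl q') => q' = q * D.π₂ D.z
    | .inr (.inl q), .inr (.inr q') => q⁻¹ * q' ∈ D.T₀
    | .inr (.inr q'), .inr (.inl q) => q⁻¹ * q' ∈ D.T₀
    | .inr (.inr _), .inr (.inr _) => False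
  symm := ⟨fun x y h => by
    have hzz : D.π₂ D.z * D.π₂ D.z = 1 := by rw [← map_mul, D.zz, map_one]
    rcases x with (g | c) | (q | q) <;> rcases y with (g' | c') | (q' | q') <;>
      simp only at h ⊢ <;>
      first | exact h | exact SimpleGraph.Adj.symm h | (rw [h, mul_assoc, hzz, mul_one])⟩
  loopless := ⟨fun x h => by
    rcases x with u | (q | q)
    · exact (keyGraph D.H D.S D.T D.good.symm D.good.one).loopless.irrefl u h
    · simp only at h
      exact D.zn (left_eq_mul.1 h)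
    · exact h⟩

lemma zz' (D : CData G G₁ Q) : D.π₂ D.z * D.π₂ D.z = 1 := by rw [← map_mul, D.zz, map_one]

lemma zc' (D : CData G G₁ Q) (q : Q) : q * D.π₂ D.z = D.π₂ D.z * q := by
  obtain ⟨x, rfl⟩ := D.s₂ q
  rw [← map_mul, D.zc, map_mul]

lemma fib (D : CData G G₁ Q) (x : G) (q : Q) :
    (∃ y : G, D.π₁ y = D.π₁ x ∧ D.π₂ y = q) ↔ q = D.π₂ x ∨ q = D.π₂ x * D.π₂ D.z := by
  constructor
  · rintro ⟨y, h1, rfl⟩
    have h2 : D.π₁ (x⁻¹ * y) = 1 := by rw [map_mul, map_inv, h1, inv_mul_cancel]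
    rcases (D.k₁ _).1 h2 with h3 | h3
    · left
      rw [inv_mul_eq_one.1 h3]
    · right
      rw [← map_mul, ← h3, mul_inv_cancel_left]
  · rintro (rfl | rfl)
    · exact ⟨x, rfl, rfl⟩
    · refine ⟨x * D.z, ?_, by rw [map_mul]⟩
      rw [map_mul, (D.k₁ D.z).2 (Or.inr rfl), mul_one]

lemma smul_fib (D : CData G G₁ Q) (x : G) (g : G₁) (q : Q) :
    (∃ y : G, D.π₁ y = D.π₁ x * g ∧ D.π₂ y = D.π₂ x * q) ↔
      ∃ y : G, D.π₁ y = g ∧ D.π₂ y = q := by
  constructor
  · rintro ⟨y, h1, h2⟩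
    exact ⟨x⁻¹ * y, by rw [map_mul, h1, map_inv, inv_mul_cancel_left],
      by rw [map_mul, h2, map_inv, inv_mul_cancel_left]⟩
  · rintro ⟨y, h1, h2⟩
    exact ⟨x * y, by rw [map_mul, h1], by rw [map_mul, h2]⟩

/-- left multiplication -/
def L (D : CData G G₁ Q) (x : G) : D.X ≃g D.X where
  toEquiv := Equiv.sumCongr
    (keyAut D.H D.S D.T D.good.symm D.good.one (D.π₁ x)).toEquiv
    (Equiv.sumCongr (Equiv.mulLeft (D.π₂ x)) (Equiv.mulLeft (D.π₂ x)))
  map_rel_iff' := by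
    intro u w
    rcases u with u | (q | q) <;> rcases w with w | (q' | q')
    · exact (keyAut D.H D.S D.T D.good.symm D.good.one (D.π₁ x)).map_rel_iff
    · rcases u with g | c
      · exact D.smul_fib x g q'
      · exact Iff.rfl
    · rcases u with g | c
      · exact D.smul_fib x g q'
      · exact Iff.rfl
    · rcases w with g | c
      · exact D.smul_fib x g q
      · exact Iff.rfl
    · change D.π₂ x * q' = D.π₂ x * q * D.π₂ D.z ↔ q' = q * D.π₂ D.z
      rw [mul_assoc, mul_right_inj]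
    · change (D.π₂ x * q)⁻¹ * (D.π₂ x * q') ∈ D.T₀ ↔ q⁻¹ * q' ∈ D.T₀
      rw [show (D.π₂ x * q)⁻¹ * (D.π₂ x * q') = q⁻¹ * q' by group]
    · rcases w with g | c
      · exact D.smul_fib x g q
      · exact Iff.rfl
    · change (D.π₂ x * q')⁻¹ * (D.π₂ x * q) ∈ D.T₀ ↔ q'⁻¹ * q ∈ D.T₀
      rw [show (D.π₂ x * q')⁻¹ * (D.π₂ x * q) = q'⁻¹ * q by group]
    · exact Iff.rfl

/-- Automorphisms fixing the left part pointwise. -/
lemma fix_left (D : CData G G₁ Q) (ψ : D.X ≃g D.X) (hl : ∀ u, ψ (.inl u) = .inl u)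
    (hr : ∀ y, ∃ y', ψ (.inr y) = .inr y') : ψ = D.L 1 ∨ ψ = D.L D.z := by
  set ζ := D.π₂ D.z with hζ
  have hzz : ζ * ζ = 1 := D.zz'
  have hzn : ζ ≠ 1 := D.zn
  have hz0 : ζ ∉ D.T₀ := by
    have := D.z₀ 1 D.one₀
    rwa [one_mul] at this
  -- the underlying element is preserved up to `ζ`
  have hval : ∀ (y y' : Q ⊕ Q), ψ (.inr y) = .inr y' →
      y'.elim id id = y.elim id id ∨ y'.elim id id = y.elim id id * ζ := by
    intro y y' h
    obtain ⟨x, hx⟩ := D.s₂ (y.elim id id)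
    have h1 : D.X.Adj (.inl (.inl (D.π₁ x))) (.inr y) := by
      rcases y with q | q
      · exact ⟨x, rfl, hx⟩
      · exact ⟨x, rfl, hx⟩
    have h2 := ψ.map_adj_iff.2 h1
    rw [hl, h] at h2
    have h3 : ∃ w : G, D.π₁ w = D.π₁ x ∧ D.π₂ w = y'.elim id id := by
      rcases y' with q | q
      · exact h2
      · exact h2
    rw [D.fib, hx] at h3
    exact h3
  -- first copy goes to first copy
  have key : ∀ (ψ' : D.X ≃g D.X) (hr' : ∀ y, ∃ y', ψ' (.inr y) = .inr y')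
      (hval' : ∀ (y y' : Q ⊕ Q), ψ' (.inr y) = .inr y' →
        y'.elim id id = y.elim id id ∨ y'.elim id id = y.elim id id * ζ) (q : Q),
      ∃ q', ψ' (.inr (.inl q)) = .inr (.inl q') := by
    intro ψ' hr' hval' q
    obtain ⟨y, hy⟩ := hr' (.inl q)
    rcases y with q' | w
    · exact ⟨q', hy⟩
    · exfalso
      have hw : w = q ∨ w = q * ζ := hval' _ _ hy
      obtain ⟨y₂, hy₂⟩ := hr' (.inl (q * ζ))
      have a1 : D.X.Adj (.inr (.inl q)) (.inr (.inl (q * ζ))) := rfl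
      have a2 := ψ'.map_adj_iff.2 a1
      rw [hy, hy₂] at a2
      rcases y₂ with u | u
      · have hu : u = q * ζ ∨ u = q * ζ * ζ := hval' _ _ hy₂
        have hu' : u = q ∨ u = q * ζ := by
          rcases hu with h | h
          · exact Or.inr h
          · left; rw [h, mul_assoc, hzz, mul_one]
        have a3 : u⁻¹ * w ∈ D.T₀ := a2
        have huw : u = w := by
          rcases hu' with rfl | rfl <;> rcases hw with rfl | rfl
          · rfl
          · exfalso; apply hz0; rwa [inv_mul_cancel_left] at a3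
          · exfalso; apply hz0
            have e : (w * ζ)⁻¹ * w = ζ := by
              rw [mul_inv_rev, inv_mul_cancel_right]
              exact inv_eq_of_mul_eq_one_left hzz
            rwa [e] at a3
          · rfl
        obtain ⟨y₃, hy₃⟩ := hr' (.inr q)
        have b1 : D.X.Adj (.inr (.inl q)) (.inr (.inr q)) := by
          change q⁻¹ * q ∈ D.T₀
          rw [inv_mul_cancel]; exact D.one₀
        have b2 := ψ'.map_adj_iff.2 b1
        rw [hy, hy₃] at b2
        rcases y₃ with u₃ | u₃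
        · have b3 : u₃⁻¹ * w ∈ D.T₀ := b2
          have hu₃ : u₃ = q ∨ u₃ = q * ζ := hval' _ _ hy₃
          have hu₃w : u₃ = w := by
            rcases hu₃ with rfl | rfl <;> rcases hw with rfl | rfl
            · rfl
            · exfalso; apply hz0; rwa [inv_mul_cancel_left] at b3
            · exfalso; apply hz0
              have e : (w * ζ)⁻¹ * w = ζ := by
                rw [mul_inv_rev, inv_mul_cancel_right]
                exact inv_eq_of_mul_eq_one_left hzz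
              rwa [e] at b3
            · rfl
          have : ψ' (.inr (.inl (q * ζ))) = ψ' (.inr (.inr q)) := by
            rw [hy₂, hy₃, huw, hu₃w]
          have h5 := ψ'.injective this
          cases h5
        · exact b2
      · exact a2
  have h1 := key ψ hr hval
  have hlr : ∀ y, ∃ y', ψ.symm (.inr y) = .inr y' := by
    intro y
    rcases h3 : ψ.symm (.inr y) with u | y'
    · have := hl u
      rw [← h3, ψ.apply_symm_apply] at this
      rw [h3] at this
      cases this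
    · exact ⟨y', rfl⟩
  have hval2 : ∀ (y y' : Q ⊕ Q), ψ.symm (.inr y) = .inr y' →
      y'.elim id id = y.elim id id ∨ y'.elim id id = y.elim id id * ζ := by
    intro y y' h
    have h2 : ψ (.inr y') = .inr y := by rw [← h, ψ.apply_symm_apply]
    rcases hval _ _ h2 with h3 | h3
    · exact Or.inl h3.symm
    · right; rw [h3, mul_assoc, hzz, mul_one]
  have h1' := key ψ.symm hlr hval2
  have h2 : ∀ q, ∃ q', ψ (.inr (.inr q)) = .inr (.inr q') := by
    intro q
    obtain ⟨y, hy⟩ := hr (.inr q)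
    rcases y with q' | q'
    · exfalso
      obtain ⟨w, hw⟩ := h1' q'
      rw [← hy, ψ.symm_apply_apply] at hw
      cases hw
    · exact ⟨q', hy⟩
  choose e₁ he₁ using h1
  choose e₂ he₂ using h2
  have hv1 : ∀ q, e₁ q = q ∨ e₁ q = q * ζ := fun q => hval _ _ (he₁ q)
  have hv2 : ∀ q, e₂ q = q ∨ e₂ q = q * ζ := fun q => hval _ _ (he₂ q)
  have hadj : ∀ q, ∀ t ∈ D.T₀, (e₁ q)⁻¹ * e₂ (q * t) ∈ D.T₀ := by
    intro q t ht
    have a1 : D.X.Adj (.inr (.inl q)) (.inr (.inr (q * t))) := by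
      change q⁻¹ * (q * t) ∈ D.T₀
      rwa [inv_mul_cancel_left]
    have a2 := ψ.map_adj_iff.2 a1
    rw [he₁, he₂] at a2
    exact a2
  have hzinv : ζ⁻¹ = ζ := inv_eq_of_mul_eq_one_left hzz
  have hsame : ∀ q, ∀ t ∈ D.T₀, (e₁ q = q ↔ e₂ (q * t) = q * t) := by
    intro q t ht
    have h3 := hadj q t ht
    have h4 := D.z₀ t ht
    constructor
    · intro h5
      rcases hv2 (q * t) with h6 | h6
      · exact h6
      · exfalso
        rw [h5, h6, mul_assoc, inv_mul_cancel_left] at h3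
        exact h4 h3
    · intro h5
      rcases hv1 q with h6 | h6
      · exact h6
      · exfalso
        rw [h5, h6, mul_inv_rev, hzinv, mul_assoc, inv_mul_cancel_left, ← D.zc'] at h3
        exact h4 h3
  have h12 : ∀ q, (e₁ q = q ↔ e₂ q = q) := by
    intro q
    have := hsame q 1 D.one₀
    rwa [mul_one] at this
  have hstep : ∀ q, ∀ t ∈ D.T₀, (e₁ q = q ↔ e₁ (q * t) = q * t) := by
    intro q t ht
    rw [hsame q t ht, h12]
  have hall : ∀ y q, (e₁ q = q ↔ e₁ (q * y) = q * y) := by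
    intro y
    have hy : y ∈ Subgroup.closure D.T₀ := by rw [D.gen₀]; trivial
    induction hy using Subgroup.closure_induction with
    | mem t ht => exact fun q => hstep q t ht
    | one => intro q; rw [mul_one]
    | mul u w _ _ hu hw => intro q; rw [← mul_assoc, ← hw, ← hu]
    | inv u _ hu =>
      intro q
      have := hu (q * u⁻¹)
      rw [inv_mul_cancel_right] at this
      exact this.symm
  by_cases hone : e₁ 1 = 1
  · left
    have h3 : ∀ q, e₁ q = q := by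
      intro q
      have := (hall q 1).1 hone
      rwa [one_mul] at this
    ext x
    rcases x with u | (q | q)
    · rw [hl]
      rcases u with g | c
      · change Sum.inl (Sum.inl g) = Sum.inl (Sum.inl (D.π₁ 1 * g))
        rw [map_one, one_mul]
      · change Sum.inl (Sum.inr c) = Sum.inl (Sum.inr (D.π₁ 1 • c))
        rw [map_one, one_smul]
    · rw [he₁, h3]
      change Sum.inr (Sum.inl q) = Sum.inr (Sum.inl (D.π₂ 1 * q))
      rw [map_one, one_mul]
    · rw [he₂, (h12 q).1 (h3 q)]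
      change Sum.inr (Sum.inr q) = Sum.inr (Sum.inr (D.π₂ 1 * q))
      rw [map_one, one_mul]
  · right
    have h3 : ∀ q, e₁ q ≠ q := by
      intro q h
      apply hone
      have := (hall q⁻¹ q).1 h
      rwa [mul_inv_cancel] at this
    have h4 : ∀ q, e₁ q = q * ζ := fun q => (hv1 q).resolve_left (h3 q)
    have h5 : ∀ q, e₂ q = q * ζ := fun q => (hv2 q).resolve_left (fun h => h3 q ((h12 q).2 h))
    have hπz : D.π₁ D.z = 1 := (D.k₁ D.z).2 (Or.inr rfl)
    ext x
    rcases x with u | (q | q)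
    · rw [hl]
      rcases u with g | c
      · change Sum.inl (Sum.inl g) = Sum.inl (Sum.inl (D.π₁ D.z * g))
        rw [hπz, one_mul]
      · change Sum.inl (Sum.inr c) = Sum.inl (Sum.inr (D.π₁ D.z • c))
        rw [hπz, one_smul]
    · rw [he₁, h4]
      change Sum.inr (Sum.inl (q * ζ)) = Sum.inr (Sum.inl (ζ * q))
      rw [D.zc']
    · rw [he₂, h5]
      change Sum.inr (Sum.inr (q * ζ)) = Sum.inr (Sum.inr (ζ * q))
      rw [D.zc']

section degrees
variable [Finite G] [Finite G₁] [Finite Q]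

lemma deg_c (D : CData G G₁ Q) (c : G₁ ⧸ D.H) :
    D.T.ncard + (Nat.card (G₁ ⧸ D.H) - 1) ≤ (D.X.neighborSet (.inl (.inr c))).ncard := by
  refine (key_deg_r (S := D.S) (hS := D.good.symm) (h1 := D.good.one) D.good.mulT c).trans ?_
  refine ncard_le_ncard_of_injOn Sum.inl ?_ (fun a _ b _ h => Sum.inl_injective h) (toFinite _)
  intro u hu
  exact hu

lemma deg_g (D : CData G G₁ Q) (g : G₁) :
    (D.X.neighborSet (.inl (.inl g))).ncard ≤
      D.S.ncard + ((fun t : G₁ => ((t⁻¹ : G₁) : G₁ ⧸ D.H)) '' D.T).ncard + 4 := by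
  obtain ⟨x, rfl⟩ := D.s₁ g
  have hsub : D.X.neighborSet (.inl (.inl (D.π₁ x))) ⊆
      (Sum.inl '' ((keyGraph D.H D.S D.T D.good.symm D.good.one).neighborSet
        (.inl (D.π₁ x)))) ∪
      {.inr (.inl (D.π₂ x)), .inr (.inl (D.π₂ x * D.π₂ D.z)), .inr (.inr (D.π₂ x)),
        .inr (.inr (D.π₂ x * D.π₂ D.z))} := by
    intro y hy
    have hy' : D.X.Adj (.inl (.inl (D.π₁ x))) y := hy
    rcases y with u | (q | q)
    · left
      exact ⟨u, hy', rfl⟩
    · right
      have h1 : ∃ y : G, D.π₁ y = D.π₁ x ∧ D.π₂ y = q := hy'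
      rw [D.fib] at h1
      rcases h1 with rfl | rfl
      · left; rfl
      · right; left; rfl
    · right
      have h1 : ∃ y : G, D.π₁ y = D.π₁ x ∧ D.π₂ y = q := hy'
      rw [D.fib] at h1
      rcases h1 with rfl | rfl
      · right; right; left; rfl
      · right; right; right; rfl
  refine (ncard_le_ncard hsub (toFinite _)).trans ((ncard_union_le _ _).trans ?_)
  refine add_le_add ((ncard_image_le (toFinite _)).trans ?_) ?_
  · exact key_deg_l (H := D.H) (S := D.S) (T := D.T) (hS := D.good.symm) (h1 := D.good.one) _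
  · refine (ncard_insert_le _ _).trans ?_
    have h1 := ncard_insert_le (.inr (.inl (D.π₂ x * D.π₂ D.z)) : (G₁ ⊕ (G₁ ⧸ D.H)) ⊕ (Q ⊕ Q))
      {.inr (.inr (D.π₂ x)), .inr (.inr (D.π₂ x * D.π₂ D.z))}
    have h2 := ncard_insert_le (.inr (.inr (D.π₂ x)) : (G₁ ⊕ (G₁ ⧸ D.H)) ⊕ (Q ⊕ Q))
      {.inr (.inr (D.π₂ x * D.π₂ D.z))}
    rw [ncard_singleton] at h2
    omega

lemma left_nb (D : CData G G₁ Q) (q : Q) :
    {g : G₁ | ∃ y : G, D.π₁ y = g ∧ D.π₂ y = q}.ncard ≤ Nat.card D.π₂.ker := by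
  obtain ⟨x, rfl⟩ := D.s₂ q
  have hsub : {g : G₁ | ∃ y : G, D.π₁ y = g ∧ D.π₂ y = D.π₂ x} ⊆
      (fun a : G => D.π₁ (x * a)) '' (D.π₂.ker : Set G) := by
    rintro g ⟨y, rfl, hy⟩
    refine ⟨x⁻¹ * y, ?_, by simp⟩
    rw [SetLike.mem_coe, MonoidHom.mem_ker, map_mul, map_inv, hy, inv_mul_cancel]
  refine (ncard_le_ncard hsub (toFinite _)).trans ((ncard_image_le (toFinite _)).trans ?_)
  exact (Nat.card_coe_set_eq (D.π₂.ker : Set G)).symm.le

lemma deg_1 (D : CData G G₁ Q) (q : Q) :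
    (D.X.neighborSet (.inr (.inl q))).ncard ≤ Nat.card D.π₂.ker + 1 + D.T₀.ncard := by
  have hsub : D.X.neighborSet (.inr (.inl q)) ⊆
      ((fun g : G₁ => (.inl (.inl g) : (G₁ ⊕ (G₁ ⧸ D.H)) ⊕ (Q ⊕ Q))) ''
        {g : G₁ | ∃ y : G, D.π₁ y = g ∧ D.π₂ y = q} ∪ {.inr (.inl (q * D.π₂ D.z))}) ∪
      (fun t : Q => (.inr (.inr (q * t)) : (G₁ ⊕ (G₁ ⧸ D.H)) ⊕ (Q ⊕ Q))) '' D.T₀ := by
    intro y hy
    have hy' : D.X.Adj (.inr (.inl q)) y := hy
    rcases y with (g | c) | (q' | q')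
    · left; left
      exact ⟨g, hy', rfl⟩
    · exact absurd hy' (fun h => h)
    · left; right
      have : q' = q * D.π₂ D.z := hy'
      rw [this]; rfl
    · right
      have : q⁻¹ * q' ∈ D.T₀ := hy'
      exact ⟨_, this, by simp⟩
  refine (ncard_le_ncard hsub (toFinite _)).trans ((ncard_union_le _ _).trans ?_)
  refine add_le_add ((ncard_union_le _ _).trans (add_le_add ?_ (ncard_singleton _).le))
    (ncard_image_le (toFinite _))
  exact (ncard_image_le (toFinite _)).trans (D.left_nb q)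

lemma deg_2 (D : CData G G₁ Q) (q : Q) :
    (D.X.neighborSet (.inr (.inr q))).ncard ≤ Nat.card D.π₂.ker + 1 + D.T₀.ncard := by
  have hsub : D.X.neighborSet (.inr (.inr q)) ⊆
      ((fun g : G₁ => (.inl (.inl g) : (G₁ ⊕ (G₁ ⧸ D.H)) ⊕ (Q ⊕ Q))) ''
        {g : G₁ | ∃ y : G, D.π₁ y = g ∧ D.π₂ y = q}) ∪
      (fun t : Q => (.inr (.inl (q * t⁻¹)) : (G₁ ⊕ (G₁ ⧸ D.H)) ⊕ (Q ⊕ Q))) '' D.T₀ := by
    intro y hy
    have hy' : D.X.Adj (.inr (.inr q)) y := hy
    rcases y with (g | c) | (q' | q')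
    · left
      exact ⟨g, hy', rfl⟩
    · exact absurd hy' (fun h => h)
    · right
      have : q'⁻¹ * q ∈ D.T₀ := hy'
      exact ⟨_, this, by simp⟩
    · exact absurd hy' (fun h => h)
  refine (ncard_le_ncard hsub (toFinite _)).trans ((ncard_union_le _ _).trans ?_)
  have h1 := (ncard_image_le (f := (fun g : G₁ =>
    (.inl (.inl g) : (G₁ ⊕ (G₁ ⧸ D.H)) ⊕ (Q ⊕ Q)))) (toFinite
      {g : G₁ | ∃ y : G, D.π₁ y = g ∧ D.π₂ y = q})).trans (D.left_nb q)
  have h2 := ncard_image_le (f := (fun t : Q =>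
    (.inr (.inl (q * t⁻¹)) : (G₁ ⊕ (G₁ ⧸ D.H)) ⊕ (Q ⊕ Q)))) (toFinite D.T₀)
  omega

lemma deg_eq (D : CData G G₁ Q) (φ : D.X ≃g D.X) (x : (G₁ ⊕ (G₁ ⧸ D.H)) ⊕ (Q ⊕ Q)) :
    (D.X.neighborSet (φ x)).ncard = (D.X.neighborSet x).ncard := by
  rw [← ncard_image_of_injective (D.X.neighborSet x) φ.injective]
  congr 1
  ext y
  constructor
  · intro h
    refine ⟨φ.symm y, ?_, φ.apply_symm_apply y⟩
    change D.X.Adj _ _
    rw [← φ.map_adj_iff, φ.apply_symm_apply]
    exact h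
  · rintro ⟨x, hx, rfl⟩
    exact φ.map_adj_iff.2 hx

lemma type_c (D : CData G G₁ Q)
    (hdeg : Nat.card D.π₂.ker + 1 + D.T₀.ncard < D.T.ncard + (Nat.card (G₁ ⧸ D.H) - 1))
    (φ : D.X ≃g D.X) (c : G₁ ⧸ D.H) : ∃ c', φ (.inl (.inr c)) = .inl (.inr c') := by
  have h1 := D.deg_eq φ (.inl (.inr c))
  have h2 := D.deg_c c
  have h3 := D.good.deg
  rcases h : φ (.inl (.inr c)) with (g | c') | (q | q)
  · rw [h] at h1
    have := D.deg_g g
    omega
  · exact ⟨c', rfl⟩
  · rw [h] at h1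
    have := D.deg_1 q
    omega
  · rw [h] at h1
    have := D.deg_2 q
    omega

lemma type_g (D : CData G G₁ Q)
    (hdeg : Nat.card D.π₂.ker + 1 + D.T₀.ncard < D.T.ncard + (Nat.card (G₁ ⧸ D.H) - 1))
    (φ : D.X ≃g D.X) (g : G₁) : ∃ g', φ (.inl (.inl g)) = .inl (.inl g') := by
  rcases h : φ (.inl (.inl g)) with (g' | c') | y
  · exact ⟨g', rfl⟩
  · exfalso
    obtain ⟨c, hc⟩ := D.type_c hdeg φ.symm c'
    rw [← h, φ.symm_apply_apply] at hc
    cases hc
  · exfalso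
    have h1 : D.X.Adj (.inl (.inl g)) (.inl (.inr ((g : G₁) : G₁ ⧸ D.H))) := by
      change (keyGraph D.H D.S D.T D.good.symm D.good.one).Adj (.inl g) (.inr (g : G₁ ⧸ D.H))
      rw [key_lr' D.good.mulT, inv_mul_cancel]
      exact D.good.oneT
    have h2 := φ.map_adj_iff.2 h1
    obtain ⟨c, hc⟩ := D.type_c hdeg φ ((g : G₁) : G₁ ⧸ D.H)
    rw [h, hc] at h2
    rcases y with q | q
    · exact h2
    · exact h2

lemma type_r (D : CData G G₁ Q)
    (hdeg : Nat.card D.π₂.ker + 1 + D.T₀.ncard < D.T.ncard + (Nat.card (G₁ ⧸ D.H) - 1))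
    (φ : D.X ≃g D.X) (y : Q ⊕ Q) : ∃ y', φ (.inr y) = .inr y' := by
  rcases h : φ (.inr y) with (g' | c') | y'
  · exfalso
    obtain ⟨c, hc⟩ := D.type_g hdeg φ.symm g'
    rw [← h, φ.symm_apply_apply] at hc
    cases hc
  · exfalso
    obtain ⟨c, hc⟩ := D.type_c hdeg φ.symm c'
    rw [← h, φ.symm_apply_apply] at hc
    cases hc
  · exact ⟨y', rfl⟩

theorem aut (D : CData G G₁ Q)
    (hdeg : Nat.card D.π₂.ker + 1 + D.T₀.ncard < D.T.ncard + (Nat.card (G₁ ⧸ D.H) - 1))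
    (φ : D.X ≃g D.X) : ∃ x : G, φ = D.L x := by
  have hg := D.type_g hdeg φ
  have hc := D.type_c hdeg φ
  choose a ha using hg
  choose b hb using hc
  obtain ⟨g, hg1, hg2⟩ := key_main D.good.toRigid a b
    (by
      intro x y h
      have : φ (.inl (.inl x)) = φ (.inl (.inl y)) := by rw [ha, ha, h]
      exact Sum.inl_injective (Sum.inl_injective (φ.injective this)))
    (by
      intro x y
      have h1 : D.X.Adj (.inl (.inl x)) (.inl (.inl y)) ↔ x⁻¹ * y ∈ D.S := Iff.rfl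
      have h2 : D.X.Adj (.inl (.inl (a x))) (.inl (.inl (a y))) ↔ (a x)⁻¹ * a y ∈ D.S := Iff.rfl
      rw [← h1, ← h2, ← φ.map_adj_iff, ha, ha])
    (by
      intro x y y' h
      have h1 : ∀ u w : G₁, D.X.Adj (.inl (.inl u)) (.inl (.inr ((w : G₁) : G₁ ⧸ D.H))) ↔
          w⁻¹ * u ∈ D.T := fun u w => by
        rw [← key_lr' (S := D.S) (hS := D.good.symm) (h1 := D.good.one) D.good.mulT]
        exact Iff.rfl
      rw [← h1, ← h1, ← φ.map_adj_iff, ha, hb, h])
  obtain ⟨x, rfl⟩ := D.s₁ g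
  have hleft : ∀ u, φ (.inl u) = D.L x (.inl u) := by
    intro u
    rcases u with g | c
    · rw [ha, hg1]; rfl
    · obtain ⟨y, rfl⟩ := QuotientGroup.mk_surjective c
      rw [hb, hg2]; rfl
  let ψ : D.X ≃g D.X := φ.trans (D.L x).symm
  have hψl : ∀ u, ψ (.inl u) = .inl u := by
    intro u
    change (D.L x).symm (φ (.inl u)) = .inl u
    rw [hleft, RelIso.symm_apply_apply]
  have hψr : ∀ y, ∃ y', ψ (.inr y) = .inr y' := D.type_r hdeg ψ
  have hφ : ∀ u, φ u = D.L x (ψ u) := by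
    intro u
    change φ u = D.L x ((D.L x).symm (φ u))
    rw [RelIso.apply_symm_apply]
  have hmul : ∀ w u, D.L x (D.L w u) = D.L (x * w) u := by
    intro w u
    rcases u with (g | c) | (q | q)
    · change Sum.inl (Sum.inl (D.π₁ x * (D.π₁ w * g))) = Sum.inl (Sum.inl (D.π₁ (x * w) * g))
      rw [map_mul, mul_assoc]
    · change Sum.inl (Sum.inr (D.π₁ x • D.π₁ w • c)) = Sum.inl (Sum.inr (D.π₁ (x * w) • c))
      rw [map_mul, mul_smul]
    · change Sum.inr (Sum.inl (D.π₂ x * (D.π₂ w * q))) = Sum.inr (Sum.inl (D.π₂ (x * w) * q))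
      rw [map_mul, mul_assoc]
    · change Sum.inr (Sum.inr (D.π₂ x * (D.π₂ w * q))) = Sum.inr (Sum.inr (D.π₂ (x * w) * q))
      rw [map_mul, mul_assoc]
  rcases D.fix_left ψ hψl hψr with h | h
  · refine ⟨x * 1, ?_⟩
    ext u
    rw [hφ, h, hmul]
  · refine ⟨x * D.z, ?_⟩
    ext u
    rw [hφ, h, hmul]

theorem iso (D : CData G G₁ Q)
    (hdeg : Nat.card D.π₂.ker + 1 + D.T₀.ncard < D.T.ncard + (Nat.card (G₁ ⧸ D.H) - 1)) :
    Nonempty ((D.X ≃g D.X) ≃* G) := by
  let Lh : G →* (D.X ≃g D.X) :=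
    { toFun := D.L
      map_one' := by
        ext u
        rcases u with (g | c) | (q | q)
        · change Sum.inl (Sum.inl (D.π₁ 1 * g)) = Sum.inl (Sum.inl g)
          rw [map_one, one_mul]
        · change Sum.inl (Sum.inr (D.π₁ 1 • c)) = Sum.inl (Sum.inr c)
          rw [map_one, one_smul]
        · change Sum.inr (Sum.inl (D.π₂ 1 * q)) = Sum.inr (Sum.inl q)
          rw [map_one, one_mul]
        · change Sum.inr (Sum.inr (D.π₂ 1 * q)) = Sum.inr (Sum.inr q)
          rw [map_one, one_mul]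
      map_mul' := by
        intro x w
        ext u
        rcases u with (g | c) | (q | q)
        · change Sum.inl (Sum.inl (D.π₁ (x * w) * g)) = Sum.inl (Sum.inl (D.π₁ x * (D.π₁ w * g)))
          rw [map_mul, mul_assoc]
        · change Sum.inl (Sum.inr (D.π₁ (x * w) • c)) = Sum.inl (Sum.inr (D.π₁ x • D.π₁ w • c))
          rw [map_mul, mul_smul]
        · change Sum.inr (Sum.inl (D.π₂ (x * w) * q)) = Sum.inr (Sum.inl (D.π₂ x * (D.π₂ w * q)))
          rw [map_mul, mul_assoc]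
        · change Sum.inr (Sum.inr (D.π₂ (x * w) * q)) = Sum.inr (Sum.inr (D.π₂ x * (D.π₂ w * q)))
          rw [map_mul, mul_assoc] }
  refine ⟨(MulEquiv.ofBijective Lh ⟨?_, ?_⟩).symm⟩
  · rw [injective_iff_map_eq_one]
    intro x hx
    have h1 : D.L x (.inl (.inl 1)) = .inl (.inl 1) := by
      change Lh x (.inl (.inl 1)) = .inl (.inl 1)
      rw [hx]; rfl
    have h2 : D.L x (.inr (.inl 1)) = .inr (.inl 1) := by
      change Lh x (.inr (.inl 1)) = .inr (.inl 1)
      rw [hx]; rfl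
    have h3 : D.π₁ x * 1 = 1 := Sum.inl_injective (Sum.inl_injective h1)
    have h4 : D.π₂ x * 1 = 1 := Sum.inl_injective (Sum.inr_injective h2)
    rw [mul_one] at h3 h4
    rcases (D.k₁ x).1 h3 with h5 | h5
    · exact h5
    · rw [h5] at h4
      exact absurd h4 D.zn
  · intro φ
    obtain ⟨x, hx⟩ := D.aut hdeg φ
    exact ⟨x, hx.symm⟩

end degrees

end CData

end Pool.Agent.LibSmallGraph
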