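import Mathlib

set_option linter.unusedSectionVars false

namespace Pool.Agent.LibSmallGraph

open Set

/-- generic sequences of length `n` -/
structure Gen {B : Type} [AddCommGroup B] (I : AddSubgroup B) (g : ℕ → B) (n : ℕ) : Prop where
  g2 : ∀ c < n, ∀ d < n, c ≠ d → g c - g d ∉ I
  g1 : ∀ a < n, ∀ b < n, ∀ c < n, ∀ d < n, a ≠ b → c ≠ d → ∀ h ∈ I,
    h + (g b - g a) = g d - g c → h = 0 ∧ ((a = c ∧ b = d) ∨ (a = d ∧ b = c))

lemma exists_point {B : Type} [AddCommGroup B] [Finite B] (I : AddSubgroup B)
    (hcard : ((∀ x : B, x + x = 0) ∧ 2210 * Nat.card I < Nat.card B) ∨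
      (2210 + 169 * Nat.card {x : B // x + x = 0}) * Nat.card I < Nat.card B)
    (g : ℕ → B) (n : ℕ) (hn : n ≤ 13) (hg : Gen I g n) :
    ∃ x : B, (∀ c < n, ∀ h ∈ I, x ≠ h + g c) ∧
      (∀ a < n, ∀ b < n, ∀ c < n, ∀ h ∈ I, x ≠ h + g a + g b - g c) ∧
      (∀ a < n, ∀ b < n, ∀ h ∈ I, (a ≠ b ∨ h ≠ 0) → x + x ≠ h + g a + g b) := by
  classical
  by_contra hcon
  push Not at hcon
  -- a choice of square roots
  let ρ : B → B := fun y => if hy : ∃ x : B, x + x = y then hy.choose else 0
  have hρ : ∀ x : B, ρ (x + x) + ρ (x + x) = x + x := by
    intro x
    have hy : ∃ z : B, z + z = x + x := ⟨x, rfl⟩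
    simp only [ρ, dif_pos hy]
    exact hy.choose_spec
  have hc1 : ((fun p : I × Fin 13 => (p.1 : B) + g p.2) '' univ).ncard ≤ Nat.card I * 13 := by
    refine (ncard_image_le (toFinite _)).trans ?_
    rw [ncard_univ, Nat.card_prod, Nat.card_fin]
  have hc2 : ((fun p : I × Fin 13 × Fin 13 × Fin 13 =>
      (p.1 : B) + g p.2.1 + g p.2.2.1 - g p.2.2.2) '' univ).ncard ≤
      Nat.card I * (13 * (13 * 13)) := by
    refine (ncard_image_le (toFinite _)).trans ?_
    rw [ncard_univ, Nat.card_prod, Nat.card_prod, Nat.card_prod, Nat.card_fin]
  have hc3 : ((fun p : I × Fin 13 × Fin 13 × {x : B // x + x = 0} =>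
      ρ ((p.1 : B) + g p.2.1 + g p.2.2.1) + p.2.2.2) '' univ).ncard ≤
      Nat.card I * (13 * (13 * Nat.card {x : B // x + x = 0})) := by
    refine (ncard_image_le (toFinite _)).trans ?_
    rw [ncard_univ, Nat.card_prod, Nat.card_prod, Nat.card_prod, Nat.card_fin]
  have h4 : ∀ x : B, (x ∈ (fun p : I × Fin 13 => (p.1 : B) + g p.2) '' univ ∪
      (fun p : I × Fin 13 × Fin 13 × Fin 13 =>
      (p.1 : B) + g p.2.1 + g p.2.2.1 - g p.2.2.2) '' univ) ∨
      ∃ a < n, ∃ b < n, ∃ h ∈ I, (a ≠ b ∨ h ≠ 0) ∧ x + x = h + g a + g b := by
    intro x
    by_cases h1 : ∀ c < n, ∀ h ∈ I, x ≠ h + g c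
    · by_cases h2 : ∀ a < n, ∀ b < n, ∀ c < n, ∀ h ∈ I, x ≠ h + g a + g b - g c
      · right
        obtain ⟨a, ha, b, hb, h, hh, hne, he⟩ := hcon x h1 h2
        exact ⟨a, ha, b, hb, h, hh, hne, he⟩
      · left; right
        push Not at h2
        obtain ⟨a, ha, b, hb, c, hc, h, hh, he⟩ := h2
        exact ⟨(⟨h, hh⟩, ⟨a, by omega⟩, ⟨b, by omega⟩, ⟨c, by omega⟩), trivial, he.symm⟩
    · left; left
      push Not at h1
      obtain ⟨c, hc, h, hh, he⟩ := h1
      exact ⟨(⟨h, hh⟩, ⟨c, by omega⟩), trivial, he.symm⟩
  rcases hcard with ⟨h2t, hcard⟩ | hcard
  · have huniv : (univ : Set B) ⊆ (fun p : I × Fin 13 => (p.1 : B) + g p.2) '' univ ∪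
      (fun p : I × Fin 13 × Fin 13 × Fin 13 =>
      (p.1 : B) + g p.2.1 + g p.2.2.1 - g p.2.2.2) '' univ := by
      intro x _
      rcases h4 x with h5 | ⟨a, ha, b, hb, h, hh, hne, he⟩
      · exact h5
      · exfalso
        rw [h2t] at he
        by_cases hab : a = b
        · subst hab
          rw [add_assoc, h2t, add_zero] at he
          rcases hne with hne | hne
          · exact hne rfl
          · exact hne he.symm
        · apply hg.g2 a ha b hb hab
          have h6 : g a - g b = -h := by
            have h7 : g a = -h - g b := by
              rw [eq_sub_iff_add_eq, eq_neg_iff_add_eq_zero, he]; abel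
            have h8 : -g b = g b := by
              rw [neg_eq_iff_add_eq_zero]; exact h2t _
            rw [h7, sub_sub, h2t, sub_zero]
          rw [h6]
          exact I.neg_mem hh
    have h5 := ncard_le_ncard huniv (toFinite _)
    rw [ncard_univ] at h5
    have h6 := h5.trans (ncard_union_le _ _)
    nlinarith
  · have huniv : (univ : Set B) ⊆ ((fun p : I × Fin 13 => (p.1 : B) + g p.2) '' univ ∪
      (fun p : I × Fin 13 × Fin 13 × Fin 13 =>
      (p.1 : B) + g p.2.1 + g p.2.2.1 - g p.2.2.2) '' univ) ∪
      (fun p : I × Fin 13 × Fin 13 × {x : B // x + x = 0} =>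
      ρ ((p.1 : B) + g p.2.1 + g p.2.2.1) + p.2.2.2) '' univ := by
      intro x _
      rcases h4 x with h5 | ⟨a, ha, b, hb, h, hh, hne, he⟩
      · exact Or.inl h5
      · right
        refine ⟨(⟨h, hh⟩, ⟨a, by omega⟩, ⟨b, by omega⟩, ⟨x - ρ (x + x), ?_⟩), trivial, ?_⟩
        · have := hρ x
          calc x - ρ (x + x) + (x - ρ (x + x)) = (x + x) - (ρ (x + x) + ρ (x + x)) := by abel
            _ = 0 := by rw [this, sub_self]
        · simp only
          rw [← he]
          abel
    have h5 := ncard_le_ncard huniv (toFinite _)
    rw [ncard_univ] at h5
    have h6 := h5.trans ((ncard_union_le _ _).trans (Nat.add_le_add_right (ncard_union_le _ _) _))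
    nlinarith

theorem greedy {B : Type} [AddCommGroup B] [Finite B] (I : AddSubgroup B)
    (hcard : ((∀ x : B, x + x = 0) ∧ 2210 * Nat.card I < Nat.card B) ∨
      (2210 + 169 * Nat.card {x : B // x + x = 0}) * Nat.card I < Nat.card B) :
    ∃ g : ℕ → B, g 0 = 0 ∧ Gen I g 13 := by
  classical
  have key : ∀ n, 1 ≤ n → n ≤ 13 → ∃ g : ℕ → B, g 0 = 0 ∧ Gen I g n := by
    intro n hn
    induction n, hn using Nat.le_induction with
    | base =>
      intro _
      exact ⟨fun _ => 0, rfl, ⟨fun c hc d hd h => absurd (by omega) h,
        fun a ha b hb c hc d hd h => absurd (by omega) h⟩⟩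
    | succ n hn ih =>
      intro hn2
      obtain ⟨g, hg0, hg⟩ := ih (by omega)
      obtain ⟨x, hx0, hx1, hx2⟩ := exists_point I hcard g n (by omega) hg
      let g' : ℕ → B := fun m => if m = n then x else g m
      have e1 : g' n = x := by simp [g']
      have e2 : ∀ m, m ≠ n → g' m = g m := fun m hm => by simp [g', hm]
      refine ⟨g', ?_, ?_, ?_⟩
      · rw [e2 0 (by omega), hg0]
      · intro c hc d hd hcd
        by_cases hcn : c = n
        · subst hcn
          rw [e1, e2 d (Ne.symm hcd)]
          intro h
          exact hx0 d (by omega) _ h (by abel)
        · by_cases hdn : d = n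
          · subst hdn
            rw [e1, e2 c hcn]
            intro h
            exact hx0 c (by omega) _ (I.neg_mem h) (by abel)
          · rw [e2 c hcn, e2 d hdn]
            exact hg.g2 c (by omega) d (by omega) hcd
      · intro a ha b hb c hc d hd hab hcd h hh he
        by_cases han : a = n
        · subst han
          rw [e1, e2 b (Ne.symm hab)] at he
          by_cases hcn : c = a
          · subst hcn
            rw [e1, e2 d (Ne.symm hcd)] at he
            have h1 : g d - g b = h := by
              have : h + g b = g d := by
                have := congrArg (· + x) he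
                calc h + g b = h + (g b - x) + x := by abel
                  _ = g d - x + x := this
                  _ = g d := by abel
              rw [← this]; abel
            have h2 : d = b := by
              by_contra hne
              apply hg.g2 d (by omega) b (by omega) hne
              rw [h1]; exact hh
            subst h2
            rw [sub_self] at h1
            exact ⟨h1.symm, Or.inl ⟨rfl, rfl⟩⟩
          · by_cases hdn : d = a
            · subst hdn
              rw [e1, e2 c hcn] at he
              have h1 : x + x = h + g b + g c := by
                have := congrArg (· + x + g c) he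
                calc x + x = x - g c + x + g c := by abel
                  _ = h + (g b - x) + x + g c := this.symm
                  _ = h + g b + g c := by abel
              by_cases hbc : b = c
              · subst hbc
                by_cases h0 : h = 0
                · exact ⟨h0, Or.inr ⟨rfl, rfl⟩⟩
                · exact absurd h1 (hx2 b (by omega) b (by omega) h hh (Or.inr h0))
              · exact absurd h1 (hx2 b (by omega) c (by omega) h hh (Or.inl hbc))
            · exfalso
              rw [e2 c hcn, e2 d hdn] at he
              apply hx1 b (by omega) c (by omega) d (by omega) h hh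
              have := congrArg (· + x + g c - g d) he
              calc x = g d - g c + x + g c - g d := by abel
                _ = h + (g b - x) + x + g c - g d := this.symm
                _ = h + g b + g c - g d := by abel
        · rw [e2 a han] at he
          by_cases hbn : b = n
          · subst hbn
            rw [e1] at he
            by_cases hcn : c = b
            · subst hcn
              rw [e1, e2 d (Ne.symm hcd)] at he
              have h1 : x + x = -h + g d + g a := by
                have := congrArg (· + x - h + g a) he
                calc x + x = h + (x - g a) + x - h + g a := by abel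
                  _ = g d - x + x - h + g a := this
                  _ = -h + g d + g a := by abel
              by_cases hbc : a = d
              · subst hbc
                by_cases h0 : h = 0
                · exact ⟨h0, Or.inr ⟨rfl, rfl⟩⟩
                · exact absurd h1 (hx2 a (by omega) a (by omega) (-h) (I.neg_mem hh)
                    (Or.inr (neg_ne_zero.2 h0)))
              · exact absurd h1 (hx2 d (by omega) a (by omega) (-h) (I.neg_mem hh)
                  (Or.inl (Ne.symm hbc)))
            · by_cases hdn : d = b
              · subst hdn
                rw [e1, e2 c hcn] at he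
                have h1 : g a - g c = h := by
                  have := congrArg (· - x + g a) he
                  calc g a - g c = x - g c - x + g a := by abel
                    _ = h + (x - g a) - x + g a := this.symm
                    _ = h := by abel
                have h2 : a = c := by
                  by_contra hne
                  apply hg.g2 a (by omega) c (by omega) hne
                  rw [h1]; exact hh
                subst h2
                rw [sub_self] at h1
                exact ⟨h1.symm, Or.inl ⟨rfl, rfl⟩⟩
              · exfalso
                rw [e2 c hcn, e2 d hdn] at he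
                apply hx1 a (by omega) d (by omega) c (by omega) (-h) (I.neg_mem hh)
                have := congrArg (· - h + g a) he
                calc x = h + (x - g a) - h + g a := by abel
                  _ = g d - g c - h + g a := this
                  _ = -h + g a + g d - g c := by abel
          · rw [e2 b hbn] at he
            by_cases hcn : c = n
            · subst hcn
              rw [e1, e2 d (Ne.symm hcd)] at he
              exfalso
              apply hx1 d (by omega) a (by omega) b (by omega) (-h) (I.neg_mem hh)
              have := congrArg (· + x - (h + (g b - g a))) he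
              calc x = h + (g b - g a) + x - (h + (g b - g a)) := by abel
                _ = g d - x + x - (h + (g b - g a)) := this
                _ = -h + g d + g a - g b := by abel
            · by_cases hdn : d = n
              · subst hdn
                rw [e1, e2 c hcn] at he
                exfalso
                apply hx1 b (by omega) c (by omega) a (by omega) h hh
                have := congrArg (· + g c) he
                calc x = x - g c + g c := by abel
                  _ = h + (g b - g a) + g c := this.symm
                  _ = h + g b + g c - g a := by abel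
              · rw [e2 c hcn, e2 d hdn] at he
                exact hg.g1 a (by omega) b (by omega) c (by omega) d (by omega) hab hcd h hh he
  exact key 13 (by norm_num) le_rfl

end Pool.Agent.LibSmallGraph
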