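import Mathlib
import Pool.Agent.LibSmallGraph.Greedy
import Pool.Agent.LibSmallGraph.Assemble

set_option linter.unusedSectionVars false

namespace Pool.Agent.LibSmallGraph

open Set

variable {G : Type} [Group G]

lemma odd_sq [Finite G] (ho : Odd (Nat.card G)) (K : Subgroup G) (x : G) (h : x * x ∈ K) :
    x ∈ K := by
  have h1 : Odd (orderOf x) := by
    have := orderOf_dvd_natCard x
    exact Odd.of_dvd_nat ho this
  obtain ⟨m, hm⟩ := h1
  have h2 : (x * x) ^ (m + 1) = x := by
    rw [← pow_two, ← pow_mul, show 2 * (m + 1) = orderOf x + 1 by omega, pow_succ,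
      pow_orderOf_eq_one, one_mul]
  rw [← h2]
  exact K.pow_mem h _

lemma zpowers_two {k h : G} (hk : orderOf k = 2) (hh : h ∈ Subgroup.zpowers k) (h1 : h ≠ 1) :
    h = k := by
  obtain ⟨n, rfl⟩ := Subgroup.mem_zpowers_iff.1 hh
  have h2 : k ^ (2 : ℤ) = 1 := by
    have := pow_orderOf_eq_one k
    rw [hk] at this
    exact_mod_cast this
  rcases Int.even_or_odd' n with ⟨m, hm | hm⟩
  · exfalso
    apply h1
    rw [hm, zpow_mul, h2, one_zpow]
  · rw [hm, zpow_add, zpow_mul, h2, one_zpow, one_mul, zpow_one]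

theorem exists_core [Finite G] (k : G) (hk1 : k ≠ 1) (A : Subgroup G)
    (hA : ∀ x ∈ A, ∀ y ∈ A, x * y = y * x)
    (hodd : orderOf k = 2 ∨ Odd (Nat.card G))
    (hcard : ((∀ x ∈ A, x * x = 1) ∧
        2210 * Nat.card ((Subgroup.zpowers k).subgroupOf A) < Nat.card A) ∨
      (2210 + 169 * Nat.card {x : A // x * x = 1}) *
        Nat.card ((Subgroup.zpowers k).subgroupOf A) < Nat.card A) :
    ∃ f : ℕ → G, (∀ m, f m ∈ A) ∧ CoreOK k f ∧
      ∀ c < 13, ∀ d < 13, c ≠ d → (f c)⁻¹ * f d ∉ Subgroup.zpowers k := by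
  classical
  let _ : CommGroup A := { (inferInstance : Group A) with
    mul_comm := fun x y => Subtype.ext (hA x x.2 y y.2) }
  let I : AddSubgroup (Additive A) := Subgroup.toAddSubgroup ((Subgroup.zpowers k).subgroupOf A)
  obtain ⟨g, hg0, hg⟩ := greedy (B := Additive A) I (by
    rcases hcard with ⟨h1, h2⟩ | h2
    · left
      refine ⟨fun x => ?_, h2⟩
      have := h1 x.toMul x.toMul.2
      exact congrArg Additive.ofMul (Subtype.ext this)
    · right
      exact h2)
  let f : ℕ → G := fun m => ((g m).toMul : A)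
  have hfA : ∀ m, f m ∈ A := fun m => (g m).toMul.2
  -- translation of the two generic properties
  have mem_I : ∀ (x : G) (hx : x ∈ A), x ∈ Subgroup.zpowers k →
      (Additive.ofMul (⟨x, hx⟩ : A) : Additive A) ∈ I := fun x hx h => h
  have g2 : ∀ c < 13, ∀ d < 13, c ≠ d → f c * (f d)⁻¹ ∉ Subgroup.zpowers k := by
    intro c hc d hd hcd h
    refine hg.g2 c hc d hd hcd ?_
    rw [sub_eq_add_neg]
    exact mem_I _ (A.mul_mem (hfA c) (A.inv_mem (hfA d))) h
  have g2' : ∀ c < 13, ∀ d < 13, c ≠ d → (f c)⁻¹ * f d ∉ Subgroup.zpowers k := by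
    intro c hc d hd hcd h
    apply g2 d hd c hc hcd.symm
    rw [hA _ (hfA d) _ (A.inv_mem (hfA c))]
    exact h
  have g1 : ∀ a < 13, ∀ b < 13, ∀ c < 13, ∀ d < 13, a ≠ b → c ≠ d → ∀ h ∈ Subgroup.zpowers k,
      (f a)⁻¹ * h * f b = (f c)⁻¹ * f d → h = 1 ∧ ((a = c ∧ b = d) ∨ (a = d ∧ b = c)) := by
    intro a ha b hb c hc d hd hab hcd h hh he
    have hhA : h ∈ A := by
      have : h = f a * ((f c)⁻¹ * f d) * (f b)⁻¹ := by rw [← he]; group
      rw [this]
      exact A.mul_mem (A.mul_mem (hfA a) (A.mul_mem (A.inv_mem (hfA c)) (hfA d)))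
        (A.inv_mem (hfA b))
    have h1 := hg.g1 a ha b hb c hc d hd hab hcd (Additive.ofMul (⟨h, hhA⟩ : A))
      (mem_I _ hhA hh) (by
        rw [sub_eq_add_neg, sub_eq_add_neg]
        apply Additive.toMul.injective
        apply Subtype.ext
        change h * (f b * (f a)⁻¹) = f d * (f c)⁻¹
        rw [hA (f d) (hfA d) _ (A.inv_mem (hfA c)), ← he,
          hA (f b) (hfA b) _ (A.inv_mem (hfA a)), ← mul_assoc,
          hA h hhA _ (A.inv_mem (hfA a))])
    refine ⟨?_, h1.2⟩
    have h2 : (⟨h, hhA⟩ : A) = 1 := congrArg Additive.toMul h1.1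
    exact congrArg Subtype.val h2
  have hf0 : f 0 = 1 := by
    change ((g 0).toMul : A).1 = 1
    rw [hg0]
    rfl
  refine ⟨f, hfA, ⟨hk1, hf0, ?_, ?_, ?_, ?_⟩, g2'⟩
  · intro a ha b hb h hh he
    have h1 : f a * (f b)⁻¹ = h := by rw [he]; group
    have hab : a = b := by
      by_contra hne
      apply g2 a ha b hb hne
      rw [h1]; exact hh
    subst hab
    exact ⟨rfl, right_eq_mul.1 he⟩
  · intro a b c d hcd h hh he
    have hcd' : (c : ℕ) ≠ d := by
      intro h1
      have h2 : c = d := Fin.ext h1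
      subst h2
      rw [B0_irrefl] at hcd
      cases hcd
    by_cases hab : (a : ℕ) = b
    · exfalso
      rw [← hab] at he
      have hhA : h ∈ A := by
        have : h = f a * ((f c)⁻¹ * f d) * (f a)⁻¹ := by rw [← he]; group
        rw [this]
        exact A.mul_mem (A.mul_mem (hfA a) (A.mul_mem (A.inv_mem (hfA c)) (hfA d)))
          (A.inv_mem (hfA a))
      rw [mul_assoc, hA h hhA _ (hfA a), inv_mul_cancel_left] at he
      exact g2' c c.2 d d.2 hcd' (he ▸ hh)
    · obtain ⟨h1, h2⟩ := g1 a a.2 b b.2 c c.2 d d.2 hab hcd' h hh he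
      refine ⟨h1, ?_⟩
      rcases h2 with ⟨h3, h4⟩ | ⟨h3, h4⟩
      · rw [Fin.ext h3, Fin.ext h4]; exact hcd
      · rw [Fin.ext h3, Fin.ext h4, B0_symm]; exact hcd
  · intro a b he
    unfold lamOf at he
    have hk : k ∈ Subgroup.zpowers k := Subgroup.mem_zpowers k
    by_cases hab : (a : ℕ) = b
    · rw [hab, inv_mul_cancel] at he
      have hkA : k ∈ A := by
        have : k = f 0 * ((f 0)⁻¹ * k * f 12) * (f 12)⁻¹ := by group
        rw [this, ← he]
        exact A.mul_mem (A.mul_mem (hfA 0) A.one_mem) (A.inv_mem (hfA 12))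
      rw [mul_assoc, hA k hkA _ (hfA 12), ← mul_assoc] at he
      apply g2' 0 (by norm_num) 12 (by norm_num) (by norm_num)
      have : (f 0)⁻¹ * f 12 = k⁻¹ := by
        rw [eq_comm, mul_eq_one_iff_eq_inv] at he
        exact he
      rw [this]
      exact Subgroup.inv_mem _ hk
    · exact hk1 (g1 0 (by norm_num) 12 (by norm_num) a a.2 b b.2 (by norm_num) hab k hk he.symm).1
  · intro h hh hne he
    rcases hodd with h2 | hodd
    · exact zpowers_two h2 hh hne
    · exfalso
      have hk : k ∈ Subgroup.zpowers k := Subgroup.mem_zpowers k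
      unfold lamOf at he
      rw [hf0, inv_one, one_mul, one_mul] at he
      have h1 : (f 12 * k) * (f 12 * k) = h⁻¹ * k := by
        have h3 : h * f 12 * (k * f 12) = 1 := by rw [he]; group
        calc (f 12 * k) * (f 12 * k) = h⁻¹ * (h * f 12 * (k * f 12)) * k := by group
          _ = h⁻¹ * k := by rw [h3]; group
      have h2 : f 12 * k ∈ Subgroup.zpowers k := odd_sq hodd _ _ (by
        rw [h1]
        exact Subgroup.mul_mem _ (Subgroup.inv_mem _ hh) hk)
      have h3 : f 12 ∈ Subgroup.zpowers k := by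
        have := Subgroup.mul_mem _ h2 (Subgroup.inv_mem _ hk)
        rwa [mul_inv_cancel_right] at this
      apply g2' 0 (by norm_num) 12 (by norm_num) (by norm_num)
      rw [hf0, inv_one, one_mul]
      exact h3

end Pool.Agent.LibSmallGraph
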