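import Mathlib
import Pool.Agent.LibSmallGraph.Gadget

set_option linter.unusedSectionVars false

namespace Pool.Agent.LibSmallGraph

open Set

variable {G : Type} [Group G]

/-- there is a generating tail of length `r` with elements in `V` -/
def HasTail (k : G) (f : ℕ → G) (V : Set G) (r : ℕ) : Prop :=
  ∃ v : ℕ → G, (∀ c < r, v c ∈ V) ∧ gens k f v (fun d => d < r) = ⊤

lemma hasTail_of_closure [Finite G] (k : G) (f : ℕ → G) (V : Set G)
    (hV : Subgroup.closure V = ⊤) : ∃ r, HasTail k f V r := by
  classical
  obtain ⟨n, ⟨e⟩⟩ := Finite.exists_equiv_fin V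
  refine ⟨n, fun c => if h : c < n then (e.symm ⟨c, h⟩ : G) else 1, ?_, ?_⟩
  · intro c hc
    simp only [dif_pos hc]
    exact (e.symm ⟨c, hc⟩).2
  · rw [eq_top_iff, ← hV, Subgroup.closure_le]
    intro x hx
    apply Subgroup.subset_closure
    right; right
    refine ⟨e ⟨x, hx⟩, (e ⟨x, hx⟩).2, ?_⟩
    simp

lemma irredundant (k : G) (f : ℕ → G) (V : Set G) (r : ℕ)
    (hmin : ∀ m < r, ¬ HasTail k f V m) (v : ℕ → G) (hv : ∀ c < r, v c ∈ V)
    (hgen : gens k f v (fun d => d < r) = ⊤) :
    ∀ c < r, v c ∉ gens k f v (fun d => d < r ∧ d ≠ c) := by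
  classical
  intro c hc hmem
  apply hmin (r - 1) (by omega)
  refine ⟨fun d => if d < c then v d else v (d + 1), ?_, ?_⟩
  · intro d hd
    simp only
    split_ifs
    · exact hv d (by omega)
    · exact hv (d + 1) (by omega)
  · have h1 : gens k f v (fun d => d < r ∧ d ≠ c) ≤
        gens k f (fun d => if d < c then v d else v (d + 1)) (fun d => d < r - 1) := by
      unfold gens
      rw [Subgroup.closure_le]
      rintro x (rfl | ⟨a, rfl⟩ | ⟨d, ⟨hd, hdc⟩, rfl⟩)
      · exact k_mem_gens
      · exact f_mem_gens a.2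
      · by_cases hlt : d < c
        · apply Subgroup.subset_closure
          right; right
          exact ⟨d, by omega, by simp [hlt]⟩
        · apply Subgroup.subset_closure
          right; right
          refine ⟨d - 1, by omega, ?_⟩
          simp only
          rw [if_neg (by omega), show d - 1 + 1 = d by omega]
    have h2 : gens k f v (fun d => d < r) ≤ gens k f v (fun d => d < r ∧ d ≠ c) := by
      conv_lhs => unfold gens
      rw [Subgroup.closure_le]
      rintro x (rfl | ⟨a, rfl⟩ | ⟨d, hd, rfl⟩)
      · exact k_mem_gens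
      · exact f_mem_gens a.2
      · by_cases hdc : d = c
        · subst hdc; exact hmem
        · exact v_mem_gens ⟨hd, hdc⟩
    rw [eq_top_iff, ← hgen]
    exact h2.trans h1

lemma rung_two {k : G} {f v : ℕ → G} {r : ℕ} [Finite G] (hk : orderOf k = 2) (y : G) :
    {s | s ∈ Sset k f v r ∧ ∃ h ∈ Subgroup.zpowers k, h ≠ 1 ∧ s = y⁻¹ * h * y}.ncard ≤ 4 := by
  have hsub : {s | s ∈ Sset k f v r ∧ ∃ h ∈ Subgroup.zpowers k, h ≠ 1 ∧ s = y⁻¹ * h * y} ⊆
      {y⁻¹ * k * y} := by
    rintro s ⟨_, h, hh, hne, rfl⟩
    rw [zpowers_two hk hh hne]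
    rfl
  have := ncard_le_ncard hsub (toFinite _)
  rw [ncard_singleton] at this
  omega

lemma inv_eq_self_of_two {k : G} (hk : orderOf k = 2) : k⁻¹ = k := by
  have h1 := pow_orderOf_eq_one k
  rw [hk, pow_two] at h1
  exact inv_eq_of_mul_eq_one_left h1

/-- central involution -/
theorem tail_central [Finite G] {k : G} {f : ℕ → G} (hk : orderOf k = 2)
    (hcen : k ∈ Subgroup.center G) (hV : Subgroup.closure {g : G | g * g ≠ k} = ⊤) :
    ∃ r v, TailOK k f v r := by
  classical
  have hex := hasTail_of_closure k f _ hV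
  obtain ⟨v, hv, hgen⟩ := Nat.find_spec hex
  refine ⟨Nat.find hex, v, irredundant k f _ _ (fun m hm => Nat.find_min hex hm) v hv hgen, hgen,
    ?_, fun c _ _ => rung_two hk _⟩
  intro c hc h hh hne he
  rw [zpowers_two hk hh hne] at he
  have h1 : (f 12 * seg v 0 c)⁻¹ * k * (f 12 * seg v 0 c) = k := by
    rw [mul_assoc, ← Subgroup.mem_center_iff.1 hcen, inv_mul_cancel_left]
  rw [h1] at he
  apply hv c hc
  have h2 : k = (v c * v c)⁻¹ := by
    rw [mul_inv_rev]
    exact eq_mul_inv_of_mul_eq he
  rw [← inv_eq_self_of_two hk, h2, inv_inv]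

/-- noncentral involution -/
theorem tail_noncentral [Finite G] {k : G} {f : ℕ → G} (hk : orderOf k = 2)
    (hcen : k ∉ Subgroup.center G) : ∃ r v, TailOK k f v r := by
  classical
  have hex := hasTail_of_closure k f (univ : Set G) (by rw [Subgroup.closure_univ])
  set r := Nat.find hex with hr
  have key : ∀ j ≤ r, ∃ v : ℕ → G, gens k f v (fun d => d < r) = ⊤ ∧
      ∀ c < j, v c * v c ≠ (f 12 * seg v 0 c)⁻¹ * k * (f 12 * seg v 0 c) := by
    intro j
    induction j with
    | zero =>
      intro _
      obtain ⟨v, _, hgen⟩ := Nat.find_spec hex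
      exact ⟨v, hgen, fun c hc => absurd hc (by omega)⟩
    | succ j ih =>
      intro hj
      obtain ⟨v, hgen, hv⟩ := ih (by omega)
      by_cases hbad : v j * v j = (f 12 * seg v 0 j)⁻¹ * k * (f 12 * seg v 0 j)
      · set y := f 12 * seg v 0 j with hy
        set ζ := y⁻¹ * k * y with hζ
        have hg : ∃ g ∈ gens k f v (fun d => d < r ∧ d ≠ j), g * ζ ≠ ζ * g := by
          by_contra hcon
          push Not at hcon
          apply hcen
          have h1 : ∀ g : G, g * ζ = ζ * g := by
            intro g
            have hgm : g ∈ gens k f v (fun d => d < r) := by rw [hgen]; trivial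
            have hle : gens k f v (fun d => d < r) ≤ Subgroup.centralizer {ζ} := by
              conv_lhs => unfold gens
              rw [Subgroup.closure_le]
              intro x hx
              rw [SetLike.mem_coe, Subgroup.mem_centralizer_singleton_iff]
              by_cases hxm : x ∈ gens k f v (fun d => d < r ∧ d ≠ j)
              · exact hcon x hxm
              · rcases hx with rfl | ⟨a, rfl⟩ | ⟨d, hd, rfl⟩
                · exact absurd k_mem_gens hxm
                · exact absurd (f_mem_gens a.2) hxm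
                · by_cases hdj : d = j
                  · subst hdj
                    rw [← hbad, mul_assoc]
                  · exact absurd (v_mem_gens ⟨hd, hdj⟩) hxm
            exact Subgroup.mem_centralizer_singleton_iff.1 (hle hgm)
          rw [Subgroup.mem_center_iff]
          intro g
          have h2 : k = ζ := by
            have := h1 y
            rw [hζ] at this ⊢
            calc k = y * (y⁻¹ * k * y) * y⁻¹ := by group
              _ = (y⁻¹ * k * y) * y * y⁻¹ := by rw [this]
              _ = y⁻¹ * k * y := by group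
          rw [h2]
          exact h1 g
        obtain ⟨g, hgm, hgz⟩ := hg
        let v' : ℕ → G := Function.update v j (g⁻¹ * v j * g)
        have hv'j : v' j = g⁻¹ * v j * g := Function.update_self j _ v
        have hv'n : ∀ d, d ≠ j → v' d = v d := fun d hd => Function.update_of_ne hd _ _
        have hseg : ∀ c ≤ j, seg v' 0 c = seg v 0 c := by
          intro c
          induction c with
          | zero => intro _; rfl
          | succ c ihc =>
            intro hc
            rw [seg, seg, ihc (by omega), hv'n _ (by omega)]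
        have hle1 : gens k f v (fun d => d < r ∧ d ≠ j) ≤ gens k f v' (fun d => d < r) := by
          conv_lhs => unfold gens
          rw [Subgroup.closure_le]
          rintro x (rfl | ⟨a, rfl⟩ | ⟨d, ⟨hd, hdj⟩, rfl⟩)
          · exact k_mem_gens
          · exact f_mem_gens a.2
          · rw [← hv'n d hdj]
            exact v_mem_gens (P := fun d => d < r) hd
        refine ⟨v', ?_, ?_⟩
        · rw [eq_top_iff, ← hgen]
          conv_lhs => unfold gens
          rw [Subgroup.closure_le]
          rintro x (rfl | ⟨a, rfl⟩ | ⟨d, hd, rfl⟩)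
          · exact k_mem_gens
          · exact f_mem_gens a.2
          · by_cases hdj : d = j
            · subst hdj
              have h3 : v d = g * v' d * g⁻¹ := by rw [hv'j]; group
              rw [h3]
              exact Subgroup.mul_mem _ (Subgroup.mul_mem _ (hle1 hgm)
                (v_mem_gens (P := fun d => d < r) hd)) (Subgroup.inv_mem _ (hle1 hgm))
            · rw [← hv'n d hdj]
              exact v_mem_gens (P := fun d => d < r) hd
        · intro c hc
          by_cases hcj : c = j
          · subst hcj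
            rw [hseg c le_rfl, hv'j, ← hy, ← hζ]
            intro h4
            apply hgz
            have h5 : g⁻¹ * v c * g * (g⁻¹ * v c * g) = g⁻¹ * (v c * v c) * g := by group
            rw [h5, hbad] at h4
            calc g * ζ = g * (g⁻¹ * ζ * g) := by rw [h4]
              _ = ζ * g := by group
          · rw [hseg c (by omega), hv'n c hcj]
            exact hv c (by omega)
      · refine ⟨v, hgen, ?_⟩
        intro c hc
        by_cases hcj : c = j
        · subst hcj; exact hbad
        · exact hv c (by omega)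
  obtain ⟨v, hgen, hv⟩ := key r le_rfl
  refine ⟨r, v, irredundant k f univ r (fun m hm => Nat.find_min hex hm) v
    (fun _ _ => trivial) hgen, hgen, ?_, fun c _ _ => rung_two hk _⟩
  intro c hc h hh hne he
  rw [zpowers_two hk hh hne] at he
  apply hv c hc
  have h2 : (f 12 * seg v 0 c)⁻¹ * k * (f 12 * seg v 0 c) = (v c)⁻¹ * (v c)⁻¹ :=
    eq_mul_inv_of_mul_eq he
  have h3 : ((f 12 * seg v 0 c)⁻¹ * k * (f 12 * seg v 0 c))⁻¹ =
      (f 12 * seg v 0 c)⁻¹ * k * (f 12 * seg v 0 c) := by
    have : ((f 12 * seg v 0 c)⁻¹ * k * (f 12 * seg v 0 c))⁻¹ =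
        (f 12 * seg v 0 c)⁻¹ * k⁻¹ * (f 12 * seg v 0 c) := by group
    rw [this, inv_eq_self_of_two hk]
  rw [← h3, h2, mul_inv_rev, inv_inv]

/-- odd order -/
theorem tail_odd [Finite G] {k : G} {f : ℕ → G} (hk : (orderOf k).Prime)
    (hodd : Odd (Nat.card G))
    (hrung : ∀ y : G, ∀ h ∈ Subgroup.zpowers k, h ≠ 1 → y⁻¹ * h * y ∉ SB f) :
    ∃ r v, TailOK k f v r := by
  classical
  have hex := hasTail_of_closure k f (univ : Set G) (by rw [Subgroup.closure_univ])
  obtain ⟨v, hv, hgen⟩ := Nat.find_spec hex
  have hirr := irredundant k f _ _ (fun m hm => Nat.find_min hex hm) v hv hgen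
  refine ⟨Nat.find hex, v, hirr, hgen, ?_, ?_⟩
  · intro c hc h hh hne he
    apply hirr c hc
    have h2 : (f 12 * seg v 0 c)⁻¹ * h * (f 12 * seg v 0 c) = (v c)⁻¹ * (v c)⁻¹ :=
      eq_mul_inv_of_mul_eq he
    have h3 : (v c)⁻¹ ∈ gens k f v (fun d => d < Nat.find hex ∧ d ≠ c) := by
      apply odd_sq hodd
      rw [← h2]
      have hy : f 12 * seg v 0 c ∈ gens k f v (fun d => d < Nat.find hex ∧ d ≠ c) :=
        Subgroup.mul_mem _ (f_mem_gens (by norm_num))
          (seg_mem_gens (fun d h1 h2 => ⟨by omega, by omega⟩))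
      exact Subgroup.mul_mem _ (Subgroup.mul_mem _ (Subgroup.inv_mem _ hy) (zp_mem_gens hh)) hy
    exact (Subgroup.inv_mem_iff _).1 h3
  · intro c _ _
    set y := f 12 * seg v 0 c with hy
    set r := Nat.find hex with hr
    -- two tail elements in the same conjugate
    have huniq : ∀ i < r, ∀ j < r, (∃ h ∈ Subgroup.zpowers k, h ≠ 1 ∧ v i = y⁻¹ * h * y) →
        (∃ h ∈ Subgroup.zpowers k, h ≠ 1 ∧ v j = y⁻¹ * h * y) → i = j := by
      rintro i hi j hj ⟨h, hh, hne, h1⟩ ⟨h', hh', hne', h2⟩
      by_contra hij
      apply hirr j hj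
      have hcard : Nat.card (Subgroup.zpowers k) = orderOf k := Nat.card_zpowers k
      have : Fact (orderOf k).Prime := ⟨hk⟩
      have h3 : (⟨h', hh'⟩ : Subgroup.zpowers k) ∈
          Subgroup.zpowers (⟨h, hh⟩ : Subgroup.zpowers k) :=
        mem_zpowers_of_prime_card hcard (by
          intro h4
          exact hne (congrArg Subtype.val h4))
      obtain ⟨n, hn⟩ := Subgroup.mem_zpowers_iff.1 h3
      have h4 : h ^ n = h' := congrArg Subtype.val hn
      have h5 : v j = (v i) ^ n := by
        rw [h2, h1, ← h4]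
        have := conj_zpow (a := y⁻¹) (b := h) (i := n)
        rw [inv_inv] at this
        exact this.symm
      rw [h5]
      exact Subgroup.zpow_mem _ (v_mem_gens ⟨hi, hij⟩) n
    have hsym : ∀ s : G, (∃ h ∈ Subgroup.zpowers k, h ≠ 1 ∧ s⁻¹ = y⁻¹ * h * y) →
        ∃ h ∈ Subgroup.zpowers k, h ≠ 1 ∧ s = y⁻¹ * h * y := by
      rintro s ⟨h, hh, hne, h1⟩
      refine ⟨h⁻¹, Subgroup.inv_mem _ hh, inv_ne_one.2 hne, ?_⟩
      rw [← inv_inv s, h1]; group
    by_cases hj : ∃ j < r, ∃ h ∈ Subgroup.zpowers k, h ≠ 1 ∧ v j = y⁻¹ * h * y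
    · obtain ⟨j, hj, hjv⟩ := hj
      have hsub : {s | s ∈ Sset k f v r ∧ ∃ h ∈ Subgroup.zpowers k, h ≠ 1 ∧ s = y⁻¹ * h * y} ⊆
          {lamOf k f, (lamOf k f)⁻¹, v j, (v j)⁻¹} := by
        rintro s ⟨hs | hs | ⟨i, hi, hs⟩, h, hh, hne, he⟩
        · exfalso
          apply hrung y h hh hne
          rw [← he]; exact hs
        · rcases hs with rfl | rfl
          · left; rfl
          · right; left; rfl
        · rcases hs with rfl | rfl
          · have := huniq i hi j hj ⟨h, hh, hne, he⟩ hjv
            subst this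
            right; right; left; rfl
          · have := huniq i hi j hj (hsym _ ⟨h, hh, hne, he⟩) hjv
            subst this
            right; right; right; rfl
      refine (ncard_le_ncard hsub (toFinite _)).trans ?_
      refine (ncard_insert_le _ _).trans ?_
      have h1 := ncard_insert_le (lamOf k f)⁻¹ ({v j, (v j)⁻¹} : Set G)
      have h2 := ncard_insert_le (v j) ({(v j)⁻¹} : Set G)
      rw [ncard_singleton] at h2
      omega
    · have hsub : {s | s ∈ Sset k f v r ∧ ∃ h ∈ Subgroup.zpowers k, h ≠ 1 ∧ s = y⁻¹ * h * y} ⊆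
          {lamOf k f, (lamOf k f)⁻¹} := by
        rintro s ⟨hs | hs | ⟨i, hi, hs⟩, h, hh, hne, he⟩
        · exfalso
          apply hrung y h hh hne
          rw [← he]; exact hs
        · exact hs
        · exfalso
          apply hj
          rcases hs with rfl | rfl
          · exact ⟨i, hi, h, hh, hne, he⟩
          · exact ⟨i, hi, hsym _ ⟨h, hh, hne, he⟩⟩
      refine (ncard_le_ncard hsub (toFinite _)).trans ?_
      refine (ncard_insert_le _ _).trans ?_
      rw [ncard_singleton]
      norm_num

end Pool.Agent.LibSmallGraph
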