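import Mathlib
import Pool.Agent.LibSmallGraph.Count
import Pool.Agent.LibSmallGraph.Tail
import Pool.Agent.LibSmallGraph.BigAbelian

set_option linter.unusedSectionVars false

namespace Pool.Agent.LibSmallGraph

open Set

variable {G : Type} [Group G]

lemma card_subgroupOf_le [Finite G] (H A : Subgroup G) :
    Nat.card (H.subgroupOf A) ≤ Nat.card H := by
  refine Nat.card_le_card_of_injective (fun x : H.subgroupOf A => (⟨(x : A), x.2⟩ : H)) ?_
  intro x y h
  have h1 : ((x : A) : G) = (y : A) := congrArg (fun z : H => (z : G)) h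
  exact Subtype.ext (Subtype.ext h1)

lemma exists_core_even [Finite G] (k : G) (hk : orderOf k = 2) (A : Subgroup G)
    (hA : ∀ x ∈ A, ∀ y ∈ A, x * y = y * x) (hK : 2000000 ≤ Nat.card A) :
    ∃ f : ℕ → G, CoreOK k f := by
  have hk1 : k ≠ 1 := by
    rintro rfl
    rw [orderOf_one] at hk
    omega
  have hι : ∀ B : Subgroup G, Nat.card ((Subgroup.zpowers k).subgroupOf B) ≤ 2 := by
    intro B
    have := card_subgroupOf_le (Subgroup.zpowers k) B
    rwa [Nat.card_zpowers, hk] at this
  by_cases hτ : 5000 ≤ Nat.card {x : A // x * x = 1}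
  · let E : Subgroup G :=
      { carrier := {x | x ∈ A ∧ x * x = 1}
        one_mem' := ⟨A.one_mem, mul_one 1⟩
        mul_mem' := by
          rintro a b ⟨ha, ha2⟩ ⟨hb, hb2⟩
          refine ⟨A.mul_mem ha hb, ?_⟩
          calc a * b * (a * b) = a * (b * a) * b := by group
            _ = a * (a * b) * b := by rw [hA b hb a ha]
            _ = (a * a) * (b * b) := by group
            _ = 1 := by rw [ha2, hb2, mul_one]
        inv_mem' := by
          rintro a ⟨ha, ha2⟩
          refine ⟨A.inv_mem ha, ?_⟩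
          rw [← mul_inv_rev, ha2, inv_one] }
    have hE : 5000 ≤ Nat.card E := by
      refine hτ.trans (Nat.card_le_card_of_injective
        (fun x : {x : A // x * x = 1} => (⟨x.1, x.1.2, congrArg Subtype.val x.2⟩ : E)) ?_)
      intro x y h
      have h1 : ((x : A) : G) = (y : A) := congrArg (fun z : E => (z : G)) h
      exact Subtype.ext (Subtype.ext h1)
    obtain ⟨f, _, hf, _⟩ := exists_core k hk1 E (fun x hx y hy => hA x hx.1 y hy.1) (Or.inl hk)
      (Or.inl ⟨fun x hx => hx.2, by have := hι E; omega⟩)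
    exact ⟨f, hf⟩
  · push Not at hτ
    obtain ⟨f, _, hf, _⟩ := exists_core k hk1 A hA (Or.inl hk)
      (Or.inr (by have := hι A; nlinarith))
    exact ⟨f, hf⟩

lemma card_quot_zpowers [Finite G] (k : G) :
    Nat.card (G ⧸ Subgroup.zpowers k) * orderOf k = Nat.card G := by
  rw [← Nat.card_zpowers, ← Subgroup.card_eq_card_quotient_mul_card_subgroup]

theorem good_even : ∃ N : ℕ, ∀ (G : Type) [Group G] [Finite G], N ≤ Nat.card G →
    ∀ k : G, orderOf k = 2 →
    (k ∉ Subgroup.center G ∨ Subgroup.closure {g : G | g * g ≠ k} = ⊤) →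
    ∃ S T : Set G, Good (Subgroup.zpowers k) S T := by
  obtain ⟨N, hN⟩ := exists_big_abelian 2000000
  refine ⟨max N 600, ?_⟩
  intro G _ _ hG k hk hcase
  obtain ⟨q, _, A, _, hA, hK⟩ := hN G ((le_max_left _ _).trans hG)
  obtain ⟨f, hf⟩ := exists_core_even k hk A hA hK
  have hq : 300 ≤ Nat.card (G ⧸ Subgroup.zpowers k) := by
    have := card_quot_zpowers k
    rw [hk] at this
    have := (le_max_right N 600).trans hG
    omega
  have htail : ∃ r v, TailOK k f v r := by
    by_cases hc : k ∈ Subgroup.center G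
    · rcases hcase with h | h
      · exact absurd hc h
      · exact tail_central hk hc h
    · exact tail_noncentral hk hc
  obtain ⟨r, v, hv⟩ := htail
  exact ⟨_, _, good_of_ok hf hv hq⟩

lemma sq_card_odd [Finite G] (hodd : Odd (Nat.card G)) (A : Subgroup G) :
    Nat.card {x : A // x * x = 1} = 1 := by
  rw [Nat.card_eq_one_iff_unique]
  refine ⟨⟨?_⟩, ⟨⟨1, mul_one 1⟩⟩⟩
  have key : ∀ x : {x : A // x * x = 1}, ((x : A) : G) = 1 := by
    intro x
    have h1 : ((x : A) : G) * (x : A) ∈ (⊥ : Subgroup G) := by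
      rw [Subgroup.mem_bot]
      exact congrArg Subtype.val x.2
    have h2 := odd_sq hodd ⊥ _ h1
    rwa [Subgroup.mem_bot] at h2
  intro x y
  exact Subtype.ext (Subtype.ext ((key x).trans (key y).symm))

/-- odd order: two different primes -/
lemma good_odd_one [Finite G] (hodd : Odd (Nat.card G)) (q p : ℕ) (hq : q.Prime) (hp : p.Prime)
    (hpq : p ≠ q) (hpG : p ∣ Nat.card G) (A : Subgroup G) (hAq : IsPGroup q A)
    (hA : ∀ x ∈ A, ∀ y ∈ A, x * y = y * x) (hK : 2380 ≤ Nat.card A) :
    ∃ k : G, (orderOf k).Prime ∧ ∃ S T : Set G, Good (Subgroup.zpowers k) S T := by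
  have : Fact p.Prime := ⟨hp⟩
  have : Fact q.Prime := ⟨hq⟩
  obtain ⟨k, hk⟩ := exists_prime_orderOf_dvd_card' p hpG
  have hk1 : k ≠ 1 := by
    rintro rfl
    rw [orderOf_one] at hk
    exact hp.one_lt.ne hk
  have hkp : (orderOf k).Prime := by rw [hk]; exact hp
  -- elements of order p are not in A
  have hAp : ∀ x ∈ A, orderOf x ∣ p → x = 1 := by
    intro x hx hxp
    obtain ⟨m, hm⟩ := (IsPGroup.iff_orderOf.1 hAq) ⟨x, hx⟩
    rw [Subgroup.orderOf_mk] at hm
    rw [hm] at hxp
    rcases (Nat.dvd_prime hp).1 hxp with h | h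
    · rw [← orderOf_eq_one_iff, hm]; exact h
    · exfalso
      have : q ∣ p := by
        rcases m with _ | m
        · rw [pow_zero] at h
          exact absurd h.symm hp.one_lt.ne'
        · rw [← h]; exact dvd_pow_self q (Nat.succ_ne_zero m)
      exact hpq ((Nat.prime_dvd_prime_iff_eq hq hp).1 this).symm
  have hzp : ∀ h ∈ Subgroup.zpowers k, orderOf h ∣ p := by
    intro h hh
    rw [← hk]
    exact orderOf_dvd_of_mem_zpowers hh
  have hι : Nat.card ((Subgroup.zpowers k).subgroupOf A) = 1 := by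
    rw [Subgroup.card_eq_one, Subgroup.subgroupOf_eq_bot, Subgroup.disjoint_def]
    intro x hx hxA
    exact hAp x hxA (hzp x hx)
  obtain ⟨f, hfA, hf, _⟩ := exists_core k hk1 A hA (Or.inr hodd)
    (Or.inr (by rw [sq_card_odd hodd, hι]; omega))
  have hrung : ∀ y : G, ∀ h ∈ Subgroup.zpowers k, h ≠ 1 → y⁻¹ * h * y ∉ SB f := by
    rintro y h hh hne ⟨a, b, _, he⟩
    have h1 : y⁻¹ * h * y ∈ A := by
      rw [he]; exact A.mul_mem (A.inv_mem (hfA a)) (hfA b)
    have h2 : orderOf (y⁻¹ * h * y) ∣ p := by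
      rw [orderOf_dvd_iff_pow_eq_one]
      have h3 : y⁻¹ * h * y = y⁻¹ * h * (y⁻¹)⁻¹ := by rw [inv_inv]
      rw [h3, conj_pow, orderOf_dvd_iff_pow_eq_one.1 (hzp h hh)]
      group
    have h3 := hAp _ h1 h2
    apply hne
    calc h = y * (y⁻¹ * h * y) * y⁻¹ := by group
      _ = 1 := by rw [h3]; group
  obtain ⟨r, v, hv⟩ := tail_odd hkp hodd hrung
  refine ⟨k, hkp, _, _, good_of_ok hf hv ?_⟩
  -- size of the quotient
  have hcop : Nat.Coprime (Nat.card A) p := by
    obtain ⟨m, hm⟩ := IsPGroup.iff_card.1 hAq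
    rw [hm]
    exact Nat.Coprime.pow_left _ ((Nat.coprime_primes hq hp).2 hpq.symm)
  have h1 : Nat.card A * p ∣ Nat.card G :=
    hcop.mul_dvd_of_dvd_of_dvd (Subgroup.card_subgroup_dvd_card A) hpG
  have h2 := card_quot_zpowers k
  rw [hk] at h2
  rw [← h2] at h1
  have h3 := Nat.dvd_of_mul_dvd_mul_right hp.pos h1
  have h4 := Nat.le_of_dvd Nat.card_pos h3
  omega

/-- odd order, prime power order -/
lemma good_odd_two [Finite G] (hodd : Odd (Nat.card G)) (q : ℕ) (hq : q.Prime)
    (hG : IsPGroup q G) (hnp : ¬ (Nat.card G).Prime) (A : Subgroup G)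
    (hA : ∀ x ∈ A, ∀ y ∈ A, x * y = y * x) (hK : 6000000 ≤ Nat.card A) :
    ∃ k : G, (orderOf k).Prime ∧ ∃ S T : Set G, Good (Subgroup.zpowers k) S T := by
  classical
  have : Fact q.Prime := ⟨hq⟩
  have hnt : Nontrivial G := by
    by_contra h
    rw [not_nontrivial_iff_subsingleton] at h
    have h1 := Subgroup.card_le_card_group A
    rw [Nat.card_of_subsingleton (1 : G)] at h1
    omega
  have hcn : Nontrivial (Subgroup.center G) := hG.center_nontrivial
  obtain ⟨k, hkc, hk⟩ : ∃ k ∈ Subgroup.center G, orderOf k = q := by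
    have h1 : q ∣ Nat.card (Subgroup.center G) := by
      obtain ⟨m, hm, hm2⟩ := (hG.to_subgroup (Subgroup.center G)).nontrivial_iff_card.1 hcn
      rw [hm2]
      exact dvd_pow_self q (by omega)
    obtain ⟨x, hx⟩ := exists_prime_orderOf_dvd_card' q h1
    exact ⟨x, x.2, by rw [← hx, Subgroup.orderOf_coe]⟩
  have hk1 : k ≠ 1 := by
    rintro rfl
    rw [orderOf_one] at hk
    exact hq.one_lt.ne hk
  have hkp : (orderOf k).Prime := by rw [hk]; exact hq
  have hcomm : ∀ x, x * k = k * x := fun x => Subgroup.mem_center_iff.1 hkc x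
  -- a good abelian subgroup
  have hB : ∃ B : Subgroup G, (∀ x ∈ B, ∀ y ∈ B, x * y = y * x) ∧ k ∈ B ∧
      6000000 ≤ Nat.card B ∧ q * q ≤ Nat.card B := by
    have hdvd : ∀ B : Subgroup G, k ∈ B → Nat.card B ≠ q → q * q ≤ Nat.card B := by
      intro B hkB hne
      obtain ⟨m, hm⟩ := IsPGroup.iff_card.1 (hG.to_subgroup B)
      have h1 : orderOf k ∣ Nat.card B := Subgroup.orderOf_dvd_natCard B hkB
      rw [hk] at h1
      have hm2 : 2 ≤ m := by
        by_contra hlt
        have : m = 0 ∨ m = 1 := by omega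
        rcases this with rfl | rfl
        · rw [pow_zero] at hm
          rw [hm] at h1
          exact hq.one_lt.ne' (Nat.dvd_one.1 h1)
        · rw [pow_one] at hm
          exact hne hm
      rw [hm, ← pow_two]
      exact Nat.pow_le_pow_right hq.pos hm2
    let B1 := Subgroup.closure (insert k (A : Set G))
    have hB1 : ∀ x ∈ B1, ∀ y ∈ B1, x * y = y * x := by
      apply closure_comm
      rintro a (rfl | ha) b (rfl | hb)
      · rfl
      · exact (hcomm b).symm
      · exact hcomm a
      · exact hA a ha b hb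
    have hkB1 : k ∈ B1 := Subgroup.subset_closure (mem_insert _ _)
    have hAB1 : A ≤ B1 := fun a ha => Subgroup.subset_closure (mem_insert_of_mem _ ha)
    have hc1 : Nat.card A ≤ Nat.card B1 := Subgroup.card_le_of_le hAB1
    by_cases h1 : Nat.card B1 = q
    · -- then `B1` is generated by `k`; add one more element
      have hne : B1 ≠ ⊤ := by
        intro h
        apply hnp
        rw [← Subgroup.card_top, ← h, h1]
        exact hq
      obtain ⟨x, hx⟩ : ∃ x, x ∉ B1 := by
        by_contra hcon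
        push Not at hcon
        exact hne (Subgroup.eq_top_iff' B1 |>.2 hcon)
      have hzB : Subgroup.zpowers k = B1 := by
        apply Subgroup.eq_of_le_of_card_ge
        · rw [Subgroup.zpowers_le]; exact hkB1
        · rw [h1, Nat.card_zpowers, hk]
      let B2 := Subgroup.closure ({k, x} : Set G)
      have hkB2 : k ∈ B2 := Subgroup.subset_closure (Or.inl rfl)
      have hxB2 : x ∈ B2 := Subgroup.subset_closure (Or.inr rfl)
      have hle : B1 ≤ B2 := by
        rw [← hzB, Subgroup.zpowers_le]; exact hkB2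
      have hc2 : Nat.card B1 ≤ Nat.card B2 := Subgroup.card_le_of_le hle
      refine ⟨B2, ?_, hkB2, by omega, hdvd B2 hkB2 ?_⟩
      · apply closure_comm
        rintro a (rfl | rfl) b (rfl | rfl)
        · rfl
        · exact (hcomm b).symm
        · exact hcomm a
        · rfl
      · intro h2
        have h3 : B1 = B2 := Subgroup.eq_of_le_of_card_ge hle (by omega)
        rw [h3] at hx
        exact hx hxB2
    · exact ⟨B1, hB1, hkB1, by omega, hdvd B1 hkB1 h1⟩
  obtain ⟨B, hBc, hkB, hB1, hB2⟩ := hB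
  have hι : Nat.card ((Subgroup.zpowers k).subgroupOf B) ≤ q := by
    have := card_subgroupOf_le (Subgroup.zpowers k) B
    rwa [Nat.card_zpowers, hk] at this
  have hbig : 2379 * q < Nat.card B := by
    by_cases h : 2380 ≤ q
    · nlinarith
    · omega
  obtain ⟨f, hfA, hf, hf3⟩ := exists_core k hk1 B hBc (Or.inr hodd)
    (Or.inr (by rw [sq_card_odd hodd]; nlinarith))
  have hzc : ∀ h ∈ Subgroup.zpowers k, ∀ y, y * h = h * y := by
    intro h hh y
    have : Subgroup.zpowers k ≤ Subgroup.center G := by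
      rw [Subgroup.zpowers_le]; exact hkc
    exact Subgroup.mem_center_iff.1 (this hh) y
  have hrung : ∀ y : G, ∀ h ∈ Subgroup.zpowers k, h ≠ 1 → y⁻¹ * h * y ∉ SB f := by
    rintro y h hh hne ⟨a, b, hab, he⟩
    have h1 : y⁻¹ * h * y = h := by rw [hzc h hh y⁻¹]; group
    rw [h1] at he
    have hne2 : (a : ℕ) ≠ b := by
      intro h2
      have h3 : a = b := Fin.ext h2
      subst h3
      rw [B0_irrefl] at hab
      cases hab
    apply hf3 a a.2 b b.2 hne2
    rw [← he]; exact hh
  obtain ⟨r, v, hv⟩ := tail_odd hkp hodd hrung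
  refine ⟨k, hkp, _, _, good_of_ok hf hv ?_⟩
  have h2 := card_quot_zpowers k
  rw [hk] at h2
  have h3 := Subgroup.card_le_card_group B
  rw [← h2] at h3
  by_contra hlt
  push Not at hlt
  nlinarith [hq.pos]

theorem good_odd : ∃ N : ℕ, ∀ (G : Type) [Group G] [Finite G], N ≤ Nat.card G →
    Odd (Nat.card G) → ¬ (Nat.card G).Prime →
    ∃ k : G, (orderOf k).Prime ∧ ∃ S T : Set G, Good (Subgroup.zpowers k) S T := by
  obtain ⟨N, hN⟩ := exists_big_abelian 6000000
  refine ⟨N, ?_⟩
  intro G _ _ hG hodd hnp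
  obtain ⟨q, hq, A, hAq, hA, hK⟩ := hN G hG
  by_cases h : ∃ p : ℕ, p.Prime ∧ p ≠ q ∧ p ∣ Nat.card G
  · obtain ⟨p, hp, hpq, hpG⟩ := h
    exact good_odd_one hodd q p hq hp hpq hpG A hAq hA (by omega)
  · push Not at h
    have : Fact q.Prime := ⟨hq⟩
    have hGq : IsPGroup q G := by
      rw [IsPGroup.iff_card]
      refine ⟨_, Nat.eq_prime_pow_of_unique_prime_dvd Nat.card_pos.ne' ?_⟩
      intro d hd hdG
      by_contra hne
      exact h d hd hne hdG
    exact good_odd_two hodd q hq hGq hnp A hA hK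

end Pool.Agent.LibSmallGraph
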