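import Mathlib

set_option linter.unusedSectionVars false

namespace Pool.Agent.LibSmallGraph

open Set

variable {G : Type} [Group G]

/-- the subgroup generated by the elements whose square is not `z` -/
def Pz (z : G) : Subgroup G := Subgroup.closure {g : G | g * g ≠ z}

lemma sq_of_notMem {z x : G} (hx : x ∉ Pz z) : x * x = z := by
  by_contra h
  exact hx (Subgroup.subset_closure h)

lemma inverts {z x : G} (hx : x ∉ Pz z) {a : G} (ha : a ∈ Pz z) : x⁻¹ * a * x = a⁻¹ := by
  have h1 : x * a ∉ Pz z := by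
    intro h
    apply hx
    have := (Pz z).mul_mem h ((Pz z).inv_mem ha)
    rwa [mul_inv_cancel_right] at this
  have h2 := sq_of_notMem h1
  have h3 := sq_of_notMem hx
  have h4 : a * x * a = x := by
    have : x * (a * x * a) = x * x := by
      rw [h3, ← h2]; group
    exact mul_left_cancel this
  calc x⁻¹ * a * x = x⁻¹ * (a * x * a) * a⁻¹ := by group
    _ = a⁻¹ := by rw [h4]; group

lemma Pz_comm {z x : G} (hx : x ∉ Pz z) : ∀ a ∈ Pz z, ∀ b ∈ Pz z, a * b = b * a := by
  intro a ha b hb
  have h1 := inverts hx ((Pz z).mul_mem ha hb)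
  have h2 := inverts hx ha
  have h3 := inverts hx hb
  have h4 : x⁻¹ * (a * b) * x = (x⁻¹ * a * x) * (x⁻¹ * b * x) := by group
  rw [h4, h2, h3] at h1
  have h5 : (a⁻¹ * b⁻¹)⁻¹ = (a * b)⁻¹⁻¹ := by rw [h1]
  rw [mul_inv_rev, inv_inv, inv_inv, inv_inv] at h5
  exact h5.symm

lemma z_mem_Pz {z : G} (hz : orderOf z = 2) : z ∈ Pz z := by
  apply Subgroup.subset_closure
  intro h
  have h1 : z = 1 := mul_eq_left.1 h
  rw [h1, orderOf_one] at hz
  omega

lemma closure_compl {P : Subgroup G} (hP : P ≠ ⊤) : Subgroup.closure ((P : Set G)ᶜ) = ⊤ := by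
  obtain ⟨x, hx⟩ : ∃ x, x ∉ P := by
    by_contra h
    push Not at h
    exact hP ((Subgroup.eq_top_iff' P).2 h)
  rw [Subgroup.eq_top_iff']
  intro g
  by_cases hg : g ∈ P
  · have h1 : g * x ∉ P := by
      intro h
      apply hx
      have := P.mul_mem (P.inv_mem hg) h
      rwa [inv_mul_cancel_left] at this
    have h2 := Subgroup.mul_mem _ (Subgroup.subset_closure (show g * x ∈ (P : Set G)ᶜ from h1))
      (Subgroup.inv_mem _ (Subgroup.subset_closure (show x ∈ (P : Set G)ᶜ from hx)))
    rwa [mul_inv_cancel_right] at h2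
  · exact Subgroup.subset_closure hg

/-- If no involution works then the involution is unique. -/
lemma unique_inv (h2 : ¬ ∃ k : G, orderOf k = 2 ∧ Subgroup.closure {g : G | g * g ≠ k} = ⊤)
    {z z' : G} (hz : orderOf z = 2) (hz' : orderOf z' = 2) : z' = z := by
  by_contra hne
  apply h2
  refine ⟨z', hz', ?_⟩
  have hP : Pz z ≠ ⊤ := fun h => h2 ⟨z, hz, h⟩
  rw [eq_top_iff, ← closure_compl hP]
  apply Subgroup.closure_mono
  intro x hx
  have h3 := sq_of_notMem (z := z) hx
  change x * x ≠ z'
  rw [h3]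
  exact Ne.symm hne

/-- the order is at most 8 if the subgroup is as small as possible -/
lemma card_le_eight [Finite G] {z : G} (hz : orderOf z = 2) (hzc : ∀ x, x * z = z * x)
    (hP : ∀ a ∈ Pz z, a = 1 ∨ a = z) : Nat.card G ≤ 8 := by
  classical
  have hzz : z * z = 1 := by
    have := pow_orderOf_eq_one z
    rwa [hz, pow_two] at this
  have hz1 : z ≠ 1 := by
    rintro rfl
    rw [orderOf_one] at hz
    omega
  have hzm := z_mem_Pz hz
  -- anticommuting
  have hanti : ∀ x y, x ∉ Pz z → y ∉ Pz z → x * y ∉ Pz z → y * x = x * y * z := by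
    intro x y hx hy hxy
    have h1 := sq_of_notMem hx
    have h2 := sq_of_notMem hy
    have h3 := sq_of_notMem hxy
    calc y * x = x * (x * x)⁻¹ * ((x * y) * (x * y)) * y * (y * y)⁻¹ := by group
      _ = x * z⁻¹ * z * y * z⁻¹ := by rw [h1, h2, h3]
      _ = x * y * z⁻¹ := by group
      _ = x * y * z := by rw [inv_eq_of_mul_eq_one_left hzz]
  by_cases hx : ∃ x, x ∉ Pz z
  swap
  · push Not at hx
    have hsub : (univ : Set G) ⊆ {1, z} := by
      intro g _
      rcases hP g (hx g) with h | h
      · left; exact h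
      · right; exact h
    have h1 := ncard_le_ncard hsub (toFinite _)
    rw [ncard_univ] at h1
    have h2 := ncard_insert_le (1 : G) {z}
    rw [ncard_singleton] at h2
    omega
  obtain ⟨x, hx⟩ := hx
  by_cases hy : ∃ y, y ∉ Pz z ∧ x * y ∉ Pz z
  swap
  · push Not at hy
    have hsub : (univ : Set G) ⊆ {1, z, x⁻¹, x⁻¹ * z} := by
      intro g _
      by_cases hg : g ∈ Pz z
      · rcases hP g hg with h | h
        · left; exact h
        · right; left; exact h
      · have h1 := hy g hg
        rcases hP _ h1 with h | h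
        · right; right; left
          exact eq_inv_of_mul_eq_one_right h
        · right; right; right
          change g = x⁻¹ * z
          rw [← h]; group
    have h1 := ncard_le_ncard hsub (toFinite _)
    rw [ncard_univ] at h1
    have h2 := ncard_insert_le (1 : G) {z, x⁻¹, x⁻¹ * z}
    have h3 := ncard_insert_le z {x⁻¹, x⁻¹ * z}
    have h4 := ncard_insert_le x⁻¹ {x⁻¹ * z}
    rw [ncard_singleton] at h4
    omega
  obtain ⟨y, hy, hxy⟩ := hy
  have hsub : (univ : Set G) ⊆ {1, z, x⁻¹, x⁻¹ * z, y⁻¹, y⁻¹ * z, (x * y)⁻¹, (x * y)⁻¹ * z} := by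
    intro w _
    have aux : ∀ u : G, u * w ∈ Pz z → w = u⁻¹ ∨ w = u⁻¹ * z := by
      intro u hu
      rcases hP _ hu with h | h
      · left; exact eq_inv_of_mul_eq_one_right h
      · right; rw [← h]; group
    by_cases h1 : w ∈ Pz z
    · rcases hP w h1 with h | h
      · left; exact h
      · right; left; exact h
    by_cases h2 : x * w ∈ Pz z
    · rcases aux x h2 with h | h
      · right; right; left; exact h
      · right; right; right; left; exact h
    by_cases h3 : y * w ∈ Pz z
    · rcases aux y h3 with h | h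
      · right; right; right; right; left; exact h
      · right; right; right; right; right; left; exact h
    by_cases h4 : x * y * w ∈ Pz z
    · rcases aux (x * y) h4 with h | h
      · right; right; right; right; right; right; left; exact h
      · right; right; right; right; right; right; right; exact h
    exfalso
    have e1 := hanti x w hx h1 h2
    have e2 := hanti y w hy h1 h3
    have e3 := hanti (x * y) w hxy h1 h4
    have e4 : w * (x * y) = x * y * w := by
      calc w * (x * y) = (w * x) * y := by group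
        _ = x * w * z * y := by rw [e1]
        _ = x * w * (z * y) := by group
        _ = x * w * (y * z) := by rw [hzc]
        _ = x * (w * y) * z := by group
        _ = x * (y * w * z) * z := by rw [e2]
        _ = x * y * w * (z * z) := by group
        _ = x * y * w := by rw [hzz, mul_one]
    rw [e4] at e3
    exact hz1 (left_eq_mul.1 e3)
  have h1 := ncard_le_ncard hsub (toFinite _)
  rw [ncard_univ] at h1
  have h2 := ncard_insert_le (1 : G) {z, x⁻¹, x⁻¹ * z, y⁻¹, y⁻¹ * z, (x * y)⁻¹, (x * y)⁻¹ * z}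
  have h3 := ncard_insert_le z {x⁻¹, x⁻¹ * z, y⁻¹, y⁻¹ * z, (x * y)⁻¹, (x * y)⁻¹ * z}
  have h4 := ncard_insert_le x⁻¹ {x⁻¹ * z, y⁻¹, y⁻¹ * z, (x * y)⁻¹, (x * y)⁻¹ * z}
  have h5 := ncard_insert_le (x⁻¹ * z) {y⁻¹, y⁻¹ * z, (x * y)⁻¹, (x * y)⁻¹ * z}
  have h6 := ncard_insert_le y⁻¹ {y⁻¹ * z, (x * y)⁻¹, (x * y)⁻¹ * z}
  have h7 := ncard_insert_le (y⁻¹ * z) {(x * y)⁻¹, (x * y)⁻¹ * z}
  have h8 := ncard_insert_le (x * y)⁻¹ {(x * y)⁻¹ * z}
  rw [ncard_singleton] at h8
  omega

/-- a finite commutative 2-group with at most one involution is cyclic -/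
lemma cyclic_of_unique {A : Type} [CommGroup A] [Finite A] (n : ℕ) (hn : Nat.card A = 2 ^ n)
    (hu : ∀ x y : A, x * x = 1 → y * y = 1 → x ≠ 1 → y ≠ 1 → x = y) : IsCyclic A := by
  classical
  have : Fintype A := Fintype.ofFinite A
  have hE : (Finset.univ.filter (fun x : A => x * x = 1)).card ≤ 2 := by
    by_cases h : ∃ e : A, e * e = 1 ∧ e ≠ 1
    · obtain ⟨e, he, he1⟩ := h
      have hsub : (Finset.univ.filter (fun x : A => x * x = 1)) ⊆ {1, e} := by
        intro x hx
        rw [Finset.mem_filter] at hx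
        by_cases hx1 : x = 1
        · simp [hx1]
        · have := hu x e hx.2 he hx1 he1
          simp [this]
      exact (Finset.card_le_card hsub).trans Finset.card_le_two
    · push Not at h
      have hsub : (Finset.univ.filter (fun x : A => x * x = 1)) ⊆ {1} := by
        intro x hx
        rw [Finset.mem_filter] at hx
        simp [h x hx.2]
      exact (Finset.card_le_card hsub).trans (by simp)
  have hfib : ∀ j : ℕ, (Finset.univ.filter (fun x : A => x ^ 2 ^ j = 1)).card ≤ 2 ^ j := by
    intro j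
    induction j with
    | zero =>
      have : (Finset.univ.filter (fun x : A => x ^ 2 ^ 0 = 1)) = {1} := by
        ext x; simp
      rw [this]; simp
    | succ j ih =>
      have h1 : ∀ b ∈ (Finset.univ.filter (fun x : A => x ^ 2 ^ j = 1)),
          ((Finset.univ.filter (fun x : A => x ^ 2 ^ (j + 1) = 1)).filter
            (fun x => x * x = b)).card ≤ 2 := by
        intro b _
        by_cases hne : ((Finset.univ.filter (fun x : A => x ^ 2 ^ (j + 1) = 1)).filter
            (fun x => x * x = b)).Nonempty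
        · obtain ⟨x₀, hx₀⟩ := hne
          rw [Finset.mem_filter] at hx₀
          refine (Finset.card_le_card_of_injOn (fun x => x₀⁻¹ * x) ?_ ?_).trans hE
          · intro x hx
            have hx' : x * x = b := (Finset.mem_filter.1 hx).2
            change x₀⁻¹ * x ∈ (Finset.univ.filter (fun x : A => x * x = 1))
            rw [Finset.mem_filter]
            refine ⟨Finset.mem_univ _, ?_⟩
            calc x₀⁻¹ * x * (x₀⁻¹ * x) = (x₀ * x₀)⁻¹ * (x * x) := by
                  rw [mul_inv_rev]
                  rw [mul_assoc, mul_left_comm x, ← mul_assoc, ← mul_assoc]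
              _ = 1 := by rw [hx₀.2, hx', inv_mul_cancel]
          · intro x _ y _ h
            exact mul_left_cancel h
        · rw [Finset.not_nonempty_iff_eq_empty] at hne
          rw [hne]; simp
      have h2 := Finset.card_le_mul_card_image_of_maps_to
        (f := fun x : A => x * x)
        (s := (Finset.univ.filter (fun x : A => x ^ 2 ^ (j + 1) = 1)))
        (t := (Finset.univ.filter (fun x : A => x ^ 2 ^ j = 1))) (by
          intro x hx
          have hx' : x ^ 2 ^ (j + 1) = 1 := (Finset.mem_filter.1 hx).2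
          change x * x ∈ (Finset.univ.filter (fun x : A => x ^ 2 ^ j = 1))
          rw [Finset.mem_filter]
          refine ⟨Finset.mem_univ _, ?_⟩
          rw [← pow_two, ← pow_mul, ← pow_succ']
          exact hx') 2 h1
      have h3 : 2 ^ (j + 1) = 2 ^ j * 2 := pow_succ 2 j
      omega
  apply isCyclic_of_card_pow_eq_one_le
  intro m hm
  obtain ⟨j, l, hl, rfl⟩ := Nat.exists_eq_two_pow_mul_odd hm.ne'
  have hsub : (Finset.univ.filter (fun x : A => x ^ (2 ^ j * l) = 1)) ⊆
      (Finset.univ.filter (fun x : A => x ^ 2 ^ j = 1)) := by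
    intro x hx
    rw [Finset.mem_filter] at hx ⊢
    refine ⟨Finset.mem_univ _, ?_⟩
    rw [← orderOf_dvd_iff_pow_eq_one]
    have h1 : orderOf x ∣ 2 ^ n := by
      rw [← hn]; exact orderOf_dvd_natCard x
    have h2 : orderOf x ∣ 2 ^ j * l := orderOf_dvd_of_pow_eq_one hx.2
    have h3 : Nat.Coprime (orderOf x) l := by
      obtain ⟨i, _, hi⟩ := (Nat.dvd_prime_pow Nat.prime_two).1 h1
      rw [hi]
      exact Nat.Coprime.pow_left _ (Nat.coprime_two_left.2 hl)
    exact h3.dvd_of_dvd_mul_right h2
  have hpos : 1 ≤ l := hl.pos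
  refine (Finset.card_le_card hsub).trans ((hfib j).trans ?_)
  exact Nat.le_mul_of_pos_right _ hpos

/-- A finite 2-group with a unique involution `z` and generated by a proper subgroup `Pz z` and
an element outside is generalized quaternion. -/
theorem quaternion_of_struct [Finite G] (n : ℕ) (hn : Nat.card G = 2 ^ n) (h8 : 8 < Nat.card G)
    {z : G} (hz : orderOf z = 2) (hzc : ∀ x, x * z = z * x)
    (huniq : ∀ z' : G, orderOf z' = 2 → z' = z) (hP : Pz z ≠ ⊤) :
    ∃ k, 1 ≤ k ∧ Nonempty (G ≃* QuaternionGroup (2 ^ k)) := by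
  classical
  have hzz : z * z = 1 := by
    have := pow_orderOf_eq_one z
    rwa [hz, pow_two] at this
  have hz1 : z ≠ 1 := by
    rintro rfl
    rw [orderOf_one] at hz
    omega
  have hsq : ∀ a : G, a * a = 1 → a = 1 ∨ a = z := by
    intro a ha
    by_cases h1 : a = 1
    · exact Or.inl h1
    · right
      apply huniq
      exact orderOf_eq_prime (by rw [pow_two]; exact ha) h1
  obtain ⟨x, hx⟩ : ∃ x, x ∉ Pz z := by
    by_contra h
    push Not at h
    exact hP ((Subgroup.eq_top_iff' _).2 h)
  -- index two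
  have hind : ∀ y, y ∉ Pz z → x * y ∈ Pz z := by
    intro y hy
    by_contra hxy
    have h1 : ∀ a ∈ Pz z, a = 1 ∨ a = z := by
      intro a ha
      apply hsq
      have e1 := inverts hx ha
      have e2 := inverts hy ((Pz z).inv_mem ha)
      have e3 := inverts hxy ha
      have e4 : (x * y)⁻¹ * a * (x * y) = y⁻¹ * (x⁻¹ * a * x) * y := by group
      rw [e4, e1, e2, inv_inv] at e3
      calc a * a = a⁻¹ * a := by rw [← e3]
        _ = 1 := inv_mul_cancel a
    have := card_le_eight hz hzc h1
    omega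
  have hxi : x⁻¹ ∉ Pz z := fun h => hx ((Subgroup.inv_mem_iff _).1 h)
  have hxm : ∀ y, y ∉ Pz z → x⁻¹ * y ∈ Pz z := by
    intro y hy
    have h1 := hind y hy
    have h2 : x⁻¹ * y = (x * x)⁻¹ * (x * y) := by group
    rw [h2, sq_of_notMem hx]
    exact (Pz z).mul_mem ((Pz z).inv_mem (z_mem_Pz hz)) h1
  -- cyclic
  let _ : CommGroup (Pz z) := { (inferInstance : Group (Pz z)) with
    mul_comm := fun a b => Subtype.ext (Pz_comm hx a a.2 b b.2) }
  have hcardP : Nat.card G = 2 * Nat.card (Pz z) := by
    let e : Pz z ⊕ Pz z → G := Sum.elim (fun a => a) (fun a => x * a)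
    have hbij : Function.Bijective e := by
      constructor
      · rintro (a | a) (b | b) h
        · exact congrArg Sum.inl (Subtype.ext h)
        · exfalso
          have h' : (a : G) = x * b := h
          apply hx
          have : x = a * (b : G)⁻¹ := by rw [h']; group
          rw [this]
          exact (Pz z).mul_mem a.2 ((Pz z).inv_mem b.2)
        · exfalso
          have h' : x * (a : G) = b := h
          apply hx
          have : x = b * (a : G)⁻¹ := by rw [← h']; group
          rw [this]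
          exact (Pz z).mul_mem b.2 ((Pz z).inv_mem a.2)
        · exact congrArg Sum.inr (Subtype.ext (mul_left_cancel h))
      · intro g
        by_cases hg : g ∈ Pz z
        · exact ⟨Sum.inl ⟨g, hg⟩, rfl⟩
        · exact ⟨Sum.inr ⟨x⁻¹ * g, hxm g hg⟩, by
            change x * (x⁻¹ * g) = g
            group⟩
    have := Nat.card_congr (Equiv.ofBijective e hbij)
    rw [Nat.card_sum] at this
    omega
  have hn4 : 4 ≤ n := by
    by_contra hlt
    have : n ≤ 3 := by omega
    have h1 : 2 ^ n ≤ 2 ^ 3 := Nat.pow_le_pow_right (by norm_num) this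
    omega
  obtain ⟨k, rfl⟩ : ∃ k, n = k + 2 := ⟨n - 2, by omega⟩
  have hcP : Nat.card (Pz z) = 2 * 2 ^ k := by
    have : 2 ^ (k + 2) = 4 * 2 ^ k := by rw [pow_add]; ring
    omega
  have hcyc : IsCyclic (Pz z) := by
    apply cyclic_of_unique (k + 1)
    · rw [hcP, pow_succ]; ring
    · intro a b ha hb ha1 hb1
      apply Subtype.ext
      have ha' : (a : G) = z := by
        rcases hsq a (congrArg Subtype.val ha) with h | h
        · exact absurd (Subtype.ext h) ha1
        · exact h
      have hb' : (b : G) = z := by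
        rcases hsq b (congrArg Subtype.val hb) with h | h
        · exact absurd (Subtype.ext h) hb1
        · exact h
      rw [ha', hb']
  obtain ⟨g₀, hg₀⟩ := hcyc.exists_generator
  obtain ⟨a, ha⟩ : ∃ a : G, a = g₀.1 := ⟨_, rfl⟩
  have haP : a ∈ Pz z := by rw [ha]; exact g₀.2
  have horda : orderOf a = 2 * 2 ^ k := by
    rw [ha, Subgroup.orderOf_coe, orderOf_eq_card_of_forall_mem_zpowers hg₀, hcP]
  have hgen : ∀ y ∈ Pz z, ∃ i : ℤ, a ^ i = y := by
    intro y hy
    obtain ⟨i, hi⟩ := Subgroup.mem_zpowers_iff.1 (hg₀ ⟨y, hy⟩)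
    refine ⟨i, ?_⟩
    have h1 := congrArg Subtype.val hi
    rw [ha]
    exact h1
  have h2k : 0 < 2 ^ k := by positivity
  have haz : a ^ (2 ^ k) = z := by
    rcases hsq (a ^ 2 ^ k) (by
      rw [← pow_add, ← two_mul, ← horda, pow_orderOf_eq_one]) with h | h
    · exfalso
      have := orderOf_dvd_of_pow_eq_one h
      rw [horda] at this
      have := Nat.le_of_dvd h2k this
      omega
    · exact h
  have hxa : ∀ i : ℤ, x⁻¹ * a ^ i * x = a ^ (-i) := by
    intro i
    have h1 := inverts hx ((Pz z).zpow_mem haP i)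
    rw [h1, zpow_neg]
  have hax : ∀ i : ℤ, a ^ i * x = x * a ^ (-i) := by
    intro i
    rw [← hxa i]; group
  refine ⟨k, by omega, ?_⟩
  -- the map
  let N : ℕ := 2 * 2 ^ k
  have hN0 : NeZero N := ⟨by positivity⟩
  let pw : ZMod (2 * 2 ^ k) → G := fun i => a ^ (i.cast : ℤ)
  have hpw : ∀ i : ℤ, pw (i : ZMod (2 * 2 ^ k)) = a ^ i := by
    intro i
    change a ^ ((i : ZMod (2 * 2 ^ k)).cast : ℤ) = a ^ i
    rw [ZMod.coe_intCast, ← horda, zpow_mod_orderOf]
  have hpa : ∀ i j, pw (i + j) = pw i * pw j := by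
    intro i j
    obtain ⟨i, rfl⟩ := ZMod.intCast_surjective i
    obtain ⟨j, rfl⟩ := ZMod.intCast_surjective j
    rw [← Int.cast_add, hpw, hpw, hpw, zpow_add]
  have hpx : ∀ i, pw i * x = x * pw (-i) := by
    intro i
    obtain ⟨i, rfl⟩ := ZMod.intCast_surjective i
    rw [← Int.cast_neg, hpw, hpw, hax]
  have hpn : pw ((2 ^ k : ℕ) : ZMod (2 * 2 ^ k)) = x * x := by
    have h1 := hpw ((2 ^ k : ℕ) : ℤ)
    rw [Int.cast_natCast] at h1
    rw [h1, zpow_natCast, haz, sq_of_notMem hx]
  let φ : QuaternionGroup (2 ^ k) → G := fun q => match q with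
    | .a i => pw i
    | .xa i => x * pw i
  have hmul : ∀ q q', φ (q * q') = φ q * φ q' := by
    rintro (i | i) (j | j)
    · rw [QuaternionGroup.a_mul_a]
      exact hpa i j
    · rw [QuaternionGroup.a_mul_xa]
      change x * pw (j - i) = pw i * (x * pw j)
      rw [← mul_assoc, hpx, mul_assoc, ← hpa]
      congr 2
      ring
    · rw [QuaternionGroup.xa_mul_a]
      change x * pw (i + j) = x * pw i * pw j
      rw [hpa, mul_assoc]
    · rw [QuaternionGroup.xa_mul_xa]
      change pw (((2 ^ k : ℕ) : ZMod (2 * 2 ^ k)) + j - i) = x * pw i * (x * pw j)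
      have h1 : ((2 ^ k : ℕ) : ZMod (2 * 2 ^ k)) + j - i =
        ((2 ^ k : ℕ) : ZMod (2 * 2 ^ k)) + (-i + j) := by ring
      rw [h1, hpa, hpa, hpn]
      calc x * x * (pw (-i) * pw j) = x * (x * pw (-i)) * pw j := by group
        _ = x * (pw i * x) * pw j := by rw [hpx]
        _ = x * pw i * (x * pw j) := by group
  have hsurj : Function.Surjective φ := by
    intro g
    by_cases hg : g ∈ Pz z
    · obtain ⟨i, hi⟩ := hgen g hg
      exact ⟨.a i, by rw [← hi]; exact hpw i⟩
    · obtain ⟨i, hi⟩ := hgen _ (hxm g hg)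
      refine ⟨.xa i, ?_⟩
      change x * pw i = g
      rw [hpw, hi]; group
  have hNZ : NeZero (2 ^ k) := ⟨h2k.ne'⟩
  have hcard : Nat.card (QuaternionGroup (2 ^ k)) = Nat.card G := by
    rw [Nat.card_eq_fintype_card, QuaternionGroup.card, hn, pow_add]
    ring
  have hbij : Function.Bijective φ := by
    have hfin : Finite (QuaternionGroup (2 ^ k)) := inferInstance
    exact (Nat.bijective_iff_surjective_and_card φ).2 ⟨hsurj, hcard⟩
  exact ⟨(MulEquiv.ofBijective (MonoidHom.mk' φ hmul) hbij).symm⟩

end Pool.Agent.LibSmallGraph
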