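import Mathlib
import Pool.Agent.LibSmallGraph.Data
import Pool.Agent.LibSmallGraph.Central
import Pool.Agent.LibSmallGraph.Struct

set_option linter.unusedSectionVars false

namespace Pool.Agent.LibSmallGraph

open Set

variable {G : Type} [Group G]

/-- `G` is the automorphism group of a graph on fewer than `2|G|` vertices. -/
def Small (G : Type) [Group G] : Prop :=
  ∃ (V : Type) (_ : Finite V) (X : SimpleGraph V), Nat.card V < 2 * Nat.card G ∧
    Nonempty ((X ≃g X) ≃* G)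

lemma small_of_good [Finite G] {k : G} (hk : (orderOf k).Prime) {S T : Set G}
    (h : Good (Subgroup.zpowers k) S T) : Small G := by
  refine ⟨G ⊕ (G ⧸ Subgroup.zpowers k), inferInstance,
    keyGraph (Subgroup.zpowers k) S T h.symm h.one, ?_, ?_⟩
  · rw [Nat.card_sum]
    have h1 := card_quot_zpowers k
    have h2 := hk.two_le
    have h3 : 0 < Nat.card (G ⧸ Subgroup.zpowers k) := Nat.card_pos
    nlinarith
  · have := h.deg
    exact key_iso h.toRigid (by omega)

lemma small_caseC {N : ℕ}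
    (hN : ∀ (G : Type) [Group G] [Finite G], N ≤ Nat.card G →
      ∀ k : G, orderOf k = 2 →
      (k ∉ Subgroup.center G ∨ Subgroup.closure {g : G | g * g ≠ k} = ⊤) →
      ∃ S T : Set G, Good (Subgroup.zpowers k) S T)
    [Finite G] (hG : 2 * N ≤ Nat.card G) {z : G} (hz : orderOf z = 2)
    (hzc : ∀ x, x * z = z * x) (hP : Pz z ≠ ⊤) {p : ℕ} (hp : p.Prime) (hp2 : p ≠ 2)
    (hpG : p ∣ Nat.card G) : Small G := by
  classical
  have : Fact p.Prime := ⟨hp⟩
  have hzz : z * z = 1 := by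
    have := pow_orderOf_eq_one z
    rwa [hz, pow_two] at this
  have hz1 : z ≠ 1 := by
    rintro rfl
    rw [orderOf_one] at hz
    omega
  have hzP : ∀ y, y ∈ Subgroup.zpowers z ↔ y = 1 ∨ y = z := by
    intro y
    constructor
    · intro hy
      by_cases h : y = 1
      · exact Or.inl h
      · exact Or.inr (zpowers_two hz hy h)
    · rintro (rfl | rfl)
      · exact Subgroup.one_mem _
      · exact Subgroup.mem_zpowers _
  obtain ⟨a, ha⟩ := exists_prime_orderOf_dvd_card' p hpG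
  obtain ⟨x, hx⟩ : ∃ x, x ∉ Pz z := by
    by_contra h
    push Not at h
    exact hP ((Subgroup.eq_top_iff' _).2 h)
  have hpodd : ¬ p ∣ 4 := by
    intro h
    have h1 : p ∣ 2 ^ 2 := by norm_num; exact h
    exact hp2 ((Nat.prime_dvd_prime_iff_eq hp Nat.prime_two).1 (hp.dvd_of_dvd_pow h1))
  have haa : a * a ≠ 1 ∧ a * a ≠ z := by
    constructor
    · intro h
      have h1 : orderOf a ∣ 2 := orderOf_dvd_of_pow_eq_one (by rw [pow_two]; exact h)
      rw [ha] at h1
      exact hpodd (h1.trans (by norm_num))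
    · intro h
      have h1 : orderOf a ∣ 4 := orderOf_dvd_of_pow_eq_one (by
        rw [show 4 = 2 + 2 by norm_num, pow_add, pow_two, h, hzz])
      rw [ha] at h1
      exact hpodd h1
  have haP : a ∈ Pz z := Subgroup.subset_closure haa.2
  -- normality
  have hAn : (Subgroup.zpowers a).Normal := by
    refine ⟨fun b hb g => ?_⟩
    obtain ⟨i, rfl⟩ := Subgroup.mem_zpowers_iff.1 hb
    rw [← conj_zpow]
    by_cases hg : g ∈ Pz z
    · have h1 : g * a * g⁻¹ = a := by
        rw [Pz_comm hx g hg a haP, mul_inv_cancel_right]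
      rw [h1]
      exact Subgroup.zpow_mem _ (Subgroup.mem_zpowers a) i
    · have hgi : g⁻¹ ∉ Pz z := fun h => hg ((Subgroup.inv_mem_iff _).1 h)
      have h1 := inverts hgi haP
      rw [inv_inv] at h1
      rw [h1]
      exact Subgroup.zpow_mem _ (Subgroup.inv_mem _ (Subgroup.mem_zpowers a)) i
  have hZn : (Subgroup.zpowers z).Normal := by
    refine ⟨fun b hb g => ?_⟩
    rw [hzP] at hb ⊢
    rcases hb with rfl | rfl
    · left; group
    · right; rw [hzc, mul_inv_cancel_right]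
  let π₁ : G →* G ⧸ Subgroup.zpowers z := QuotientGroup.mk' _
  let π₂ : G →* G ⧸ Subgroup.zpowers a := QuotientGroup.mk' _
  have hs1 : Function.Surjective π₁ := QuotientGroup.mk'_surjective _
  have hs2 : Function.Surjective π₂ := QuotientGroup.mk'_surjective _
  have hk1 : ∀ y, π₁ y = 1 ↔ y = 1 ∨ y = z := by
    intro y
    rw [← hzP]
    exact QuotientGroup.eq_one_iff y
  have hk2 : ∀ y, π₂ y = 1 ↔ y ∈ Subgroup.zpowers a := fun y => QuotientGroup.eq_one_iff y
  have hζ1 : π₂ z ≠ 1 := by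
    intro h
    rw [hk2] at h
    have h1 := orderOf_dvd_of_mem_zpowers h
    rw [hz, ha] at h1
    exact hp2 ((Nat.prime_dvd_prime_iff_eq Nat.prime_two hp).1 h1).symm
  -- the involution of the quotient
  have hκ : orderOf (π₁ x) = 2 := by
    apply orderOf_eq_prime
    · rw [pow_two, ← map_mul, hk1]
      exact Or.inr (sq_of_notMem hx)
    · intro h
      rcases (hk1 x).1 h with rfl | rfl
      · exact hx (Subgroup.one_mem _)
      · exact hx (z_mem_Pz hz)
  have hκc : π₁ x ∉ Subgroup.center (G ⧸ Subgroup.zpowers z) := by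
    intro h
    have h1 := Subgroup.mem_center_iff.1 h (π₁ a)
    have h2 := inverts hx haP
    have h3 : π₁ (x⁻¹ * a * x) = π₁ a := by
      rw [map_mul, map_mul, mul_assoc, h1, map_inv, inv_mul_cancel_left]
    rw [h2] at h3
    have h4 : π₁ (a * a) = 1 := by
      rw [map_mul]
      nth_rewrite 1 [← h3]
      rw [map_inv, inv_mul_cancel]
    rcases (hk1 _).1 h4 with h5 | h5
    · exact haa.1 h5
    · exact haa.2 h5
  have hc1 : Nat.card (G ⧸ Subgroup.zpowers z) * 2 = Nat.card G := by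
    have := card_quot_zpowers z
    rwa [hz] at this
  obtain ⟨S, T, hgood⟩ := hN (G ⧸ Subgroup.zpowers z) (by omega) (π₁ x) hκ (Or.inl hκc)
  -- the set T₀
  set ζ := π₂ z with hζ
  have hζζ : ζ * ζ = 1 := by rw [hζ, ← map_mul, hzz, map_one]
  have hζo : orderOf ζ = 2 := orderOf_eq_prime (by rw [pow_two]; exact hζζ) hζ1
  let Pb : Subgroup (G ⧸ Subgroup.zpowers a) := (Pz z).map π₂
  have hPb : ∀ g, π₂ g ∈ Pb ↔ g ∈ Pz z := by
    intro g
    constructor
    · rintro ⟨b, hb, hbg⟩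
      have h1 : π₂ (b⁻¹ * g) = 1 := by rw [map_mul, map_inv, hbg, inv_mul_cancel]
      rw [hk2] at h1
      have h2 : b⁻¹ * g ∈ Pz z := (Subgroup.zpowers_le.2 haP) h1
      have h3 := (Pz z).mul_mem hb h2
      rwa [mul_inv_cancel_left] at h3
    · exact fun h => ⟨g, h, rfl⟩
  have hζPb : ζ ∈ Pb := (hPb z).2 (z_mem_Pz hz)
  have hxPb : π₂ x ∉ Pb := fun h => hx ((hPb x).1 h)
  have hPbt : Pb ≠ ⊤ := by
    intro h
    apply hxPb
    rw [h]; trivial
  let T' : Set (G ⧸ Subgroup.zpowers a) := {q | q ∉ Pb ∧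
    Quotient.out ((q : G ⧸ Subgroup.zpowers a) : (G ⧸ Subgroup.zpowers a) ⧸ Subgroup.zpowers ζ) = q}
  let T₀ : Set (G ⧸ Subgroup.zpowers a) := {q | q = 1 ∨ q ∈ T'}
  have hcl : ∀ q : G ⧸ Subgroup.zpowers a,
      (((q * ζ : G ⧸ Subgroup.zpowers a)) : (G ⧸ Subgroup.zpowers a) ⧸ Subgroup.zpowers ζ) = q := by
    intro q
    rw [QuotientGroup.eq, mul_inv_rev, inv_mul_cancel_right]
    exact Subgroup.inv_mem _ (Subgroup.mem_zpowers ζ)
  have hz0 : ∀ t ∈ T₀, t * ζ ∉ T₀ := by
    rintro t (rfl | ⟨ht1, ht2⟩) (h | ⟨h1, h2⟩)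
    · rw [one_mul] at h; exact hζ1 h
    · rw [one_mul] at h1; exact h1 hζPb
    · apply ht1
      rw [eq_inv_of_mul_eq_one_left h]
      exact Pb.inv_mem hζPb
    · rw [hcl, ht2] at h2
      exact hζ1 (left_eq_mul.1 h2)
  have hgen0 : Subgroup.closure T₀ = ⊤ := by
    rw [eq_top_iff, ← closure_compl hPbt, Subgroup.closure_le]
    intro q hq
    have hq' : q ∉ Pb := hq
    set w := Quotient.out ((q : G ⧸ Subgroup.zpowers a) :
      (G ⧸ Subgroup.zpowers a) ⧸ Subgroup.zpowers ζ) with hw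
    have h1 : ((w : G ⧸ Subgroup.zpowers a) : (G ⧸ Subgroup.zpowers a) ⧸ Subgroup.zpowers ζ) = q :=
      Quotient.out_eq _
    have h2 : w⁻¹ * q ∈ Subgroup.zpowers ζ := QuotientGroup.eq.1 h1
    have hzle : Subgroup.zpowers ζ ≤ Pb := by
      rw [Subgroup.zpowers_le]; exact hζPb
    have hwP : w ∉ Pb := by
      intro h
      apply hq'
      have := Pb.mul_mem h (hzle h2)
      rwa [mul_inv_cancel_left] at this
    have hwT : w ∈ T₀ := Or.inr ⟨hwP, by rw [h1]⟩
    have hww : w * w = ζ := by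
      obtain ⟨g, hg⟩ := hs2 w
      rw [← hg, ← map_mul, sq_of_notMem (fun h => hwP (hg ▸ (hPb g).2 h))]
    have hζc : ζ ∈ Subgroup.closure T₀ := by
      rw [← hww]
      exact Subgroup.mul_mem _ (Subgroup.subset_closure hwT) (Subgroup.subset_closure hwT)
    have hzle2 : Subgroup.zpowers ζ ≤ Subgroup.closure T₀ := by
      rw [Subgroup.zpowers_le]; exact hζc
    have := Subgroup.mul_mem _ (Subgroup.subset_closure hwT) (hzle2 h2)
    rwa [mul_inv_cancel_left] at this
  let D : CData G (G ⧸ Subgroup.zpowers z) (G ⧸ Subgroup.zpowers a) :=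
    { π₁ := π₁, π₂ := π₂, z := z, s₁ := hs1, s₂ := hs2, k₁ := hk1, zz := hzz, zc := hzc,
      zn := hζ1, H := Subgroup.zpowers (π₁ x), S := S, T := T, good := hgood, T₀ := T₀,
      one₀ := Or.inl rfl, z₀ := hz0, gen₀ := hgen0 }
  -- cardinalities
  have hc2 : Nat.card (G ⧸ Subgroup.zpowers a) * p = Nat.card G := by
    have := card_quot_zpowers a
    rwa [ha] at this
  have hc3 : Nat.card ((G ⧸ Subgroup.zpowers z) ⧸ Subgroup.zpowers (π₁ x)) * 2 =
      Nat.card (G ⧸ Subgroup.zpowers z) := by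
    have := card_quot_zpowers (π₁ x)
    rwa [hκ] at this
  have hc4 : Nat.card ((G ⧸ Subgroup.zpowers a) ⧸ Subgroup.zpowers ζ) * 2 =
      Nat.card (G ⧸ Subgroup.zpowers a) := by
    have := card_quot_zpowers ζ
    rwa [hζo] at this
  have hker : Nat.card π₂.ker = p := by
    have : π₂.ker = Subgroup.zpowers a := QuotientGroup.ker_mk' _
    rw [this, Nat.card_zpowers, ha]
  have hT0 : T₀.ncard ≤ 1 + Nat.card ((G ⧸ Subgroup.zpowers a) ⧸ Subgroup.zpowers ζ) := by
    have h1 : T₀ = {1} ∪ T' := by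
      ext q; rfl
    rw [h1]
    refine (ncard_union_le _ _).trans ?_
    rw [ncard_singleton]
    have h2 : T'.ncard ≤ Nat.card ((G ⧸ Subgroup.zpowers a) ⧸ Subgroup.zpowers ζ) := by
      rw [← ncard_univ]
      refine ncard_le_ncard_of_injOn (fun q => ((q : G ⧸ Subgroup.zpowers a) :
        (G ⧸ Subgroup.zpowers a) ⧸ Subgroup.zpowers ζ)) (fun _ _ => trivial) ?_ (toFinite _)
      rintro q ⟨_, hq⟩ q' ⟨_, hq'⟩ h
      have h : ((q : G ⧸ Subgroup.zpowers a) :
        (G ⧸ Subgroup.zpowers a) ⧸ Subgroup.zpowers ζ) = q' := h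
      rw [← hq, ← hq', h]
    omega
  have hq2 : 2 ≤ Nat.card ((G ⧸ Subgroup.zpowers a) ⧸ Subgroup.zpowers ζ) := by
    by_contra hlt
    have hpos : 0 < Nat.card ((G ⧸ Subgroup.zpowers a) ⧸ Subgroup.zpowers ζ) := Nat.card_pos
    have h1 : Nat.card ((G ⧸ Subgroup.zpowers a) ⧸ Subgroup.zpowers ζ) = 1 := by omega
    rw [Nat.card_eq_one_iff_unique] at h1
    have h2 := h1.1
    have h3 : ((π₂ x : G ⧸ Subgroup.zpowers a) :
      (G ⧸ Subgroup.zpowers a) ⧸ Subgroup.zpowers ζ) = ((1 : G ⧸ Subgroup.zpowers a)) :=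
      Subsingleton.elim _ _
    rw [QuotientGroup.eq, mul_one] at h3
    apply hxPb
    have hzle : Subgroup.zpowers ζ ≤ Pb := by
      rw [Subgroup.zpowers_le]; exact hζPb
    exact (Subgroup.inv_mem_iff _).1 (hzle h3)
  have hp3 : 3 ≤ p := by
    have := hp.two_le
    omega
  have hbig := hgood.big
  set c := Nat.card ((G ⧸ Subgroup.zpowers z) ⧸ Subgroup.zpowers (π₁ x)) with hcdef
  set q2 := Nat.card ((G ⧸ Subgroup.zpowers a) ⧸ Subgroup.zpowers ζ) with hq2def
  have hrel : 2 * c = p * q2 := by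
    have h1 : (2 * c) * 2 = (p * q2) * 2 := by
      calc (2 * c) * 2 = (c * 2) * 2 := by ring
        _ = Nat.card G := by rw [hc3, hc1]
        _ = (q2 * 2) * p := by rw [hc4, hc2]
        _ = (p * q2) * 2 := by ring
    omega
  have hdeg : Nat.card D.π₂.ker + 1 + D.T₀.ncard <
      D.T.ncard + (Nat.card ((G ⧸ Subgroup.zpowers z) ⧸ D.H) - 1) := by
    change Nat.card π₂.ker + 1 + T₀.ncard < T.ncard + (c - 1)
    rw [hker]
    have h5 : p * 2 + 2 * q2 ≤ p * q2 + 4 := by
      obtain ⟨u, rfl⟩ : ∃ u, p = u + 3 := ⟨p - 3, by omega⟩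
      obtain ⟨w, hw⟩ : ∃ w, q2 = w + 2 := ⟨q2 - 2, by omega⟩
      rw [hw]
      nlinarith
    omega
  refine ⟨((G ⧸ Subgroup.zpowers z) ⊕ ((G ⧸ Subgroup.zpowers z) ⧸ D.H)) ⊕
    ((G ⧸ Subgroup.zpowers a) ⊕ (G ⧸ Subgroup.zpowers a)), inferInstance, D.X, ?_, D.iso hdeg⟩
  rw [Nat.card_sum, Nat.card_sum, Nat.card_sum]
  change Nat.card (G ⧸ Subgroup.zpowers z) + c + _ < _
  have h6 : 3 * q2 ≤ p * q2 := Nat.mul_le_mul_right q2 hp3
  have h7 : Nat.card G = 4 * c := by rw [← hc1, ← hc3]; ring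
  omega

/-- All large finite groups, except those of prime order and the generalized quaternion groups,
are automorphism groups of graphs on fewer than `2|G|` vertices. -/
theorem small_of_large : ∃ N : ℕ, ∀ (G : Type) [Group G] [Finite G], N ≤ Nat.card G →
    ¬ (Nat.card G).Prime → (∀ k, 1 ≤ k → ¬ Nonempty (G ≃* QuaternionGroup (2 ^ k))) →
    Small G := by
  obtain ⟨N1, hN1⟩ := good_even
  obtain ⟨N2, hN2⟩ := good_odd
  refine ⟨max (2 * N1) (max N2 9), ?_⟩
  intro G _ _ hG hnp hnq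
  have hG1 : 2 * N1 ≤ Nat.card G := (le_max_left _ _).trans hG
  have hG2 : N2 ≤ Nat.card G := (le_max_left _ _).trans ((le_max_right _ _).trans hG)
  have hG3 : 9 ≤ Nat.card G := (le_max_right _ _).trans ((le_max_right _ _).trans hG)
  rcases Nat.even_or_odd (Nat.card G) with heven | hodd
  swap
  · obtain ⟨k, hk, S, T, hgood⟩ := hN2 G hG2 hodd hnp
    exact small_of_good hk hgood
  by_cases h1 : ∃ k : G, orderOf k = 2 ∧ k ∉ Subgroup.center G
  · obtain ⟨k, hk, hkc⟩ := h1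
    obtain ⟨S, T, hgood⟩ := hN1 G (by omega) k hk (Or.inl hkc)
    exact small_of_good (by rw [hk]; exact Nat.prime_two) hgood
  by_cases h2 : ∃ k : G, orderOf k = 2 ∧ Subgroup.closure {g : G | g * g ≠ k} = ⊤
  · obtain ⟨k, hk, hkc⟩ := h2
    obtain ⟨S, T, hgood⟩ := hN1 G (by omega) k hk (Or.inr hkc)
    exact small_of_good (by rw [hk]; exact Nat.prime_two) hgood
  push Not at h1
  have : Fact (Nat.Prime 2) := ⟨Nat.prime_two⟩
  obtain ⟨z, hz⟩ := exists_prime_orderOf_dvd_card' (G := G) 2 heven.two_dvd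
  have hzc : ∀ x, x * z = z * x := Subgroup.mem_center_iff.1 (h1 z hz)
  have hP : Pz z ≠ ⊤ := fun h => h2 ⟨z, hz, h⟩
  by_cases h3 : ∃ p : ℕ, p.Prime ∧ p ≠ 2 ∧ p ∣ Nat.card G
  · obtain ⟨p, hp, hp2, hpG⟩ := h3
    exact small_caseC hN1 hG1 hz hzc hP hp hp2 hpG
  · exfalso
    push Not at h3
    have hpow := Nat.eq_prime_pow_of_unique_prime_dvd (n := Nat.card G) (p := 2) Nat.card_pos.ne'
      (by
        intro d hd hdG
        by_contra hne
        exact h3 d hd hne hdG)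
    obtain ⟨k, hk, hiso⟩ := quaternion_of_struct _ hpow (by omega) hz hzc
      (fun z' hz' => unique_inv h2 hz hz') hP
    exact hnq k hk hiso

end Pool.Agent.LibSmallGraph
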